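import Pool.Agent.Lib.MP_eadfc1_pr.PureBirth

/-!
Chains driven by two sequences of coins, and the two families of examples: a cycle with a small
exit probability, and a pure birth chain followed by one slow state.
-/

namespace Pool.Agent.Lib.MP_eadfc1_pr.Lo

open MeasureTheory ProbabilityTheory Finset
open scoped unitInterval

/-- `r` is the probability of the window `[t, t + l]` for some chain on `n` states. -/
def Att (n t l : ℕ) (r : ℝ) : Prop :=
  ∃ (P : Matrix (Fin n) (Fin n) ℝ) (x y : Fin n) (Ω : Type) (_ : MeasurableSpace Ω)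
    (μ : Measure Ω) (X : ℕ → Ω → Fin n),
    (∀ a b, 0 ≤ P a b) ∧ (∀ a, ∑ b, P a b = 1) ∧
    IsProbabilityMeasure μ ∧ (∀ k, Measurable (X k)) ∧
    (∀ (k : ℕ) (w : ℕ → Fin n), μ.real {ω | ∀ i ≤ k, X i ω = w i}
      = (if w 0 = x then 1 else 0) * ∏ i ∈ Finset.range k, P (w i) (w (i + 1))) ∧
    r = μ.real {ω | (t : WithTop ℕ) ≤ hittingAfter X {y} 0 ω ∧
      hittingAfter X {y} 0 ω ≤ ((t + l : ℕ) : WithTop ℕ)}

section chain

variable {n : ℕ} (u : Fin n → Prop) [DecidablePred u] (f g : Fin n → Bool → Fin n) (x : Fin n)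

/-- States with `u` move with the second coin, the others with the first. -/
def Z : ℕ → (ℕ → Bool) × (ℕ → Bool) → Fin n
  | 0, _ => x
  | s + 1, ω => if u (Z s ω) then g (Z s ω) (ω.2 s) else f (Z s ω) (ω.1 s)

noncomputable def R (p q : I) : Matrix (Fin n) (Fin n) ℝ := fun a b =>
  if u a then (coin q).real {η | g a η = b} else (coin p).real {ξ | f a ξ = b}

theorem coin_sum (p : I) (h : Bool → Fin n) : ∑ b, (coin p).real {ξ | h ξ = b} = 1 := by
  have h := sum_measureReal_preimage_singleton (μ := coin p) (univ : Finset (Fin n))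
    (f := h) (fun _ _ => MeasurableSet.of_discrete)
  simp only [coe_univ, Set.preimage_univ, probReal_univ] at h
  exact h

theorem measurable_Z (s : ℕ) : Measurable (Z u f g x s) := by
  induction s with
  | zero => exact measurable_const
  | succ s ih =>
    exact (Measurable.of_discrete (f := fun z : Fin n × Bool × Bool =>
      if u z.1 then g z.1 z.2.2 else f z.1 z.2.1)).comp
      (ih.prodMk (((measurable_pi_apply s).comp measurable_fst).prodMk
        ((measurable_pi_apply s).comp measurable_snd)))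

theorem cylZ (w : ℕ → Fin n) (ω : (ℕ → Bool) × (ℕ → Bool)) : ∀ k : ℕ,
    (∀ i ≤ k, Z u f g x i ω = w i) ↔ (w 0 = x ∧ ∀ i < k,
      (if u (w i) then g (w i) (ω.2 i) else f (w i) (ω.1 i)) = w (i + 1))
  | 0 => by simp [Z, eq_comm]
  | k + 1 => by
    have ih := cylZ w ω k
    constructor
    · intro h
      have h1 := ih.1 fun i hi => h i (by omega)
      refine ⟨h1.1, fun i hi => ?_⟩
      rw [← h (i + 1) (by omega), Z, h i (by omega)]
    · intro h i hi
      have h1 := ih.2 ⟨h.1, fun i hi => h.2 i (by omega)⟩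
      rcases Nat.lt_or_ge i (k + 1) with hi' | hi'
      · exact h1 i (by omega)
      · have : i = k + 1 := by omega
        rw [this, Z, h1 k le_rfl, h.2 k (by omega)]

theorem coins_pi (p : I) (S : Finset ℕ) (A : ℕ → Set Bool) :
    (coins p).real (Set.pi S A) = ∏ i ∈ S, (coin p).real (A i) := by
  rw [measureReal_def, coins, Measure.infinitePi_pi _ (fun _ _ => MeasurableSet.of_discrete),
    ENNReal.toReal_prod]
  rfl

theorem real_prod (p q : I) (A E : Set (ℕ → Bool)) :
    ((coins p).prod (coins q)).real (A ×ˢ E) = (coins p).real A * (coins q).real E := by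
  rw [measureReal_def, Measure.prod_prod, ENNReal.toReal_mul]
  rfl

theorem fddZ (p q : I) (k : ℕ) (w : ℕ → Fin n) :
    ((coins p).prod (coins q)).real {ω | ∀ i ≤ k, Z u f g x i ω = w i}
      = (if w 0 = x then 1 else 0) * ∏ i ∈ range k, R u f g p q (w i) (w (i + 1)) := by
  simp only [cylZ]
  split_ifs with h
  · have : {ω : (ℕ → Bool) × (ℕ → Bool) | w 0 = x ∧ ∀ i < k,
        (if u (w i) then g (w i) (ω.2 i) else f (w i) (ω.1 i)) = w (i + 1)}
        = (Set.pi (range k : Finset ℕ) fun i => {ξ | ¬ u (w i) → f (w i) ξ = w (i + 1)}) ×ˢ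
          (Set.pi (range k : Finset ℕ) fun i => {η | u (w i) → g (w i) η = w (i + 1)}) := by
      ext ω
      simp only [h, true_and, Set.mem_ofPred_eq, Set.mem_prod, Set.mem_pi, coe_range, Set.mem_Iio]
      constructor
      · intro k1
        exact ⟨fun i hi c => by simpa [c] using k1 i hi, fun i hi c => by simpa [c] using k1 i hi⟩
      · rintro ⟨k1, k2⟩ i hi
        split_ifs with c
        exacts [k2 i hi c, k1 i hi c]
    rw [this, one_mul, real_prod, coins_pi, coins_pi, ← prod_mul_distrib]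
    refine prod_congr rfl fun i _ => ?_
    by_cases c : u (w i) <;>
      simp only [R, c, not_true_eq_false, not_false_eq_true, false_imp_iff, true_imp_iff, if_true,
        if_false, Set.ofPred_true, probReal_univ, one_mul, mul_one]
  · simp [h]

theorem att (y : Fin n) (p q : I) (t l : ℕ) (A E : Set (ℕ → Bool))
    (h : ∀ ω ∈ A ×ˢ E, (∀ s < t, Z u f g x s ω ≠ y) ∧ ∃ s ≤ t + l, Z u f g x s ω = y) :
    ∃ r, Att n t l r ∧ (coins p).real A * (coins q).real E ≤ r := by
  refine ⟨_, ⟨R u f g p q, x, y, _, inferInstance, (coins p).prod (coins q), Z u f g x,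
    fun a b => ?_, fun a => ?_, inferInstance, measurable_Z u f g x, fddZ u f g x p q, rfl⟩, ?_⟩
  · unfold R; split_ifs <;> exact measureReal_nonneg
  · by_cases c : u a <;> simp only [R, c, if_true, if_false] <;> exact coin_sum _ _
  · rw [← real_prod]
    refine measureReal_mono fun ω hω => ?_
    obtain ⟨h1, s, h2, h3⟩ := h ω hω
    constructor
    · by_contra hlt
      rw [not_le] at hlt
      obtain ⟨j, hj, hj'⟩ := (hittingAfter_lt_iff (i := t)).1 hlt
      exact h1 j hj.2 hj'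
    · exact (hittingAfter_le_of_mem (Nat.zero_le s) h3).trans (WithTop.coe_le_coe.2 h2)

end chain

theorem coin_false (q : I) : (coin q).real {false} = 1 - q :=
  bernoulliMeasure_real_apply_of_notMem_of_mem q MeasurableSet.of_discrete (by simp) (by simp)

theorem coin_true (q : I) : (coin q).real {true} = q :=
  bernoulliMeasure_real_apply_of_mem_of_notMem q MeasurableSet.of_discrete (by simp) (by simp)

/-- The cycle on `N` states with an exit at its last state. -/
def cyc (N : ℕ) (a : Fin (N + 1)) (b : Bool) : Fin (N + 1) :=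
  ⟨min (if a.val + 1 < N then a.val + 1 else if a.val + 1 = N ∧ b = false then 0 else N) N,
    Nat.lt_succ_of_le (min_le_right _ _)⟩

theorem cycle_lower (N j l : ℕ) (hN : 0 < N) :
    ∃ r, Att (N + 1) (j + 1) l r ∧ 1 / (4 * ((j / N : ℕ) + 1 : ℝ)) ≤ r := by
  obtain ⟨c, hc⟩ : ∃ c, c = j / N := ⟨_, rfl⟩
  have hm := Nat.mod_lt j hN
  have hj := Nat.mod_add_div j N
  rw [← hc] at hj ⊢
  obtain ⟨x, hx⟩ : ∃ x, x = N - 1 - j % N := ⟨_, rfl⟩
  have e : x + j = (N - 1) + N * c := by omega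
  have e1 : (x + j) % N = N - 1 := by
    rw [e, Nat.add_mul_mod_self_left, Nat.mod_eq_of_lt (by omega)]
  have e2 : (x + j) / N = c := by
    rw [e, Nat.add_mul_div_left _ _ hN, Nat.div_eq_of_lt (by omega), zero_add]
  have c0 : (0 : ℝ) ≤ c := Nat.cast_nonneg c
  let q : I := ⟨1 / (2 * (c + 1)), by positivity, by
    rw [div_le_one (by positivity)]; linarith⟩
  have hq : (q : ℝ) = 1 / (2 * (c + 1)) := rfl
  let A : ℕ → Set Bool := fun i =>
    if i = j then {true} else if (x + i) % N + 1 = N then {false} else Set.univ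
  obtain ⟨r, h1, h2⟩ := att (fun _ => True) (cyc N) (cyc N) (⟨x, by omega⟩ : Fin (N + 1))
    (Fin.last N) q q (j + 1) l Set.univ (Set.pi (range (j + 1) : Finset ℕ) A) (by
      rintro ω ⟨-, hω⟩
      simp only [Set.mem_pi, coe_range, Set.mem_Iio] at hω
      have key : ∀ s ≤ j, (Z (fun _ => True) (cyc N) (cyc N) (⟨x, by omega⟩ : Fin (N + 1))
          s ω).val = (x + s) % N := by
        intro s
        induction s with
        | zero => intro _; simp only [Z, add_zero]; rw [Nat.mod_eq_of_lt (by omega)]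
        | succ s ih =>
          intro hs
          have k1 := ih (by omega)
          have k2 := hω s (by omega)
          have k3 := Nat.mod_lt (x + s) hN
          simp only [Z, if_true, cyc, k1]
          rw [← add_assoc, ← Nat.mod_add_mod (x + s) N 1]
          by_cases w : (x + s) % N + 1 = N
          · have : ω.2 s = false := by simpa [A, w, show s ≠ j by omega] using k2
            rw [if_neg (by omega), if_pos ⟨w, this⟩, w, Nat.mod_self]; omega
          · rw [if_pos (by omega), Nat.mod_eq_of_lt (a := (x + s) % N + 1) (by omega)]; omega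
      refine ⟨fun s hs k => ?_, j + 1, by omega, ?_⟩
      · have k1 := key s (by omega)
        have k3 := Nat.mod_lt (x + s) hN
        rw [k, Fin.val_last] at k1
        omega
      · have : ω.2 j = true := by simpa [A] using hω j (by omega)
        ext
        simp only [Z, if_true, cyc, key j le_rfl, e1, this, Fin.val_last]
        rw [if_neg (by omega), if_neg (by simp)]; omega)
  refine ⟨r, h1, le_trans ?_ h2⟩
  have q0 : (0 : ℝ) ≤ q := q.2.1
  have q1 : (q : ℝ) ≤ 1 := q.2.2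
  have key : ∀ k ≤ j, 1 - q * (((x + k) / N : ℕ) : ℝ) ≤ ∏ i ∈ range k, (coin q).real (A i) := by
    intro k
    induction k with
    | zero =>
      intro _
      rw [range_zero, prod_empty]
      linarith [mul_nonneg q0 (Nat.cast_nonneg (α := ℝ) ((x + 0) / N))]
    | succ k ih =>
      intro hk
      have k1 := ih (by omega)
      have k0 : 0 ≤ q * (((x + k) / N : ℕ) : ℝ) := mul_nonneg q0 (Nat.cast_nonneg _)
      rw [prod_range_succ]
      by_cases w : (x + k) % N + 1 = N
      · have a1 : (coin q).real (A k) = 1 - q := by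
          simp only [A]; rw [if_neg (by omega), if_pos w, coin_false]
        have a2 : (x + (k + 1)) / N = (x + k) / N + 1 := by
          rw [← add_assoc, Nat.succ_div, if_pos]
          rw [Nat.dvd_iff_mod_eq_zero, ← Nat.mod_add_mod, w, Nat.mod_self]
        rw [a1, a2]
        push_cast
        have := mul_le_mul_of_nonneg_right k1 (sub_nonneg.2 q1)
        nlinarith [mul_nonneg k0 q0]
      · have a1 : (coin q).real (A k) = 1 := by
          simp only [A]; rw [if_neg (by omega), if_neg w, probReal_univ]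
        have a2 : (((x + k) / N : ℕ) : ℝ) ≤ (((x + (k + 1)) / N : ℕ) : ℝ) := by
          exact_mod_cast Nat.div_le_div_right (by omega)
        rw [a1, mul_one]
        linarith [mul_le_mul_of_nonneg_left a2 q0]
  have k1 := key j le_rfl
  have a1 : (coin q).real (A j) = q := by simp only [A, if_true]; rw [coin_true]
  rw [probReal_univ, one_mul, coins_pi, prod_range_succ, a1]
  rw [e2] at k1
  have k2 : (q : ℝ) * c ≤ 1 / 2 := by
    rw [hq, div_mul_eq_mul_div, div_le_div_iff₀ (by positivity) (by norm_num)]; linarith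
  have k3 : 1 / (4 * ((c : ℝ) + 1)) = 1 / 2 * q := by rw [hq]; field_simp; ring
  rw [k3]
  exact mul_le_mul_of_nonneg_right (by linarith) q0

/-- The slow state `k` waits for the second coin. -/
def slow (k : ℕ) (a : Fin (k + 2)) (b : Bool) : Fin (k + 2) :=
  if a.val = k ∧ b = false then a else Fin.last (k + 1)

theorem two_coins (k k' s0 j l : ℕ) (hk : k' ≤ k) (hs : s0 ≤ j) (p : I) {D : ℝ} (hD : 1 ≤ D)
    (hw : ((j - s0 : ℕ) : ℝ) ≤ D)
    (hA : 1 / 2 ≤ (coins p).real {ξ | (∀ i < s0, B i ξ < k') ∧ k' ≤ B j ξ}) :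
    ∃ r, Att (k + 2) (j + 1) l r ∧ min 1 (l / (2 * D)) / 8 ≤ r := by
  let q : I := ⟨1 / (2 * D), by positivity, by rw [div_le_one (by positivity)]; linarith⟩
  have hq : (q : ℝ) = 1 / (2 * D) := rfl
  have q0 : (0 : ℝ) ≤ q := q.2.1
  have q1 : (q : ℝ) ≤ 1 := q.2.2
  let E : ℕ → Set (ℕ → Bool) := fun m => Set.pi (Ico s0 m : Finset ℕ) fun _ => {false}
  have hE : ∀ m, (coins q).real (E m) = (1 - q) ^ (m - s0) := fun m => by
    simp only [E]; rw [coins_pi, prod_const, coin_false, Nat.card_Ico]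
  obtain ⟨r, h1, h2⟩ := att (fun a : Fin (k + 2) => k ≤ a.val) (nxt (k + 1)) (slow k)
    (⟨k - k', by omega⟩ : Fin (k + 2)) (Fin.last (k + 1)) p q (j + 1) l
    {ξ | (∀ i < s0, B i ξ < k') ∧ k' ≤ B j ξ} (E j \ E (j + l + 1)) (by
      rintro ω ⟨⟨a1, a2⟩, b1, b2⟩
      simp only [E, Set.mem_pi, coe_Ico, Set.mem_Ico, Set.mem_singleton_iff, not_forall] at b1 b2
      have key : ∀ s, (∀ i < s, ω.2 i = false ∨ B i ω.1 < k') →
          (Z (fun a : Fin (k + 2) => k ≤ a.val) (nxt (k + 1)) (slow k)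
            (⟨k - k', by omega⟩ : Fin (k + 2)) s ω).val = min (k - k' + B s ω.1) k := by
        intro s
        induction s with
        | zero => intro _; simp [Z, B]
        | succ s ih =>
          intro hs
          have k1 := ih fun i hi => hs i (by omega)
          have k2 := hs s (by omega)
          have k3 : B (s + 1) ω.1 = B s ω.1 + (ω.1 s).toNat := by simp [B, sum_range_succ]
          have k4 : (ω.1 s).toNat ≤ 1 := Bool.toNat_le _
          rw [Z]
          split_ifs with c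
          · rw [slow, if_pos ⟨by omega, k2.resolve_right (by omega)⟩]; omega
          · simp only [nxt]; omega
      have ex : ∃ i, s0 ≤ i ∧ ω.2 i = true := by
        obtain ⟨i, hi, h⟩ := b2
        exact ⟨i, hi.1, by simpa using h⟩
      have f1 := Nat.find_spec ex
      have f2 : Nat.find ex ≤ j + l := by
        obtain ⟨i, hi, h⟩ := b2
        have := Nat.find_min' ex (m := i) ⟨hi.1, by simpa using h⟩
        omega
      have f3 : j ≤ Nat.find ex := by
        by_contra c
        have := b1 _ ⟨f1.1, not_le.1 c⟩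
        rw [f1.2] at this
        exact absurd this (by simp)
      have f4 : ∀ i < Nat.find ex, ω.2 i = false ∨ B i ω.1 < k' := fun i hi => by
        by_cases c : i < s0
        · exact Or.inr (a1 i c)
        · exact Or.inl (by simpa [not_lt.1 c] using Nat.find_min ex hi)
      refine ⟨fun s hs c => ?_, Nat.find ex + 1, by omega, ?_⟩
      · have k1 := key s fun i hi => f4 i (by omega)
        rw [c, Fin.val_last] at k1
        omega
      · have k1 := key _ f4
        have k2 := B_mono ω.1 f3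
        rw [Z, if_pos (by omega), slow, if_neg (by simp [f1.2])])
  refine ⟨r, h1, le_trans ?_ h2⟩
  have d1 : (coins q).real (E j) - (coins q).real (E (j + l + 1))
      ≤ (coins q).real (E j \ E (j + l + 1)) := by
    have := measureReal_union_le (μ := coins q) (E j \ E (j + l + 1)) (E (j + l + 1))
    have := measureReal_mono (μ := coins q) (s₁ := E j)
      (s₂ := E j \ E (j + l + 1) ∪ E (j + l + 1)) (by simp)
    linarith
  rw [hE, hE, show j + l + 1 - s0 = (j - s0) + (l + 1) by omega, pow_add] at d1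
  have d2 : 1 / 2 ≤ (1 - (q : ℝ)) ^ (j - s0) := by
    have b1 := one_add_mul_le_pow (a := -(q : ℝ)) (by linarith) (j - s0)
    have b2 := mul_le_mul_of_nonneg_right hw q0
    have b3 : D * q = 1 / 2 := by rw [hq]; field_simp
    rw [← sub_eq_add_neg] at b1
    linarith
  obtain ⟨v, hv⟩ : ∃ v, v = (1 - (q : ℝ)) ^ (l + 1) := ⟨_, rfl⟩
  obtain ⟨z, hz⟩ : ∃ z : ℝ, z = min 1 (l / (2 * D)) := ⟨_, rfl⟩
  have v0 : 0 ≤ v := by rw [hv]; exact pow_nonneg (by linarith) _
  have z0 : 0 ≤ z := by rw [hz]; exact le_min zero_le_one (by positivity)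
  have z1 : z ≤ 1 := by rw [hz]; exact min_le_left _ _
  have d3 : v * (1 + z) ≤ 1 := by
    have b1 := one_add_mul_le_pow (a := (q : ℝ)) (by linarith) (l + 1)
    have b2 : z ≤ ((l + 1 : ℕ) : ℝ) * q := by
      rw [hz, hq]
      refine (min_le_right _ _).trans ?_
      rw [mul_one_div]; push_cast; gcongr; linarith
    refine (mul_le_mul_of_nonneg_left (show 1 + z ≤ (1 + (q : ℝ)) ^ (l + 1) by linarith) v0).trans ?_
    rw [hv, ← mul_pow]
    exact pow_le_one₀ (mul_nonneg (by linarith) (by linarith)) (by nlinarith)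
  have d4 : z / 2 ≤ 1 - v := by
    by_cases c : v ≤ 1 / 2
    · linarith
    · nlinarith
  rw [← hv] at d1
  rw [← hz]
  have d5 : 1 / 2 * (z / 2) ≤ (1 - (q : ℝ)) ^ (j - s0) * (1 - v) :=
    mul_le_mul d2 d4 (by linarith) (by linarith)
  have d6 : 1 / 2 * (1 / 2 * (z / 2)) ≤ _ :=
    mul_le_mul hA (show 1 / 2 * (z / 2) ≤ (coins q).real (E j \ E (j + l + 1)) by linarith)
      (by linarith) measureReal_nonneg
  linarith

theorem birth_mass (a j : ℕ) (ha : 2 ≤ a) (hj : a ^ 2 + 2 * a ≤ j) :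
    ∃ (p : I) (s0 : ℕ), s0 ≤ j ∧ ((j - s0 : ℕ) : ℝ) ≤ 5 * j / (a + 2) ∧
      1 / 2 ≤ (coins p).real {ξ | (∀ i < s0, B i ξ < a ^ 2) ∧ a ^ 2 ≤ B j ξ} := by
  have har : (2 : ℝ) ≤ a := by exact_mod_cast ha
  have hjr : (a : ℝ) ^ 2 + 2 * a ≤ j := by exact_mod_cast hj
  have j0 : (0 : ℝ) < j := by nlinarith
  let p : I := ⟨(a ^ 2 + 2 * a) / j, by positivity, by rw [div_le_one j0]; exact hjr⟩
  have hp : (p : ℝ) = (a ^ 2 + 2 * a) / j := rfl
  obtain ⟨y, hy⟩ : ∃ y : ℝ, y = j * (a - 2) / (a + 2) := ⟨_, rfl⟩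
  have y0 : 0 ≤ y := by rw [hy]; exact div_nonneg (mul_nonneg j0.le (by linarith)) (by linarith)
  have y1 : (j : ℝ) - y = 4 * j / (a + 2) := by rw [hy]; field_simp; ring
  have y2 : 1 ≤ (j : ℝ) / (a + 2) := by rw [le_div_iff₀ (by linarith)]; nlinarith
  have y3 : y * p = a ^ 2 - 2 * a := by rw [hy, hp]; field_simp
  have f1 := Nat.floor_le y0
  have f2 := Nat.lt_floor_add_one y
  have e4 : 4 * (j : ℝ) / (a + 2) = 4 * (j / (a + 2)) := by ring
  have e5 : 5 * (j : ℝ) / (a + 2) = 5 * (j / (a + 2)) := by ring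
  have hs : ⌊y⌋₊ ≤ j := by
    have : (⌊y⌋₊ : ℝ) ≤ j := by linarith
    exact_mod_cast this
  refine ⟨p, ⌊y⌋₊, hs, by rw [Nat.cast_sub hs]; linarith, ?_⟩
  have c1 := cheb p ⌊y⌋₊ (c := 2 * a) (by linarith)
  have c2 := cheb p j (c := 2 * a) (by linarith)
  have m1 : (⌊y⌋₊ : ℝ) * p ≤ a ^ 2 - 2 * a := by
    rw [← y3]; exact mul_le_mul_of_nonneg_right f1 p.2.1
  have m2 : (j : ℝ) * p = a ^ 2 + 2 * a := by rw [hp]; field_simp
  have hcover : (Set.univ : Set (ℕ → Bool)) ⊆
      {ω | 2 * (a : ℝ) ≤ |(B ⌊y⌋₊ ω : ℝ) - ⌊y⌋₊ * p|} ∪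
      ({ω | 2 * (a : ℝ) ≤ |(B j ω : ℝ) - j * p|} ∪
      {ξ | (∀ i < ⌊y⌋₊, B i ξ < a ^ 2) ∧ a ^ 2 ≤ B j ξ}) := by
    intro ω _
    simp only [Set.mem_union, Set.mem_ofPred_eq]
    by_cases a1 : a ^ 2 ≤ B ⌊y⌋₊ ω
    · left
      have : ((a : ℝ)) ^ 2 ≤ B ⌊y⌋₊ ω := by exact_mod_cast a1
      exact le_trans (by linarith) (le_abs_self _)
    by_cases a2 : B j ω < a ^ 2
    · right; left
      have : (B j ω : ℝ) < ((a : ℝ)) ^ 2 := by exact_mod_cast a2
      exact le_trans (by linarith) (neg_le_abs _)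
    exact Or.inr (Or.inr ⟨fun i hi => (B_mono ω hi.le).trans_lt (not_le.1 a1), not_lt.1 a2⟩)
  have hle := measureReal_mono (μ := coins p) hcover
  rw [probReal_univ] at hle
  have u1 := fun s t => measureReal_union_le (μ := coins p) s t
  have hle2 := hle.trans ((u1 _ _).trans (add_le_add le_rfl (u1 _ _)))
  have e : ((a : ℝ) ^ 2 - 2 * a) / (2 * a) ^ 2 + (j : ℝ) * p / (2 * a) ^ 2 = 1 / 2 := by
    rw [m2]; field_simp; ring
  have := div_le_div_of_nonneg_right m1 (sq_nonneg (2 * (a : ℝ)))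
  linarith

theorem min_scale {x y K : ℝ} (hK : 1 ≤ K) (h : x ≤ K * y) : min 1 x ≤ K * min 1 y := by
  rcases le_total 1 y with c | c
  · rw [min_eq_left c]; linarith [min_le_left 1 x]
  · rw [min_eq_right c]; exact (min_le_right _ _).trans h

theorem lower_one (n t l : ℕ) (hn : 2 ≤ n) (ht : 0 < t) :
    ∃ r, Att n t l r ∧ min 1 ((n : ℝ) / t) / 12 ≤ r := by
  obtain ⟨N, rfl⟩ : ∃ N, n = N + 1 := ⟨n - 1, by omega⟩
  obtain ⟨j, rfl⟩ : ∃ j, t = j + 1 := ⟨t - 1, by omega⟩
  obtain ⟨r, h1, h2⟩ := cycle_lower N j l (by omega)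
  refine ⟨r, h1, le_trans ?_ h2⟩
  have c1 : ((j / N : ℕ) : ℝ) * N ≤ j := by exact_mod_cast Nat.div_mul_le_self j N
  have c0 : (0 : ℝ) ≤ (j / N : ℕ) := Nat.cast_nonneg _
  have hN : (1 : ℝ) ≤ N := by exact_mod_cast (by omega : 1 ≤ N)
  generalize ((j / N : ℕ) : ℝ) = c at c1 c0
  rw [div_le_div_iff₀ (by norm_num) (by positivity)]
  have m1 := min_le_left 1 (((N + 1 : ℕ) : ℝ) / ((j + 1 : ℕ) : ℝ))
  have m2 := mul_le_mul_of_nonneg_left
    (min_le_right 1 (((N + 1 : ℕ) : ℝ) / ((j + 1 : ℕ) : ℝ))) c0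
  have m3 : c * (((N + 1 : ℕ) : ℝ) / ((j + 1 : ℕ) : ℝ)) ≤ 2 := by
    rw [← mul_div_assoc, div_le_iff₀ (by positivity)]
    push_cast
    nlinarith
  linarith

theorem lower_two (n t l : ℕ) (hn : 2 ≤ n) (ht : n < t) :
    ∃ r, Att n t l r ∧ min 1 ((l : ℝ) * √n / t) / 160 ≤ r := by
  obtain ⟨k, rfl⟩ : ∃ k, n = k + 2 := ⟨n - 2, by omega⟩
  obtain ⟨j, rfl⟩ : ∃ j, t = j + 1 := ⟨t - 1, by omega⟩
  have l0 : (0 : ℝ) ≤ l := Nat.cast_nonneg l
  have t1 : (1 : ℝ) ≤ ((j + 1 : ℕ) : ℝ) := by exact_mod_cast (by omega : 1 ≤ j + 1)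
  by_cases hk : k < 9
  · obtain ⟨r, h1, h2⟩ := two_coins k 0 0 j l (by omega) (by omega) 0 t1
      (by exact_mod_cast (by omega : j - 0 ≤ j + 1)) (by simp; norm_num)
    refine ⟨r, h1, le_trans ?_ h2⟩
    have s1 : √((k + 2 : ℕ) : ℝ) ≤ 4 := by
      rw [Real.sqrt_le_left (by norm_num)]
      exact_mod_cast (by omega : k + 2 ≤ 4 ^ 2)
    have := min_scale (K := 20) (x := (l : ℝ) * √((k + 2 : ℕ) : ℝ) / ((j + 1 : ℕ) : ℝ))
      (y := l / (2 * ((j + 1 : ℕ) : ℝ))) (by norm_num) (by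
        calc _ ≤ (l : ℝ) * 10 / ((j + 1 : ℕ) : ℝ) := by gcongr; linarith
          _ = _ := by field_simp; ring)
    linarith
  · have s1 := Nat.sqrt_le' k
    have s2 := Nat.lt_succ_sqrt' k
    have s3 : 3 ≤ Nat.sqrt k := by rw [Nat.le_sqrt']; omega
    obtain ⟨a, ha⟩ : ∃ a, Nat.sqrt k = a + 1 := ⟨Nat.sqrt k - 1, by omega⟩
    rw [ha] at s1 s2 s3
    simp only [Nat.succ_eq_add_one] at s2
    have a2 : 2 ≤ a := by omega
    have a3 : a ^ 2 + 2 * a ≤ j := by nlinarith
    obtain ⟨p, s0, g1, g2, g3⟩ := birth_mass a j a2 a3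
    have har : (2 : ℝ) ≤ a := by exact_mod_cast a2
    have hjr : (a : ℝ) ^ 2 + 2 * a ≤ j := by exact_mod_cast a3
    obtain ⟨r, h1, h2⟩ := two_coins k (a ^ 2) s0 j l (by nlinarith) g1 p
      (D := 5 * ((j + 1 : ℕ) : ℝ) / (a + 2))
      (by rw [le_div_iff₀ (by linarith)]; push_cast; nlinarith)
      (g2.trans (by push_cast; gcongr; linarith)) g3
    refine ⟨r, h1, le_trans ?_ h2⟩
    have s4 : √((k + 2 : ℕ) : ℝ) ≤ 2 * (a + 2) := by
      rw [Real.sqrt_le_left (by linarith)]
      exact_mod_cast (by nlinarith : k + 2 ≤ (2 * (a + 2)) ^ 2)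
    have := min_scale (K := 20) (x := (l : ℝ) * √((k + 2 : ℕ) : ℝ) / ((j + 1 : ℕ) : ℝ))
      (y := l / (2 * (5 * ((j + 1 : ℕ) : ℝ) / (a + 2)))) (by norm_num) (by
        calc _ ≤ (l : ℝ) * (2 * (a + 2)) / ((j + 1 : ℕ) : ℝ) := by gcongr
          _ = _ := by field_simp; ring)
    linarith

/-- The lower bound for all `n ≥ 2`, `t ≥ 1` and `l`. -/
theorem lower (n t l : ℕ) (hn : 2 ≤ n) (ht : 0 < t) :
    ∃ r, Att n t l r ∧ 1 / 320 * min 1 ((n + l * √n) / t : ℝ) ≤ r := by
  have n0 : (0 : ℝ) ≤ (n : ℝ) / t := by positivity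
  have l0 : (0 : ℝ) ≤ (l : ℝ) * √n / t := by positivity
  have m0 : 0 ≤ min 1 ((n : ℝ) / t) := le_min zero_le_one n0
  have m1 : 0 ≤ min 1 ((l : ℝ) * √n / t) := le_min zero_le_one l0
  have hs : min 1 ((n + l * √n) / t : ℝ) ≤ min 1 ((n : ℝ) / t) + min 1 ((l : ℝ) * √n / t) := by
    rw [add_div]
    rcases le_total 1 ((n : ℝ) / t) with c | c
    · rw [min_eq_left c]; linarith [min_le_left 1 ((n : ℝ) / t + l * √n / t)]
    rcases le_total 1 ((l : ℝ) * √n / t) with c' | c'
    · rw [min_eq_left c']; linarith [min_le_left 1 ((n : ℝ) / t + l * √n / t)]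
    · rw [min_eq_right c, min_eq_right c']; exact min_le_right _ _
  by_cases c : min 1 ((l : ℝ) * √n / t) ≤ min 1 ((n : ℝ) / t)
  · obtain ⟨r, h1, h2⟩ := lower_one n t l hn ht
    exact ⟨r, h1, by linarith⟩
  · have h : n < t := by
      by_contra h
      have : (1 : ℝ) ≤ n / t := by
        rw [le_div_iff₀ (by exact_mod_cast ht), one_mul]; exact_mod_cast not_lt.1 h
      rw [min_eq_left this] at c
      exact c (min_le_left _ _)
    obtain ⟨r, h1, h2⟩ := lower_two n t l hn h
    exact ⟨r, h1, by linarith [not_le.1 c]⟩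

end Pool.Agent.Lib.MP_eadfc1_pr.Lo
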