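import Pool.Agent.Lib.MP_eadfc1_pr.UpScales

/-!
The multi-scale sum for an arbitrary base scale `l`: the points are grouped by the scale at which
their truncated Green function first reaches `2`.
-/

namespace Pool.Agent.Lib.MP_eadfc1_pr.Up

open Finset

lemma geo_sum4 {y t : ℕ → ℝ} {M : ℝ} (hy : ∀ j, 0 ≤ y j) (hd : ∀ j, y (j + 1) ≤ y j / 2)
    (ht : ∀ j, 0 ≤ t j) (hM : 0 ≤ M) (h : ∀ j, t j ^ 4 * (1 + y j) ^ 2 ≤ M * y j) (J : ℕ) :
    (∑ j ∈ range J, t j) ^ 4 ≤ 24 ^ 4 * M := by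
  have e : √(√M) ^ 4 = M := by
    rw [show √(√M) ^ 4 = (√(√M) ^ 2) ^ 2 by ring, Real.sq_sqrt (Real.sqrt_nonneg _),
      Real.sq_sqrt hM]
  have h1 := geo_sum hy hd ht (Real.sqrt_nonneg (√M)) (fun j => by rw [e]; exact h j) J
  have h2 := pow_le_pow_left₀ (sum_nonneg fun j _ => ht j) h1 4
  rwa [mul_pow, e] at h2

section grp

variable {S : Type} (U : Finset S) {a y : ℕ → S → ℝ} {W : ℕ → ℝ} {b : ℝ} (i : ℕ)

/-- One group of points, from scale `i` on. -/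
lemma grp (ha0 : ∀ j v, 0 ≤ a j v) (hy0 : ∀ j v, 0 ≤ y j v)
    (hyd : ∀ j v, y (j + 1) v ≤ y j v / 2) (hb : 0 ≤ b) (hay : ∀ j v, a j v ^ 2 ≤ b * y j v)
    (hW0 : ∀ j, 0 ≤ W j) (hW : ∀ j, i ≤ j → W j * (1 + ∑ v ∈ U, y j v) ≤ 1) {D : ℝ} (hD : 0 ≤ D)
    (h : ∀ j, i ≤ j → (W j * ∑ v ∈ U, a j v) ^ 2 ≤ D) (J : ℕ) :
    (∑ j ∈ range J, if i ≤ j then W j * ∑ v ∈ U, a j v else 0) ^ 4
      ≤ 24 ^ 4 * (D * (U.card * b)) := by
  refine geo_sum4 (y := fun j => ∑ v ∈ U, y j v) (fun j => sum_nonneg fun v _ => hy0 j v)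
    (fun j => by rw [sum_div]; exact sum_le_sum fun v _ => hyd j v)
    (fun j => by
      split_ifs
      exacts [mul_nonneg (hW0 j) (sum_nonneg fun v _ => ha0 j v), le_rfl])
    (by positivity) (fun j => ?_) J
  have hY0 : 0 ≤ ∑ v ∈ U, y j v := sum_nonneg fun v _ => hy0 j v
  split_ifs with hc
  · have e2 : (∑ v ∈ U, a j v) ^ 2 ≤ U.card * (b * ∑ v ∈ U, y j v) := by
      refine (sq_sum_le_card_mul_sum_sq).trans (mul_le_mul_of_nonneg_left ?_ (by positivity))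
      rw [mul_sum]; exact sum_le_sum fun v _ => hay j v
    have w0 := hW0 j
    have e5 : (W j * (1 + ∑ v ∈ U, y j v)) ^ 2 ≤ 1 := pow_le_one₀ (by positivity) (hW j hc)
    have e6 := h j hc
    calc (W j * ∑ v ∈ U, a j v) ^ 4 * (1 + ∑ v ∈ U, y j v) ^ 2
        = (W j * (1 + ∑ v ∈ U, y j v)) ^ 2 * ((W j * ∑ v ∈ U, a j v) ^ 2
          * (∑ v ∈ U, a j v) ^ 2) := by ring
      _ ≤ 1 * (D * (U.card * (b * ∑ v ∈ U, y j v))) := by gcongr
      _ = D * (U.card * b) * ∑ v ∈ U, y j v := by ring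
  · have : 0 ≤ D * (U.card * b) * ∑ v ∈ U, y j v := by positivity
    simpa using this

lemma grp1 (ha0 : ∀ j v, 0 ≤ a j v) (hy0 : ∀ j v, 0 ≤ y j v)
    (hyd : ∀ j v, y (j + 1) v ≤ y j v / 2) (hb : 0 ≤ b) (hay : ∀ j v, a j v ^ 2 ≤ b * y j v)
    (hW0 : ∀ j, 0 ≤ W j) (hW : ∀ j, i ≤ j → W j * (1 + ∑ v ∈ U, y j v) ≤ 1) (J : ℕ) :
    (∑ j ∈ range J, if i ≤ j then W j * ∑ v ∈ U, a j v else 0) ^ 4
      ≤ 24 ^ 4 * (U.card * b) ^ 2 := by
  rw [sq]
  refine grp U i ha0 hy0 hyd hb hay hW0 hW (by positivity) (fun j hj => ?_) J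
  have hY0 : 0 ≤ ∑ v ∈ U, y j v := sum_nonneg fun v _ => hy0 j v
  have e2 : (∑ v ∈ U, a j v) ^ 2 ≤ U.card * (b * ∑ v ∈ U, y j v) := by
    refine (sq_sum_le_card_mul_sum_sq).trans (mul_le_mul_of_nonneg_left ?_ (by positivity))
    rw [mul_sum]; exact sum_le_sum fun v _ => hay j v
  have w0 := hW0 j
  have e1 := hW j hj
  have e3 : 0 ≤ W j * ∑ v ∈ U, y j v := by positivity
  have e7 : W j * (W j * ∑ v ∈ U, y j v) ≤ 1 :=
    mul_le_one₀ (by linarith) e3 (by linarith)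
  calc (W j * ∑ v ∈ U, a j v) ^ 2 = W j ^ 2 * (∑ v ∈ U, a j v) ^ 2 := by ring
    _ ≤ W j ^ 2 * (U.card * (b * ∑ v ∈ U, y j v)) := by gcongr
    _ = (W j * (W j * ∑ v ∈ U, y j v)) * (U.card * b) := by ring
    _ ≤ 1 * (U.card * b) := by gcongr
    _ = _ := one_mul _

end grp

lemma cross {g : ℕ → ℝ} (h0 : g 0 < 2) {j : ℕ} (hj : 2 ≤ g j) :
    ∃ i, i < j ∧ g i < 2 ∧ 2 ≤ g (i + 1) := by
  induction j with
  | zero => exact absurd hj (not_le.2 h0)
  | succ j ih =>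
    by_cases h : 2 ≤ g j
    · obtain ⟨i, h1, h2⟩ := ih h
      exact ⟨i, by omega, h2⟩
    · exact ⟨j, by omega, not_le.1 h, hj⟩

lemma cross_once {g : ℕ → ℝ} (hm : ∀ j, g j ≤ g (j + 1)) (J : ℕ) :
    ∑ i ∈ range J, (if g i < 2 ∧ 2 ≤ g (i + 1) then (1 : ℝ) else 0) ≤ 1 := by
  have h1 : ∀ i ∈ range J, (if g i < 2 ∧ 2 ≤ g (i + 1) then (1 : ℝ) else 0)
      ≤ (if 2 ≤ g (i + 1) then 1 else 0) - (if 2 ≤ g i then 1 else 0) := by
    intro i _
    have := hm i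
    by_cases c1 : 2 ≤ g i
    · rw [if_neg (fun h => absurd h.1 (not_lt.2 c1)), if_pos c1, if_pos (c1.trans this)]; simp
    · by_cases c2 : 2 ≤ g (i + 1)
      · rw [if_pos ⟨not_le.1 c1, c2⟩, if_pos c2, if_neg c1]; simp
      · rw [if_neg (fun h => c2 h.2), if_neg c2, if_neg c1]; simp
  refine (sum_le_sum h1).trans ?_
  rw [sum_range_sub (fun i => if 2 ≤ g i then (1 : ℝ) else 0)]
  split_ifs <;> simp

/-- Summation over the groups. -/
lemma groups {n l : ℝ} (hn : 1 ≤ n) (hl : 1 ≤ l) {b : ℝ} (hb : 1 ≤ b) {c T : ℕ → ℝ}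
    (hc0 : ∀ i, 0 ≤ c i) (hc : ∀ i, c i ≤ n) (hT0 : ∀ i, 0 ≤ T i)
    (h1 : ∀ i, T i ^ 4 ≤ 24 ^ 4 * (c i * b) ^ 2)
    (h2 : ∀ i, T i ^ 4 ≤ 24 ^ 4 * ((c i * (4 / (2 ^ i * l))) ^ 2 * (c i * b))) (J : ℕ)
    (hs : ∑ i ∈ range J, c i ≤ n) :
    ∑ i ∈ range J, T i ≤ 24 * b * (n / l) + 24 * (72 * b * √n) := by
  have hsq2 : √n ^ 2 = n := Real.sq_sqrt (by linarith)
  have hb4 : b ^ 1 ≤ b ^ 4 := pow_le_pow_right₀ hb (by norm_num)
  have hb2 : b ^ 2 ≤ b ^ 4 := pow_le_pow_right₀ hb (by norm_num)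
  have hh : ∀ i : ℕ, l ≤ 2 ^ i * l := fun i =>
    le_mul_of_one_le_left (by linarith) (one_le_pow₀ (by norm_num))
  have split : ∀ i ∈ range J, T i ≤ 24 * b * (c i / l)
      + (if c i < (2 ^ i * l) ^ 2 then T i else 0) := by
    intro i _
    have p0 : 0 ≤ 24 * b * (c i / l) := by have := hc0 i; positivity
    split_ifs with hi
    · linarith
    · rw [add_zero]
      refine le_of_pow_le_pow_left₀ (n := 4) (by norm_num) p0 ((h1 i).trans ?_)
      have q1 : l ^ 2 ≤ c i :=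
        (pow_le_pow_left₀ (by linarith) (hh i) 2).trans (not_lt.1 hi)
      have q2 : c i ≤ (c i / l) ^ 2 := by
        rw [div_pow, le_div_iff₀ (by positivity), sq (c i)]
        exact mul_le_mul_of_nonneg_left q1 (hc0 i)
      have q3 := pow_le_pow_left₀ (hc0 i) q2 2
      calc 24 ^ 4 * (c i * b) ^ 2 = 24 ^ 4 * (c i ^ 2 * b ^ 2) := by ring
        _ ≤ 24 ^ 4 * (((c i / l) ^ 2) ^ 2 * b ^ 4) := by gcongr
        _ = _ := by ring
  refine (sum_le_sum split).trans ?_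
  rw [sum_add_distrib, ← mul_sum, ← sum_div]
  refine add_le_add (by gcongr) ?_
  refine geo_sum (y := fun i => n / (2 ^ i * l) ^ 2) (fun i => by positivity) (fun i => ?_)
    (fun i => by split_ifs; exacts [hT0 i, le_rfl]) (by positivity) (fun i => ?_) J
  · rw [div_div]
    refine div_le_div_of_nonneg_left (by linarith) (by positivity) ?_
    have : (0 : ℝ) ≤ (2 ^ i * l) ^ 2 := by positivity
    rw [show (2 ^ (i + 1) * l) ^ 2 = (2 ^ i * l) ^ 2 * 4 by ring]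
    linarith
  · obtain ⟨h, hhe⟩ : ∃ h : ℝ, h = 2 ^ i * l := ⟨_, rfl⟩
    have h0 : 0 < h := by rw [hhe]; positivity
    have k2 := h2 i
    rw [← hhe] at k2 ⊢
    have y0 : 0 ≤ n / h ^ 2 := by positivity
    have eK : (72 * b * √n) ^ 4 = 24 ^ 4 * 81 * b ^ 4 * n ^ 2 := by
      rw [show (72 * b * √n) ^ 4 = 24 ^ 4 * 81 * b ^ 4 * (√n ^ 2) ^ 2 by ring, hsq2]
    rw [eK]
    split_ifs with hi
    · have c0 := hc0 i
      have k3 : T i ^ 4 ≤ 24 ^ 4 * 16 * b ^ 4 * (c i ^ 3 / h ^ 2) :=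
        calc T i ^ 4 ≤ _ := k2
          _ = 24 ^ 4 * 16 * b ^ 1 * (c i ^ 3 / h ^ 2) := by field_simp; ring
          _ ≤ _ := by gcongr
      have k4 : c i ^ 3 / h ^ 2 * (1 + n / h ^ 2) ^ 2 ≤ 4 * n ^ 2 * (n / h ^ 2) := by
        by_cases hy : n / h ^ 2 ≤ 1
        · have q1 : c i ^ 3 / h ^ 2 ≤ n ^ 2 * (n / h ^ 2) := by
            rw [← mul_div_assoc, ← pow_succ]
            have := hc i
            gcongr
          have q2 : (1 + n / h ^ 2) ^ 2 ≤ 2 ^ 2 := pow_le_pow_left₀ (by positivity) (by linarith) 2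
          calc _ ≤ n ^ 2 * (n / h ^ 2) * 2 ^ 2 := by gcongr
            _ = _ := by ring
        · have q1 : c i ^ 3 / h ^ 2 ≤ h ^ 4 := by
            rw [div_le_iff₀ (by positivity), show h ^ 4 * h ^ 2 = (h ^ 2) ^ 3 by ring]
            exact pow_le_pow_left₀ c0 hi.le 3
          have q2 : (1 + n / h ^ 2) ^ 2 ≤ (2 * (n / h ^ 2)) ^ 2 :=
            pow_le_pow_left₀ (by positivity) (by linarith [not_le.1 hy]) 2
          calc _ ≤ h ^ 4 * (2 * (n / h ^ 2)) ^ 2 := by gcongr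
            _ = 4 * n ^ 2 * 1 := by field_simp; ring
            _ ≤ _ := by gcongr; exact (not_le.1 hy).le
      calc T i ^ 4 * (1 + n / h ^ 2) ^ 2
          ≤ 24 ^ 4 * 16 * b ^ 4 * (c i ^ 3 / h ^ 2) * (1 + n / h ^ 2) ^ 2 := by gcongr
        _ = 24 ^ 4 * 16 * b ^ 4 * (c i ^ 3 / h ^ 2 * (1 + n / h ^ 2) ^ 2) := by ring
        _ ≤ 24 ^ 4 * 16 * b ^ 4 * (4 * n ^ 2 * (n / h ^ 2)) := by gcongr
        _ = 24 ^ 4 * 64 * b ^ 4 * n ^ 2 * (n / h ^ 2) := by ring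
        _ ≤ _ := by gcongr; norm_num
    · have : 0 ≤ 24 ^ 4 * 81 * b ^ 4 * n ^ 2 * (n / h ^ 2) := by positivity
      simpa using this

lemma pathwise' {S : Type} [Fintype S] [DecidableEq S] {n : ℕ} (hn : Fintype.card S = n)
    (hn1 : 1 ≤ n) {l : ℝ} (hl : 1 ≤ l) {G : ℕ → S → ℝ} (hG1 : ∀ j v, 1 ≤ G j v)
    (hGm : ∀ j v, G j v ≤ G (j + 1) v)
    (hGd : ∀ j v, G (j + 1) v ≤ 2 * G j v) {N : S → ℝ} (hN : ∀ v, 0 ≤ N v) {β : ℝ} (hβ0 : 0 < β)
    (hβ1 : β ≤ 1) {W : ℕ → ℝ} (hW0 : ∀ j, 0 ≤ W j)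
    (hW : ∀ j, W j * (1 + ∑ v, N v * (β * (G j v - 1) / (2 ^ j * l) ^ 2)) ≤ 1)
    {s : ℕ → S → ℝ} (hs0 : ∀ j v, 0 ≤ s j v) (hs1 : ∀ j v, s j v ≤ 2 * G j v)
    (hs2 : ∀ j v, s j v ≤ N v) (J : ℕ) :
    ∑ j ∈ range J, ∑ v, W j * s j v / (2 ^ j * l) ≤ 8000 / β * (n / l + √n) := by
  have hnr : (1 : ℝ) ≤ n := by exact_mod_cast hn1
  have hsq2 : √(n : ℝ) ^ 2 = n := Real.sq_sqrt (by positivity)
  have hG0 : ∀ v, Monotone fun j => G j v := fun v => monotone_nat_of_le_succ fun j => hGm j v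
  have hG2 : ∀ i k v, G (i + k) v ≤ 2 ^ k * G i v := fun i k v => by
    induction k with
    | zero => simp
    | succ k ih => rw [pow_succ, ← add_assoc]; linarith [hGd (i + k) v]
  have hterm : ∀ j v, 0 ≤ N v * (β * (G j v - 1) / (2 ^ j * l) ^ 2) := fun j v =>
    mul_nonneg (hN v) (div_nonneg (mul_nonneg hβ0.le (sub_nonneg.2 (hG1 j v))) (by positivity))
  have hW1 : ∀ j, W j ≤ 1 := fun j => by
    have := mul_nonneg (hW0 j) (sum_nonneg fun v (_ : v ∈ univ) => hterm j v)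
    linarith [hW j]
  set y : ℕ → S → ℝ := fun j v => β / 2 * (N v * G j v / (2 ^ j * l) ^ 2) with hy
  have hy0 : ∀ j v, 0 ≤ y j v := fun j v => by
    have := hN v; have := hG1 j v
    rw [hy]; positivity
  have hyd : ∀ j v, y (j + 1) v ≤ y j v / 2 := fun j v => by
    have e1 : y j v / 2 = β / 2 * (N v * (2 * G j v) / (2 ^ (j + 1) * l) ^ 2) := by
      rw [hy]; simp only; field_simp; ring
    rw [e1, hy]
    have := hN v
    have := hGd j v
    simp only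
    gcongr
  have hy1 : ∀ j v, 2 ≤ G j v → y j v ≤ N v * (β * (G j v - 1) / (2 ^ j * l) ^ 2) := by
    intro j v h2
    have e1 : y j v = N v * (β * (G j v / 2) / (2 ^ j * l) ^ 2) := by
      rw [hy]; simp only; ring
    rw [e1]
    have := hN v
    gcongr
    linarith
  set a : ℕ → S → ℝ := fun j v => s j v / (2 ^ j * l) with ha
  have ha0 : ∀ j v, 0 ≤ a j v := fun j v => div_nonneg (hs0 j v) (by positivity)
  have hay : ∀ j v, a j v ^ 2 ≤ 4 / β * y j v := fun j v => by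
    have e1 : 4 / β * y j v = (2 * G j v * N v) / (2 ^ j * l) ^ 2 := by
      rw [hy]; simp only; field_simp; ring
    rw [e1, ha, div_pow]
    refine div_le_div_of_nonneg_right ?_ (by positivity)
    rw [sq]
    exact mul_le_mul (hs1 j v) (hs2 j v) (hs0 j v) (by linarith [hG1 j v])
  have hb : 1 ≤ 4 / β := by rw [le_div_iff₀ hβ0]; linarith
  have hWU : ∀ (U : Finset S) (i : ℕ), (∀ v ∈ U, 2 ≤ G i v) → ∀ j, i ≤ j →
      W j * (1 + ∑ v ∈ U, y j v) ≤ 1 := by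
    intro U i hU j hj
    refine le_trans (mul_le_mul_of_nonneg_left ?_ (hW0 j)) (hW j)
    have : ∑ v ∈ U, y j v ≤ ∑ v ∈ U, N v * (β * (G j v - 1) / (2 ^ j * l) ^ 2) :=
      sum_le_sum fun v hv => hy1 j v ((hU v hv).trans (hG0 v hj))
    have := sum_le_sum_of_subset_of_nonneg (subset_univ U) fun v _ _ => hterm j v
    linarith
  have ht0 : ∀ j v, 0 ≤ W j * a j v := fun j v => mul_nonneg (hW0 j) (ha0 j v)
  set U : ℕ → Finset S := fun i => univ.filter fun v => G i v < 2 ∧ 2 ≤ G (i + 1) v with hU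
  set U0 : Finset S := univ.filter fun v => 2 ≤ G 0 v with hU0
  have split : ∀ j ∈ range J, ∀ v, W j * s j v / (2 ^ j * l) ≤ 4 / (2 ^ j * l)
      + (if v ∈ U0 then W j * a j v else 0)
      + ∑ i ∈ range J, (if v ∈ U i then if i + 1 ≤ j then W j * a j v else 0 else 0) := by
    intro j hj v
    have p4 : (0 : ℝ) ≤ 4 / (2 ^ j * l) := by positivity
    have t0 := ht0 j v
    have p5 : ∀ i ∈ range J,
        0 ≤ (if v ∈ U i then if i + 1 ≤ j then W j * a j v else 0 else 0) := fun i _ => by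
      split_ifs <;> first | exact t0 | exact le_rfl
    have p6 := sum_nonneg p5
    have p7 : 0 ≤ (if v ∈ U0 then W j * a j v else 0) := by
      split_ifs <;> first | exact t0 | exact le_rfl
    rw [mul_div_assoc]
    change W j * a j v ≤ _
    by_cases c2 : 2 ≤ G j v
    · by_cases c1 : 2 ≤ G 0 v
      · rw [if_pos (by simp [hU0, c1])]; linarith
      · obtain ⟨i, i1, i2⟩ := cross (g := fun j => G j v) (not_le.1 c1) c2
        have := single_le_sum p5 (mem_range.2 (i1.trans (mem_range.1 hj)))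
        rw [if_pos (by simpa [hU] using i2), if_pos (by omega)] at this
        linarith
    · have : W j * a j v ≤ 4 / (2 ^ j * l) := by
        refine (mul_le_of_le_one_left (ha0 j v) (hW1 j)).trans ?_
        refine div_le_div_of_nonneg_right ?_ (by positivity)
        linarith [hs1 j v]
      linarith
  have pA : ∑ j ∈ range J, ∑ _v : S, (4 : ℝ) / (2 ^ j * l) ≤ 8 * (n / l) := by
    have : ∀ j ∈ range J, ∑ _v : S, (4 : ℝ) / (2 ^ j * l) = 4 * (n / l) * (1 / 2) ^ j :=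
      fun j _ => by
        rw [sum_const, card_univ, hn, nsmul_eq_mul, one_div, inv_pow]; field_simp
    rw [sum_congr rfl this, ← mul_sum]
    have := mul_le_mul_of_nonneg_left (sum_geometric_two_le J)
      (show (0 : ℝ) ≤ 4 * (n / l) by positivity)
    linarith
  have hcard : ∀ V : Finset S, (V.card : ℝ) ≤ n := fun V => by
    rw [← hn]; exact_mod_cast card_le_univ V
  have pB : ∑ j ∈ range J, ∑ v, (if v ∈ U0 then W j * a j v else 0)
      ≤ 24 * (4 / β) * √n := by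
    have k := grp1 U0 0 ha0 hy0 hyd (by positivity) hay hW0
      (hWU U0 0 fun v hv => (mem_filter.1 hv).2) J
    simp only [Nat.zero_le, if_true] at k
    simp only [sum_ite_mem, univ_inter, ← mul_sum]
    refine le_of_pow_le_pow_left₀ (n := 4) (by norm_num) (by positivity) (k.trans ?_)
    have := hcard U0
    have hb2 : (4 / β) ^ 2 ≤ (4 / β) ^ 4 := pow_le_pow_right₀ hb (by norm_num)
    calc 24 ^ 4 * (U0.card * (4 / β)) ^ 2 = 24 ^ 4 * ((U0.card : ℝ) ^ 2 * (4 / β) ^ 2) := by ring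
      _ ≤ 24 ^ 4 * ((n : ℝ) ^ 2 * (4 / β) ^ 4) := by gcongr
      _ = 24 ^ 4 * ((√(n : ℝ) ^ 2) ^ 2 * (4 / β) ^ 4) := by rw [hsq2]
      _ = _ := by ring
  have pC : ∑ j ∈ range J, ∑ v, ∑ i ∈ range J,
      (if v ∈ U i then if i + 1 ≤ j then W j * a j v else 0 else 0)
      ≤ 24 * (4 / β) * (n / l) + 24 * (72 * (4 / β) * √n) := by
    have e : ∀ j ∈ range J, ∑ v, ∑ i ∈ range J,
        (if v ∈ U i then if i + 1 ≤ j then W j * a j v else 0 else 0)
        = ∑ i ∈ range J, if i + 1 ≤ j then W j * ∑ v ∈ U i, a j v else 0 := by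
      intro j _
      rw [sum_comm]
      refine sum_congr rfl fun i _ => ?_
      rw [sum_ite_mem, univ_inter]
      split_ifs
      · rw [mul_sum]
      · simp
    rw [sum_congr rfl e, sum_comm]
    have hUi : ∀ i, ∀ v ∈ U i, 2 ≤ G (i + 1) v := fun i v hv => (mem_filter.1 hv).2.2
    refine groups hnr hl hb (c := fun i => (U i).card) (fun i => by positivity)
      (fun i => hcard _) (fun i => sum_nonneg fun j _ => ?_)
      (fun i => grp1 (U i) (i + 1) ha0 hy0 hyd (by positivity) hay hW0 (hWU _ _ (hUi i)) J)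
      (fun i => grp (U i) (i + 1) ha0 hy0 hyd (by positivity) hay hW0 (hWU _ _ (hUi i))
        (by positivity) (fun j hj => ?_) J) J ?_
    · split_ifs
      exacts [mul_nonneg (hW0 j) (sum_nonneg fun v _ => ha0 j v), le_rfl]
    · have s0 : 0 ≤ ∑ v ∈ U i, a j v := sum_nonneg fun v _ => ha0 j v
      refine pow_le_pow_left₀ (mul_nonneg (hW0 j) s0)
        ((mul_le_of_le_one_left s0 (hW1 j)).trans ?_) 2
      rw [← nsmul_eq_mul]
      refine sum_le_card_nsmul _ _ _ fun v hv => ?_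
      obtain ⟨k, rfl⟩ : ∃ k, j = i + k := ⟨j - i, by omega⟩
      have g1 := hG2 i k v
      have g2 := mul_le_mul_of_nonneg_left (mem_filter.1 hv).2.1.le
        (show (0 : ℝ) ≤ 2 ^ k by positivity)
      have g3 : s (i + k) v ≤ 4 * 2 ^ k := by linarith [hs1 (i + k) v]
      calc a (i + k) v ≤ 4 * 2 ^ k / (2 ^ (i + k) * l) :=
            div_le_div_of_nonneg_right g3 (by positivity)
        _ = 4 / (2 ^ i * l) := by rw [pow_add]; field_simp
    · have e2 : ∀ i ∈ range J, ((U i).card : ℝ)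
          = ∑ v, if G i v < 2 ∧ 2 ≤ G (i + 1) v then (1 : ℝ) else 0 := fun i _ => by
        rw [sum_boole]
      rw [sum_congr rfl e2, sum_comm]
      refine (sum_le_card_nsmul _ _ 1 fun v _ => cross_once (fun j => hGm j v) J).trans ?_
      rw [card_univ, hn, nsmul_eq_mul, mul_one]
  have tot := sum_le_sum fun j (hj : j ∈ range J) =>
    sum_le_sum fun v (_ : v ∈ univ) => split j hj v
  simp only [sum_add_distrib] at tot
  have f1 : 0 ≤ (4 / β - 1) * (n / l) := mul_nonneg (by linarith) (by positivity)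
  have f2 : 0 ≤ 4 / β * √(n : ℝ) := by positivity
  have f3 : 8000 / β * (n / l + √(n : ℝ)) = 2000 * (4 / β * (n / l)) + 2000 * (4 / β * √n) := by
    ring
  have f4 : 0 ≤ (n : ℝ) / l := by positivity
  nlinarith

end Pool.Agent.Lib.MP_eadfc1_pr.Up
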