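import Pool.Agent.Lib.MP_eadfc1_pr.UpMain
import Pool.Agent.Lib.MP_eadfc1_pr.AwScales

/-!
The window bound for windows of every length.
-/

namespace Pool.Agent.Lib.MP_eadfc1_pr.Up

open Finset Matrix MeasureTheory

variable {S : Type} [Fintype S] [DecidableEq S]

lemma total' {Q : Matrix S S ℝ} {γ : ℝ} (hQ : Sub Q γ) {e : S → ℝ} (he : ∀ c, 0 ≤ e c)
    (hr : ∀ a, ∑ b, Q a b + e a ≤ 1) {n : ℕ} (hn : Fintype.card S = n) (hn1 : 1 ≤ n) {l : ℕ} (hl : 1 ≤ l)
    (x : S)
    (J : ℕ) : ∑ j ∈ range J, ∑ v, dw Q e x (2 ^ j * l) v / (lam Q (2 ^ j * l) v * (2 ^ j * l))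
      ≤ 8000 / bt * (n / l + √n) := by
  have hh : ∀ j, 1 ≤ 2 ^ j * l := fun j => Nat.mul_pos (by positivity) hl
  have hb0 : 0 < bt := by rw [bt]; norm_num
  have s1 := hasSum_sum (s := range J) fun j _ => hasSum_sum (s := univ) fun v _ =>
    (dw_hasSum hQ e x (hh j) v).div_const (lam Q (2 ^ j * l) v * (2 ^ j * l))
  refine le_of_tendsto' s1.tendsto_sum_nat fun M => ?_
  have s2 := exit_le_one hQ.nonneg hr M x
  refine le_trans ?_ (mul_le_of_le_one_left (by positivity) s2)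
  rw [sum_mul]
  refine sum_le_sum fun m _ => ?_
  rw [← mv_apply, ← path_sum, sum_mul]
  simp only [sum_div]
  rw [sum_congr rfl fun j _ => sum_comm, sum_comm]
  refine sum_le_sum fun p _ => ?_
  simp only [mul_div_assoc (if p 0 = x then pw Q e m p else 0), ← mul_sum]
  refine mul_le_mul_of_nonneg_left ?_ (by
    split_ifs
    · exact pw_nn hQ.nonneg he m p
    · exact le_rfl)
  have key := pathwise' hn hn1 (l := l) (by exact_mod_cast hl) (G := fun j v => Gt Q (2 ^ j * l) v)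
    (fun j v => one_le_Gt hQ.nonneg _ _)
    (fun j v => Gt_mono hQ.nonneg (by rw [pow_succ]; nlinarith [hh j]) v)
    (fun j v => by
      rw [show 2 ^ (j + 1) * l = 2 * (2 ^ j * l) by ring]; exact Gt_double hQ _ v)
    (N := fun v => ((univ.filter fun i => p i = v).card : ℝ)) (fun v => Nat.cast_nonneg _)
    hb0 (by rw [bt]; norm_num) (W := fun j => ∏ i, (1 - kap Q (2 ^ j * l) (p i)))
    (fun j => prod_nonneg fun i _ => sub_nonneg.2 (kap_le hQ (hh j) _))
    (fun j => by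
      have e1 := prod_kill univ (κ := fun i => kap Q (2 ^ j * l) (p i))
        (fun i => kap_nn hQ.nonneg _ _) fun i => kap_le hQ (hh j) _
      rw [← sum_fiberwise' univ p (fun u => kap Q (2 ^ j * l) u)] at e1
      simp only [sum_const, nsmul_eq_mul] at e1
      simpa only [kap, Nat.cast_mul, Nat.cast_pow, Nat.cast_ofNat] using e1)
    (s := fun j v => (1 - (1 - lam Q (2 ^ j * l) v) ^ (univ.filter fun i => p i = v).card)
      / lam Q (2 ^ j * l) v)
    (fun j v => div_nonneg (sub_nonneg.2 (pow_le_one₀ (by linarith [lam_le hQ.nonneg (2 ^ j * l) v])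
      (by linarith [lam_pos hQ.nonneg (2 ^ j * l) v]))) (lam_pos hQ.nonneg _ _).le)
    (fun j v => by
      rw [div_le_iff₀ (lam_pos hQ.nonneg _ _)]
      have : 0 ≤ (1 - lam Q (2 ^ j * l) v) ^ (univ.filter fun i => p i = v).card :=
        pow_nonneg (by linarith [lam_le hQ.nonneg (2 ^ j * l) v]) _
      linarith [lam_mul hQ.nonneg (2 ^ j * l) v])
    (fun j v => by
      rw [div_le_iff₀ (lam_pos hQ.nonneg _ _)]
      have := one_add_mul_le_pow (a := -lam Q (2 ^ j * l) v)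
        (by linarith [lam_le hQ.nonneg (2 ^ j * l) v]) (univ.filter fun i => p i = v).card
      rw [← sub_eq_add_neg] at this
      linarith) J
  refine le_trans (le_of_eq ?_) key
  refine sum_congr rfl fun j _ => sum_congr rfl fun v _ => ?_
  ring

lemma int_bound' {Q : Matrix S S ℝ} {γ : ℝ} (hQ : Sub Q γ) {e : S → ℝ} (he : ∀ c, 0 ≤ e c)
    (hr : ∀ a, ∑ b, Q a b + e a ≤ 1) {n : ℕ} (hn : Fintype.card S = n) (hn1 : 1 ≤ n) {l : ℕ} (hl : 1 ≤ l)
    (x : S) :
    ∫ θ in (0 : ℝ)..(1 / (14 * l)), Ph Q e x θ ≤ 113 * (8000 / bt * (n / l + √n)) := by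
  have hnr : (1 : ℝ) ≤ l := by exact_mod_cast hl
  have hh : ∀ j, 1 ≤ 2 ^ j * l := fun j => Nat.mul_pos (by positivity) hl
  have hc := Ph_cont hQ e x
  obtain ⟨B, hB⟩ := Ph_bdd hQ e x
  set a : ℕ → ℝ := fun j => 1 / (14 * l) * (1 / 2) ^ j with ha
  have h1 : ∀ J, ∫ θ in (0 : ℝ)..(1 / (14 * l)), Ph Q e x θ ≤ (∫ θ in (0 : ℝ)..a J, Ph Q e x θ)
      + 113 * ∑ j ∈ range J, ∑ v, dw Q e x (2 ^ j * l) v / (lam Q (2 ^ j * l) v * (2 ^ j * l)) := by
    intro J
    induction J with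
    | zero => simp [ha]
    | succ J ih =>
      have e1 := shell hQ he x (hh J) (a := a J) (by
        rw [ha]; push_cast; simp only [one_div, inv_pow]; field_simp)
      have e2 : a (J + 1) = a J / 2 := by rw [ha]; simp only; ring
      have e3 := intervalIntegral.integral_add_adjacent_intervals (μ := volume)
        (hc.intervalIntegrable 0 (a J / 2)) (hc.intervalIntegrable (a J / 2) (a J))
      rw [sum_range_succ, e2]
      push_cast at e1
      linarith
  have h2 : ∀ J, ∫ θ in (0 : ℝ)..a J, Ph Q e x θ ≤ a J * B := by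
    intro J
    have := intervalIntegral.integral_mono_on (μ := volume) (a := 0) (b := a J)
      (by rw [ha]; positivity) (hc.intervalIntegrable _ _)
      (continuous_const.intervalIntegrable _ _) fun θ _ => hB θ
    simpa using this
  have h3 : Filter.Tendsto (fun J => a J * B + 113 * (8000 / bt * (n / l + √n))) Filter.atTop
      (nhds (1 / (14 * l) * 0 * B + 113 * (8000 / bt * (n / l + √n)))) :=
    (((tendsto_pow_atTop_nhds_zero_of_lt_one (by norm_num) (by norm_num)).const_mul _).mul_const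
      _).add_const _
  rw [mul_zero, zero_mul, zero_add] at h3
  refine ge_of_tendsto' h3 fun J => ?_
  linarith [h1 J, h2 J, total' hQ he hr hn hn1 hl x J]

lemma damped_bound' {Q : Matrix S S ℝ} {γ : ℝ} (hQ : Sub Q γ) {e : S → ℝ} (he : ∀ c, 0 ≤ e c)
    (hr : ∀ a, ∑ b, Q a b + e a ≤ 1) {n : ℕ} (hn : Fintype.card S = n) (hn1 : 1 ≤ n) {l : ℕ}
    (hl : 1 ≤ l) (x : S) {t : ℕ} (W : Finset ℕ) (hW : ∀ m ∈ W, t ≤ m + 1 ∧ m + 1 ≤ t + l) :
    t * ∑ m ∈ W, ((Q ^ m) *ᵥ e) x ≤ 56 * (113 * (8000 / bt)) * (n + l * √n) := by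
  have hnr : (1 : ℝ) ≤ l := by exact_mod_cast hl
  have e1 := fejer_main hQ he x (a := 1 / (14 * l)) (by positivity) (by
    rw [mul_one_div, div_le_one (by positivity)]; linarith) W hW
  have e2 := mul_le_mul_of_nonneg_left (e1.trans (int_bound' hQ he hr hn hn1 hl x))
    (show (0 : ℝ) ≤ 56 * l by positivity)
  have e3 : 56 * l * (t * (1 / (14 * l)) / 4 * ∑ m ∈ W, ((Q ^ m) *ᵥ e) x)
      = t * ∑ m ∈ W, ((Q ^ m) *ᵥ e) x := by field_simp; ring
  have e4 : 56 * (l : ℝ) * (113 * (8000 / bt * (n / l + √n)))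
      = 56 * (113 * (8000 / bt)) * (n + l * √n) := by field_simp
  linarith

lemma window_bound' {Q : Matrix S S ℝ} (hQ : ∀ a b, 0 ≤ Q a b) {e : S → ℝ} (he : ∀ c, 0 ≤ e c)
    (hr : ∀ a, ∑ b, Q a b + e a ≤ 1) {n : ℕ} (hn : Fintype.card S = n) (hn1 : 1 ≤ n) {l : ℕ}
    (hl : 1 ≤ l) (x : S) {t : ℕ} (ht : l ≤ t) (W : Finset ℕ)
    (hW : ∀ m ∈ W, t ≤ m + 1 ∧ m + 1 ≤ t + l) :
    t * ∑ m ∈ W, ((Q ^ m) *ᵥ e) x ≤ 112 * (113 * (8000 / bt)) * (n + l * √n) := by
  have htr : (1 : ℝ) ≤ t := by exact_mod_cast (by omega : 1 ≤ t)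
  obtain ⟨δ, hδ⟩ : ∃ δ : ℝ, δ = 1 / (4 * t) := ⟨_, rfl⟩
  have hδ0 : 0 < δ := by rw [hδ]; positivity
  have hδt : δ * t = 1 / 4 := by rw [hδ]; field_simp
  have hδ1 : δ ≤ 1 / 4 := by nlinarith
  have hS : Sub ((1 - δ) • Q) (1 - δ) := by
    refine ⟨fun a b => mul_nonneg (by linarith) (hQ a b), fun a => ?_, by linarith, by linarith⟩
    simp only [Matrix.smul_apply, smul_eq_mul, ← mul_sum]
    exact mul_le_of_le_one_right (by linarith) (by linarith [hr a, he a])
  have e1 := damped_bound' hS he (fun a => by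
    have : ∑ b, ((1 - δ) • Q) a b ≤ ∑ b, Q a b :=
      sum_le_sum fun b _ => mul_le_of_le_one_left (hQ a b) (by linarith)
    linarith [hr a]) hn hn1 hl x W hW
  have e2 : ∑ m ∈ W, ((Q ^ m) *ᵥ e) x ≤ 2 * ∑ m ∈ W, ((((1 - δ) • Q) ^ m) *ᵥ e) x := by
    rw [mul_sum]
    refine sum_le_sum fun m hm => ?_
    rw [smul_pow, Matrix.smul_mulVec, Pi.smul_apply, smul_eq_mul]
    have b1 := one_add_mul_le_pow (a := -δ) (by linarith) m
    have b2 : (m : ℝ) ≤ 2 * t := by exact_mod_cast (by have := (hW m hm).2; omega : m ≤ 2 * t)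
    have b3 := mul_le_mul_of_nonneg_left b2 hδ0.le
    have b4 : 1 / 2 ≤ (1 - δ) ^ m := by rw [sub_eq_add_neg]; linarith
    have := mul_le_mul_of_nonneg_right b4 (mv_nn (pow_nn hQ m) he x)
    linarith
  have := mul_le_mul_of_nonneg_left e2 (show (0 : ℝ) ≤ t by positivity)
  linarith

/-- The probability of the window is at most the sum of the exit masses. -/
lemma window_le_sum {n : ℕ} (P : Matrix (Fin n) (Fin n) ℝ) (x y : Fin n) {t : ℕ} (l : ℕ)
    {Ω : Type} [MeasurableSpace Ω] (μ : Measure Ω) (X : ℕ → Ω → Fin n)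
    (hP : ∀ a b, 0 ≤ P a b) [IsProbabilityMeasure μ]
    (hfdd : ∀ (k : ℕ) (w : ℕ → Fin n), μ.real {ω | ∀ i ≤ k, X i ω = w i}
        = (if w 0 = x then 1 else 0) * ∏ i ∈ Finset.range k, P (w i) (w (i + 1)))
    (ht : 0 < t) :
    μ.real {ω | (t : WithTop ℕ) ≤ hittingAfter X {y} 0 ω ∧
        hittingAfter X {y} 0 ω ≤ ((t + l : ℕ) : WithTop ℕ)}
      ≤ ∑ m ∈ (range (t + l)).filter fun m => t ≤ m + 1, ((zc P y ^ m) *ᵥ fun c => P c y) x := by
  set W := (range (t + l)).filter fun m => t ≤ m + 1 with hW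
  let ext : (m : ℕ) → (Fin (m + 1) → Fin n) → ℕ → Fin n :=
    fun m p i => if h : i < m + 1 then p ⟨i, h⟩ else y
  have hsub : {ω | (t : WithTop ℕ) ≤ hittingAfter X {y} 0 ω ∧
        hittingAfter X {y} 0 ω ≤ ((t + l : ℕ) : WithTop ℕ)}
      ⊆ ⋃ m ∈ W, ⋃ p ∈ univ.filter (fun p : Fin (m + 1) → Fin n => ∀ i, p i ≠ y),
        {ω | ∀ i ≤ m + 1, X i ω = ext m p i} := by
    rintro ω ⟨h1, h2⟩
    have hne : hittingAfter X {y} 0 ω ≠ ⊤ := ne_top_of_le_ne_top WithTop.coe_ne_top h2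
    have hmem := hittingAfter_mem_set_of_ne_top hne
    obtain ⟨k, hk⟩ := WithTop.ne_top_iff_exists.1 hne
    rw [← hk] at h1 h2 hmem
    have h1' : t ≤ k := WithTop.coe_le_coe.1 h1
    have h2' : k ≤ t + l := WithTop.coe_le_coe.1 h2
    obtain ⟨m, rfl⟩ : ∃ m, k = m + 1 := ⟨k - 1, by omega⟩
    simp only [Set.mem_iUnion]
    refine ⟨m, by simp only [hW, mem_filter, mem_range]; omega, fun i => X i ω, ?_, ?_⟩
    · simp only [mem_filter, mem_univ, true_and]
      intro i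
      refine notMem_of_lt_hittingAfter (u := X) (s := {y}) (n := 0) ?_ (Nat.zero_le _)
      rw [← hk]
      exact WithTop.coe_lt_coe.2 i.2
    · intro i hi
      simp only [ext]
      split_ifs with h
      · rfl
      · obtain rfl : i = m + 1 := by omega
        exact hmem
  refine (measureReal_mono hsub (measure_ne_top _ _)).trans ((measureReal_biUnion_finset_le _ _).trans
    (sum_le_sum fun m _ => (measureReal_biUnion_finset_le _ _).trans ?_))
  rw [← path_sum]
  refine le_trans (sum_le_sum fun p hp => ?_) (sum_le_sum_of_subset_of_nonneg (filter_subset _ _)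
    fun p _ _ => by
      split_ifs
      · exact pw_nn (zc_nn hP y) (fun c => hP c y) m p
      · exact le_rfl)
  have hp' : ∀ i, p i ≠ y := (mem_filter.1 hp).2
  rw [hfdd, prod_range_succ, prod_range]
  have e0 : ext m p 0 = p 0 := by simp [ext]
  have e1 : ext m p m = p (Fin.last m) := by simp [ext, Fin.last]
  have e2 : ext m p (m + 1) = y := by simp [ext]
  have e3 : ∀ i : Fin m, P (ext m p i) (ext m p (i + 1)) = zc P y (p i.castSucc) (p i.succ) := by
    intro i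
    have a1 : ext m p i = p i.castSucc := dif_pos (by omega)
    have a2 : ext m p (i + 1) = p i.succ := dif_pos (by omega)
    rw [a1, a2, zc, if_neg (hp' _)]
  rw [e0, e1, e2, prod_congr rfl fun i _ => e3 i, pw]
  split_ifs <;> simp


/-- The bound for windows of every length. -/
theorem all_windows : ∃ C : ℝ, 1 ≤ C ∧ ∀ (n : ℕ) (P : Matrix (Fin n) (Fin n) ℝ) (x y : Fin n)
    (t l : ℕ) (Ω : Type) (_ : MeasurableSpace Ω) (μ : Measure Ω) (X : ℕ → Ω → Fin n),
    (∀ a b, 0 ≤ P a b) → (∀ a, ∑ b, P a b = 1) → IsProbabilityMeasure μ →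
    (∀ (k : ℕ) (w : ℕ → Fin n), μ.real {ω | ∀ i ≤ k, X i ω = w i}
      = (if w 0 = x then 1 else 0) * ∏ i ∈ Finset.range k, P (w i) (w (i + 1))) →
    0 < t →
    μ.real {ω | (t : WithTop ℕ) ≤ hittingAfter X {y} 0 ω ∧
      hittingAfter X {y} 0 ω ≤ ((t + l : ℕ) : WithTop ℕ)} ≤ C * (n + l * √n) / t := by
  have hK : (1 : ℝ) ≤ 112 * (113 * (8000 / bt)) := by rw [bt]; norm_num
  refine ⟨2 * (112 * (113 * (8000 / bt))), by linarith, ?_⟩
  intro n P x y t l Ω _ μ X hP hrow hμ hfdd ht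
  have hn1 : 1 ≤ n := Fin.pos x
  have hnr : (1 : ℝ) ≤ n := by exact_mod_cast hn1
  have hsq : 1 ≤ √(n : ℝ) := Real.one_le_sqrt.2 hnr
  have hsq' : √(n : ℝ) ≤ n := by
    rw [Real.sqrt_le_left (by linarith)]; nlinarith
  have htr : (0 : ℝ) < t := by exact_mod_cast ht
  have hl0 : (0 : ℝ) ≤ l := Nat.cast_nonneg l
  have hls : (l : ℝ) ≤ l * √n := le_mul_of_one_le_right hl0 hsq
  rw [le_div_iff₀ htr, mul_comm]
  by_cases hlt : t ≤ l
  · have h1 : (t : ℝ) ≤ l := by exact_mod_cast hlt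
    refine (mul_le_of_le_one_right htr.le measureReal_le_one).trans ?_
    have h2 : (t : ℝ) ≤ n + l * √n := by linarith
    exact h2.trans (le_mul_of_one_le_left (by linarith) (by linarith))
  have key := window_bound' (Q := zc P y) (zc_nn hP y) (e := fun c => P c y) (fun c => hP c y)
    (fun c => by
      have h2 : ∑ b, zc P y c b + P c y = ∑ b, P c b := by
        rw [← add_sum_erase _ _ (mem_univ y), ← add_sum_erase _ (P c) (mem_univ y)]
        have : ∑ b ∈ univ.erase y, zc P y c b = ∑ b ∈ univ.erase y, P c b :=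
          sum_congr rfl fun b hb => by simp [zc, ne_of_mem_erase hb]
        rw [this]; simp [zc, add_comm]
      rw [h2, hrow]) (Fintype.card_fin n) hn1 (l := l + 1) (by omega) x (t := t) (by omega)
      ((range (t + l)).filter fun m => t ≤ m + 1) (fun m hm => by
      simp only [mem_filter, mem_range] at hm
      omega)
  refine le_trans (mul_le_mul_of_nonneg_left (window_le_sum P x y l μ X hP hfdd ht) htr.le)
    (key.trans ?_)
  generalize 112 * (113 * (8000 / bt)) = K at hK ⊢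
  push_cast
  have : (n : ℝ) + (l + 1) * √n ≤ 2 * (n + l * √n) := by linarith
  have := mul_le_mul_of_nonneg_left this (show 0 ≤ K by linarith)
  linarith

end Pool.Agent.Lib.MP_eadfc1_pr.Up
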