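import Mathlib

namespace Pool.Agent.Lib.MP_eadfc1_pr

open MeasureTheory ProbabilityTheory Finset
open scoped unitInterval

/-- The law of one coin. -/
noncomputable def coin (p : I) : Measure Bool := bernoulliMeasure true false p

instance (p : I) : IsProbabilityMeasure (coin p) := by unfold coin; infer_instance

/-- The law of the sequence of coins. -/
noncomputable def coins (p : I) : Measure (ℕ → Bool) := Measure.infinitePi fun _ : ℕ => coin p

instance (p : I) : IsProbabilityMeasure (coins p) := by unfold coins; infer_instance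

/-- The number of successes among the first `s` coins. -/
def B (s : ℕ) (ω : ℕ → Bool) : ℕ := ∑ i ∈ range s, (ω i).toNat

def nxt (m : ℕ) (a : Fin (m + 1)) (b : Bool) : Fin (m + 1) :=
  ⟨min (a.val + b.toNat) m, Nat.lt_succ_of_le (min_le_right _ _)⟩

def X (m : ℕ) (s : ℕ) (ω : ℕ → Bool) : Fin (m + 1) :=
  ⟨min (B s ω) m, Nat.lt_succ_of_le (min_le_right _ _)⟩

theorem X_zero (m : ℕ) (ω : ℕ → Bool) : X m 0 ω = 0 := by
  ext; simp [X, B]

theorem X_succ (m s : ℕ) (ω : ℕ → Bool) : X m (s + 1) ω = nxt m (X m s ω) (ω s) := by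
  ext; simp only [X, nxt, B, sum_range_succ]; omega

noncomputable def P (m : ℕ) (p : I) : Matrix (Fin (m + 1)) (Fin (m + 1)) ℝ :=
  fun a b => (coin p).real {ξ | nxt m a ξ = b}

theorem P_nonneg (m : ℕ) (p : I) (a b : Fin (m + 1)) : 0 ≤ P m p a b := measureReal_nonneg

theorem P_sum (m : ℕ) (p : I) (a : Fin (m + 1)) : ∑ b, P m p a b = 1 := by
  have h := sum_measureReal_preimage_singleton (μ := coin p) (univ : Finset (Fin (m + 1)))
    (f := nxt m a) (fun _ _ => MeasurableSet.of_discrete)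
  simp only [coe_univ, Set.preimage_univ, probReal_univ] at h
  exact h

theorem measurable_B (s : ℕ) : Measurable (B s) := by
  unfold B
  refine Finset.measurable_sum _ fun i _ => ?_
  exact (Measurable.of_discrete (f := Bool.toNat)).comp (measurable_pi_apply i)

theorem measurable_X (m s : ℕ) : Measurable (X m s) :=
  (Measurable.of_discrete (f := fun b : ℕ =>
    (⟨min b m, Nat.lt_succ_of_le (min_le_right _ _)⟩ : Fin (m + 1)))).comp (measurable_B s)

theorem cyl_iff (m : ℕ) (w : ℕ → Fin (m + 1)) (ω : ℕ → Bool) : ∀ k : ℕ,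
    (∀ i ≤ k, X m i ω = w i) ↔ (w 0 = 0 ∧ ∀ i < k, nxt m (w i) (ω i) = w (i + 1))
  | 0 => by simp [X_zero, eq_comm]
  | k + 1 => by
    have ih := cyl_iff m w ω k
    constructor
    · intro h
      have h1 := ih.1 fun i hi => h i (by omega)
      refine ⟨h1.1, fun i hi => ?_⟩
      rw [← h (i + 1) (by omega), X_succ, h i (by omega)]
    · intro h i hi
      have h1 := ih.2 ⟨h.1, fun i hi => h.2 i (by omega)⟩
      rcases Nat.lt_or_ge i (k + 1) with hi' | hi'
      · exact h1 i (by omega)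
      · have : i = k + 1 := by omega
        rw [this, X_succ, h1 k le_rfl, h.2 k (by omega)]

theorem fdd (m : ℕ) (p : I) (k : ℕ) (w : ℕ → Fin (m + 1)) :
    (coins p).real {ω | ∀ i ≤ k, X m i ω = w i}
      = (if w 0 = 0 then 1 else 0) * ∏ i ∈ range k, P m p (w i) (w (i + 1)) := by
  simp only [cyl_iff]
  split_ifs with h
  · have : {ω : ℕ → Bool | w 0 = 0 ∧ ∀ i < k, nxt m (w i) (ω i) = w (i + 1)}
        = Set.pi (range k : Finset ℕ) fun i => {ξ | nxt m (w i) ξ = w (i + 1)} := by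
      ext ω; simp [h]
    rw [this, one_mul, measureReal_def, coins,
      Measure.infinitePi_pi _ (fun _ _ => MeasurableSet.of_discrete), ENNReal.toReal_prod]
    rfl
  · simp [h]

/-- The real valued coin. -/
noncomputable def Y (i : ℕ) (ω : ℕ → Bool) : ℝ := ((ω i).toNat : ℝ)

theorem measurable_Y (i : ℕ) : Measurable (Y i) :=
  (Measurable.of_discrete (f := fun b : Bool => (b.toNat : ℝ))).comp (measurable_pi_apply i)

theorem Y_mem (i : ℕ) (ω : ℕ → Bool) : Y i ω ∈ Set.Icc (0 : ℝ) 1 := by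
  unfold Y; cases ω i <;> simp

theorem memLp_Y (p : I) (i : ℕ) : MemLp (Y i) 2 (coins p) :=
  memLp_of_bounded (a := 0) (b := 1) (Filter.Eventually.of_forall (Y_mem i))
    (measurable_Y i).aestronglyMeasurable 2

theorem integral_Y (p : I) (i : ℕ) : ∫ ω, Y i ω ∂(coins p) = p := by
  have h := (measurePreserving_eval_infinitePi (fun _ : ℕ => coin p) i)
  have h2 : ∫ ω, Y i ω ∂(coins p) = ∫ b, ((b.toNat : ℕ) : ℝ) ∂(coin p) := by
    rw [← h.map_eq, integral_map h.measurable.aemeasurable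
      (Measurable.of_discrete (f := fun b : Bool => (b.toNat : ℝ))).aestronglyMeasurable]
    rfl
  rw [h2, coin, integral_bernoulliMeasure]
  simp

theorem variance_Y (p : I) (i : ℕ) : variance (Y i) (coins p) ≤ p := by
  refine (variance_le_expectation_sq (measurable_Y i).aestronglyMeasurable).trans ?_
  have : (Y i) ^ 2 = Y i := by
    ext ω; simp only [Y, Pi.pow_apply]; cases ω i <;> simp
  rw [this, integral_Y]

theorem cheb (p : I) (s : ℕ) {c : ℝ} (hc : 0 < c) :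
    (coins p).real {ω | c ≤ |(B s ω : ℝ) - s * p|} ≤ s * p / c ^ 2 := by
  have hsum : (∑ i ∈ range s, Y i) = fun ω => (B s ω : ℝ) := by
    ext ω; simp [B, Y]
  have hmem : MemLp (∑ i ∈ range s, Y i) 2 (coins p) :=
    memLp_finsetSum' _ fun i _ => memLp_Y p i
  have hind : iIndepFun Y (coins p) :=
    iIndepFun_infinitePi (X := fun _ (b : Bool) => (b.toNat : ℝ))
      (fun _ => Measurable.of_discrete)
  have hvar : variance (∑ i ∈ range s, Y i) (coins p) ≤ s * p := by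
    rw [IndepFun.variance_sum (fun i _ => memLp_Y p i) (fun i _ j _ hij => hind.indepFun hij)]
    calc _ ≤ ∑ _i ∈ range s, (p : ℝ) := sum_le_sum fun i _ => variance_Y p i
      _ = _ := by simp
  have hmean : ∫ ω, (∑ i ∈ range s, Y i) ω ∂(coins p) = s * p := by
    simp only [Finset.sum_apply]
    rw [integral_finsetSum _ fun i _ => (memLp_Y p i).integrable (by norm_num)]
    simp [integral_Y]
  have h := meas_ge_le_variance_div_sq hmem hc
  rw [hmean] at h
  have h2 := ENNReal.toReal_mono ENNReal.ofReal_ne_top h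
  rw [ENNReal.toReal_ofReal (div_nonneg (variance_nonneg _ _) (sq_nonneg _))] at h2
  have h3 : variance (∑ i ∈ range s, Y i) (coins p) / c ^ 2 ≤ s * p / c ^ 2 :=
    div_le_div_of_nonneg_right hvar (sq_nonneg _)
  rw [hsum] at h2 h3
  exact h2.trans h3

theorem B_mono (ω : ℕ → Bool) {s s' : ℕ} (h : s ≤ s') : B s ω ≤ B s' ω :=
  sum_le_sum_of_subset (range_mono h)

theorem X_eq_last_iff (m s : ℕ) (ω : ℕ → Bool) : X m s ω = Fin.last m ↔ m ≤ B s ω := by
  simp only [X, Fin.ext_iff, Fin.val_last]; omega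

theorem hit_window (m s s' t : ℕ) (ω : ℕ → Bool) (h1 : B s ω < m) (h2 : m ≤ B s' ω)
    (h3 : s' ≤ t) :
    ((s + 1 : ℕ) : WithTop ℕ) ≤ hittingAfter (X m) {Fin.last m} 0 ω ∧
      hittingAfter (X m) {Fin.last m} 0 ω ≤ (t : WithTop ℕ) := by
  constructor
  · by_contra hlt
    rw [not_le] at hlt
    obtain ⟨j, hj, hj'⟩ := (hittingAfter_lt_iff (i := s + 1)).1 hlt
    have := (X_eq_last_iff m j ω).1 hj'
    have h4 : j ≤ s := Nat.lt_succ_iff.1 hj.2
    have := B_mono ω h4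
    omega
  · refine (hittingAfter_le_of_mem (Nat.zero_le s') ?_).trans (WithTop.coe_le_coe.2 h3)
    exact (X_eq_last_iff m s' ω).2 h2

theorem window_mass (r : ℕ) (hr : 4 ≤ r) (p : I) (hp : (p : ℝ) = 1 / r) :
    ∃ s : ℕ, r * (r ^ 2 - 2 * r) ≤ s ∧
      1 / 8 ≤ (coins p).real {ω | B s ω < r ^ 2 ∧ r ^ 2 ≤ B (s + r ^ 2) ω} := by
  have hr0 : (0 : ℝ) < r := by exact_mod_cast (by omega : 0 < r)
  have h2r : 2 * r ≤ r ^ 2 := by nlinarith
  set s1 := r * (r ^ 2 - 2 * r) with hs1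
  have hs1r : (s1 : ℝ) * p = (r : ℝ) ^ 2 - 2 * r := by
    rw [hs1, hp]; push_cast [h2r]; field_simp
  have hs2r : ((s1 + 4 * r ^ 2 : ℕ) : ℝ) * p = (r : ℝ) ^ 2 + 2 * r := by
    push_cast; rw [add_mul, hs1r, hp]; field_simp; ring
  have c1 := cheb p s1 (c := 2 * r) (by positivity)
  have c2 := cheb p (s1 + 4 * r ^ 2) (c := 2 * r) (by positivity)
  rw [hs1r] at c1
  rw [hs2r] at c2
  by_contra hcon
  push Not at hcon
  have w0 := hcon s1 le_rfl
  have w1 := hcon (s1 + r ^ 2) (by omega)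
  have w2 := hcon (s1 + r ^ 2 + r ^ 2) (by omega)
  have w3 := hcon (s1 + r ^ 2 + r ^ 2 + r ^ 2) (by omega)
  have hcover : (Set.univ : Set (ℕ → Bool)) ⊆
      {ω | 2 * (r : ℝ) ≤ |(B s1 ω : ℝ) - ((r : ℝ) ^ 2 - 2 * r)|} ∪
      ({ω | 2 * (r : ℝ) ≤ |(B (s1 + 4 * r ^ 2) ω : ℝ) - ((r : ℝ) ^ 2 + 2 * r)|} ∪
      ({ω | B s1 ω < r ^ 2 ∧ r ^ 2 ≤ B (s1 + r ^ 2) ω} ∪
      ({ω | B (s1 + r ^ 2) ω < r ^ 2 ∧ r ^ 2 ≤ B (s1 + r ^ 2 + r ^ 2) ω} ∪
      ({ω | B (s1 + r ^ 2 + r ^ 2) ω < r ^ 2 ∧ r ^ 2 ≤ B (s1 + r ^ 2 + r ^ 2 + r ^ 2) ω} ∪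
      {ω | B (s1 + r ^ 2 + r ^ 2 + r ^ 2) ω < r ^ 2 ∧
        r ^ 2 ≤ B (s1 + r ^ 2 + r ^ 2 + r ^ 2 + r ^ 2) ω})))) := by
    intro ω _
    simp only [Set.mem_union, Set.mem_ofPred_eq]
    by_cases a1 : r ^ 2 ≤ B s1 ω
    · left
      have : ((r : ℝ)) ^ 2 ≤ B s1 ω := by exact_mod_cast a1
      exact le_trans (by linarith) (le_abs_self _)
    by_cases a2 : B (s1 + 4 * r ^ 2) ω < r ^ 2
    · right; left
      have : (B (s1 + 4 * r ^ 2) ω : ℝ) < ((r : ℝ)) ^ 2 := by exact_mod_cast a2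
      exact le_trans (by linarith) (neg_le_abs _)
    have e : s1 + r ^ 2 + r ^ 2 + r ^ 2 + r ^ 2 = s1 + 4 * r ^ 2 := by ring
    rw [e]
    omega
  have hle := measureReal_mono (μ := coins p) hcover
  rw [probReal_univ] at hle
  have u1 := fun s t => measureReal_union_le (μ := coins p) s t
  have hle2 := hle.trans ((u1 _ _).trans (add_le_add le_rfl ((u1 _ _).trans (add_le_add le_rfl
    ((u1 _ _).trans (add_le_add le_rfl ((u1 _ _).trans (add_le_add le_rfl (u1 _ _)))))))))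
  have e : ((r : ℝ) ^ 2 - 2 * r) / (2 * r) ^ 2 + ((r : ℝ) ^ 2 + 2 * r) / (2 * r) ^ 2 = 1 / 2 := by
    field_simp; ring
  linarith

end Pool.Agent.Lib.MP_eadfc1_pr
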