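import Mathlib

namespace Pool.Agent.Lib.MP_eadfc1_pr.Up

open Finset Matrix

variable {S : Type} [Fintype S] [DecidableEq S]

/-- nonnegative matrices with row sums at most `γ < 1` -/
structure Sub (Q : Matrix S S ℝ) (γ : ℝ) : Prop where
  nonneg : ∀ a b, 0 ≤ Q a b
  row : ∀ a, ∑ b, Q a b ≤ γ
  g0 : 0 ≤ γ
  g1 : γ < 1

lemma pow_nn {Q : Matrix S S ℝ} (h : ∀ a b, 0 ≤ Q a b) (m : ℕ) (a b : S) : 0 ≤ (Q ^ m) a b := by
  induction m generalizing a with
  | zero => simp only [pow_zero, Matrix.one_apply]; split_ifs <;> norm_num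
  | succ m ih =>
    rw [pow_succ', Matrix.mul_apply]
    exact sum_nonneg fun c _ => mul_nonneg (h _ _) (ih _)

lemma pow_row_le {Q : Matrix S S ℝ} {γ : ℝ} (h : ∀ a b, 0 ≤ Q a b) (hr : ∀ a, ∑ b, Q a b ≤ γ)
    (g0 : 0 ≤ γ) (m : ℕ) (a : S) : ∑ b, (Q ^ m) a b ≤ γ ^ m := by
  induction m generalizing a with
  | zero => simp [Matrix.one_apply]
  | succ m ih =>
    simp only [pow_succ' Q, Matrix.mul_apply]
    rw [sum_comm]
    calc ∑ c, ∑ b, Q a c * (Q ^ m) c b = ∑ c, Q a c * ∑ b, (Q ^ m) c b := by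
          simp [mul_sum]
      _ ≤ ∑ c, Q a c * γ ^ m := sum_le_sum fun c _ => mul_le_mul_of_nonneg_left (ih c) (h _ _)
      _ = (∑ c, Q a c) * γ ^ m := by rw [sum_mul]
      _ ≤ γ * γ ^ m := mul_le_mul_of_nonneg_right (hr a) (pow_nonneg g0 _)
      _ = γ ^ (m + 1) := by ring

namespace Sub

variable {Q : Matrix S S ℝ} {γ : ℝ}

lemma pn (h : Sub Q γ) (m : ℕ) (a b : S) : 0 ≤ (Q ^ m) a b := pow_nn h.nonneg m a b

lemma prow (h : Sub Q γ) (m : ℕ) (a : S) : ∑ b, (Q ^ m) a b ≤ γ ^ m :=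
  pow_row_le h.nonneg h.row h.g0 m a

lemma prow1 (h : Sub Q γ) (m : ℕ) (a : S) : ∑ b, (Q ^ m) a b ≤ 1 :=
  (h.prow m a).trans (pow_le_one₀ h.g0 h.g1.le)

lemma ple (h : Sub Q γ) (m : ℕ) (a b : S) : (Q ^ m) a b ≤ γ ^ m :=
  (single_le_sum (f := fun b => (Q ^ m) a b) (fun c _ => h.pn m a c) (mem_univ b)).trans
    (h.prow m a)

lemma ple1 (h : Sub Q γ) (m : ℕ) (a b : S) : (Q ^ m) a b ≤ 1 :=
  (h.ple m a b).trans (pow_le_one₀ h.g0 h.g1.le)

lemma summable (h : Sub Q γ) (a b : S) : Summable fun m => (Q ^ m) a b :=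
  Summable.of_nonneg_of_le (fun m => h.pn m a b) (fun m => h.ple m a b)
    (summable_geometric_of_lt_one h.g0 h.g1)

lemma mono (h : Sub Q γ) {Q' : Matrix S S ℝ} (h0 : ∀ a b, 0 ≤ Q' a b) (h1 : ∀ a b, Q' a b ≤ Q a b) :
    Sub Q' γ :=
  ⟨h0, fun a => (sum_le_sum fun b _ => h1 a b).trans (h.row a), h.g0, h.g1⟩

end Sub

lemma pow_mono {Q Q' : Matrix S S ℝ} (h0 : ∀ a b, 0 ≤ Q' a b) (h1 : ∀ a b, Q' a b ≤ Q a b)
    (m : ℕ) (a b : S) : (Q' ^ m) a b ≤ (Q ^ m) a b := by
  induction m generalizing a with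
  | zero => simp
  | succ m ih =>
    rw [pow_succ', pow_succ', Matrix.mul_apply, Matrix.mul_apply]
    exact sum_le_sum fun c _ => mul_le_mul (h1 _ _) (ih c) (pow_nn h0 _ _ _)
      ((h0 _ _).trans (h1 _ _))

section res

variable {K : Type} [NormedField K] [CompleteSpace K]

/-- the resolvent `∑ M ^ m`, entrywise -/
noncomputable def res (M : Matrix S S K) : Matrix S S K := fun a b => ∑' m, (M ^ m) a b

omit [CompleteSpace K] in
lemma res_eq {M : Matrix S S K} (hM : ∀ a b, Summable fun m => (M ^ m) a b) :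
    res M = 1 + M * res M := by
  ext a b
  simp only [res, Matrix.add_apply, Matrix.mul_apply]
  rw [(hM a b).tsum_eq_zero_add]
  simp only [pow_zero, pow_succ' M, Matrix.mul_apply]
  rw [Summable.tsum_finsetSum (fun c _ => (hM c b).mul_left _)]
  simp only [tsum_mul_left]

omit [CompleteSpace K] in
lemma res_mul {M : Matrix S S K} (hM : ∀ a b, Summable fun m => (M ^ m) a b) :
    (1 - M) * res M = 1 := by
  rw [Matrix.sub_mul, Matrix.one_mul]
  nth_rewrite 1 [res_eq hM]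
  simp

end res

/-- `Q` with column `a` set to zero -/
def zc {R : Type} [Zero R] (Q : Matrix S S R) (a : S) : Matrix S S R :=
  fun u w => if w = a then 0 else Q u w

section ring

variable {R : Type} [CommRing R]

lemma inv_comm {M G : Matrix S S R} (h : (1 - M) * G = 1) : G * (1 - M) = 1 :=
  mul_eq_one_comm.mp h

lemma inv_left {M G : Matrix S S R} (h : (1 - M) * G = 1) : G = 1 + M * G := by
  rw [Matrix.sub_mul, Matrix.one_mul] at h
  rw [← h]; abel

lemma inv_right {M G : Matrix S S R} (h : (1 - M) * G = 1) : G = 1 + G * M := by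
  have := inv_comm h
  rw [Matrix.mul_sub, Matrix.mul_one] at this
  rw [← this]; abel

lemma resolvent1 {M M' G G' : Matrix S S R} (h : (1 - M) * G = 1) (h' : (1 - M') * G' = 1) :
    G = G' + G' * (M - M') * G := by
  have h2 := inv_comm h'
  calc G = G' * (1 - M') * G := by rw [h2, Matrix.one_mul]
    _ = G' * ((1 - M) + (M - M')) * G := by congr 2; abel
    _ = G' * ((1 - M) * G) + G' * (M - M') * G := by
      rw [Matrix.mul_add, Matrix.add_mul, Matrix.mul_assoc]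
    _ = _ := by rw [h, Matrix.mul_one]

lemma resolvent2 {M M' G G' : Matrix S S R} (h : (1 - M) * G = 1) (h' : (1 - M') * G' = 1) :
    G = G' + G * (M - M') * G' := by
  have h2 := inv_comm h
  calc G = G * ((1 - M') * G') := by rw [h', Matrix.mul_one]
    _ = G * ((1 - M) + (M - M')) * G' := by rw [Matrix.mul_assoc]; congr 2; abel
    _ = (G * (1 - M)) * G' + G * (M - M') * G' := by
      rw [Matrix.mul_add, Matrix.add_mul]
    _ = _ := by rw [h2, Matrix.one_mul]

lemma mul_col (A B M : Matrix S S R) (a u b : S) :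
    (A * (M - zc M a) * B) u b = (A * M) u a * B a b := by
  rw [Matrix.mul_apply, sum_eq_single a]
  · congr 1
    simp only [Matrix.mul_apply, Matrix.sub_apply, zc, if_true, sub_zero]
  · intro w _ hw
    simp [Matrix.mul_apply, zc, hw]
  · simp

/-- first passage decomposition -/
lemma fp {M G G' : Matrix S S R} {a : S} (h : (1 - M) * G = 1) (h' : (1 - zc M a) * G' = 1)
    (u b : S) : G u b = G' u b + (G' * M) u a * G a b := by
  have := congrFun (congrFun (resolvent1 h h') u) b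
  rw [Matrix.add_apply, mul_col] at this
  exact this

/-- last exit decomposition -/
lemma le' {M G G' : Matrix S S R} {a : S} (h : (1 - M) * G = 1) (h' : (1 - zc M a) * G' = 1)
    (u b : S) : G u b = G' u b + (G u a - (1 : Matrix S S R) u a) * G' a b := by
  have := congrFun (congrFun (resolvent2 h h') u) b
  rw [Matrix.add_apply, mul_col] at this
  have h3 := congrFun (congrFun (inv_right h) u) a
  rw [Matrix.add_apply] at h3
  rw [this, h3]; ring

lemma le_diag {M G G' : Matrix S S R} {a : S} (h : (1 - M) * G = 1) (h' : (1 - zc M a) * G' = 1)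
    (b : S) : G a b = G a a * G' a b := by
  rw [le' h h' a b]; simp; ring

lemma zc_col {M G' : Matrix S S R} {a : S} (h' : (1 - zc M a) * G' = 1) (u : S) :
    G' u a = (1 : Matrix S S R) u a := by
  have h3 := congrFun (congrFun (inv_right h') u) a
  rw [Matrix.add_apply, Matrix.mul_apply] at h3
  simpa [zc] using h3

/-- `M` with row `v` scaled by `1 - l` -/
def mk (M : Matrix S S R) (v : S) (l : R) : Matrix S S R :=
  fun u w => if u = v then (1 - l) * M u w else M u w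

lemma mark {M G G' : Matrix S S R} {v : S} {l : R} (h : (1 - M) * G = 1)
    (h' : (1 - mk M v l) * G' = 1) (x y : S) :
    G x y = G' x y + l * G' x v * (G v y - (1 : Matrix S S R) v y) := by
  have := congrFun (congrFun (resolvent1 h h') x) y
  rw [Matrix.add_apply, Matrix.mul_assoc, Matrix.mul_apply, sum_eq_single v] at this
  · have h3 := congrFun (congrFun (inv_left h) v) y
    rw [Matrix.add_apply] at h3
    have h4 : ((M - mk M v l) * G) v y = l * (M * G) v y := by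
      simp only [Matrix.mul_apply, Matrix.sub_apply, mk, if_true, mul_sum]
      exact sum_congr rfl fun c _ => by ring
    rw [h4] at this
    rw [this]
    have h5 : (M * G) v y = G v y - (1 : Matrix S S R) v y := by rw [h3]; ring
    rw [h5]; ring
  · intro w _ hw
    simp [Matrix.mul_apply, mk, hw]
  · simp

end ring

/-- maximum principle -/
lemma max_principle {B : Matrix S S ℝ} {β : ℝ} (hB : ∀ a b, 0 ≤ B a b) (hr : ∀ a, ∑ b, B a b ≤ β)
    (hβ : β < 1) {D : S → ℝ} (hD : ∀ a, D a ≤ ∑ c, B a c * max (D c) 0) (a : S) : D a ≤ 0 := by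
  obtain ⟨a₀, -, h₀⟩ := exists_max_image univ D ⟨a, mem_univ a⟩
  by_contra hc
  push Not at hc
  have hp : 0 < D a₀ := hc.trans_le (h₀ a (mem_univ a))
  have : D a₀ ≤ β * D a₀ := by
    calc D a₀ ≤ ∑ c, B a₀ c * max (D c) 0 := hD a₀
      _ ≤ ∑ c, B a₀ c * D a₀ := sum_le_sum fun c _ =>
          mul_le_mul_of_nonneg_left (max_le (h₀ c (mem_univ c)) hp.le) (hB _ _)
      _ = (∑ c, B a₀ c) * D a₀ := by rw [sum_mul]
      _ ≤ β * D a₀ := mul_le_mul_of_nonneg_right (hr a₀) hp.le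
  nlinarith

/-- total exit mass is at most one -/
lemma exit_le_one {Q : Matrix S S ℝ} {e : S → ℝ} (hQ : ∀ a b, 0 ≤ Q a b)
    (hr : ∀ a, ∑ b, Q a b + e a ≤ 1) (H : ℕ) (a : S) :
    ∑ m ∈ range H, ∑ c, (Q ^ m) a c * e c ≤ 1 := by
  induction H generalizing a with
  | zero => simp
  | succ H ih =>
    rw [sum_range_succ']
    have h1 : ∑ c, (Q ^ 0) a c * e c = e a := by simp [Matrix.one_apply]
    have h2 : ∑ m ∈ range H, ∑ c, (Q ^ (m + 1)) a c * e c
        = ∑ b, Q a b * ∑ m ∈ range H, ∑ c, (Q ^ m) b c * e c := by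
      simp only [pow_succ' Q, Matrix.mul_apply, sum_mul, mul_sum]
      rw [sum_comm (s := univ) (t := range H)]
      refine sum_congr rfl fun m _ => ?_
      rw [sum_comm]
      exact sum_congr rfl fun b _ => sum_congr rfl fun c _ => by ring
    rw [h1, h2]
    have h3 : ∑ b, Q a b * ∑ m ∈ range H, ∑ c, (Q ^ m) b c * e c ≤ ∑ b, Q a b :=
      sum_le_sum fun b _ => mul_le_of_le_one_right (hQ _ _) (ih b)
    linarith [hr a]

/-- truncated Green function at a point -/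
noncomputable def Gt (Q : Matrix S S ℝ) (h : ℕ) (v : S) : ℝ := ∑ m ∈ range (h + 1), (Q ^ m) v v

lemma Gt_eq (Q : Matrix S S ℝ) (h : ℕ) (v : S) :
    Gt Q h v = 1 + ∑ m ∈ range h, (Q ^ (m + 1)) v v := by
  rw [Gt, sum_range_succ']; simp [add_comm]

lemma one_le_Gt {Q : Matrix S S ℝ} (hQ : ∀ a b, 0 ≤ Q a b) (h : ℕ) (v : S) : 1 ≤ Gt Q h v := by
  rw [Gt_eq]
  have : 0 ≤ ∑ m ∈ range h, (Q ^ (m + 1)) v v := sum_nonneg fun m _ => pow_nn hQ _ _ _
  linarith

lemma Gt_le {Q : Matrix S S ℝ} {γ : ℝ} (hQ : Sub Q γ) (h : ℕ) (v : S) : Gt Q h v ≤ 1 + h := by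
  rw [Gt_eq]
  have : ∑ m ∈ range h, (Q ^ (m + 1)) v v ≤ ∑ m ∈ range h, (1 : ℝ) :=
    sum_le_sum fun m _ => hQ.ple1 _ _ _
  simp at this
  linarith

lemma Gt_mono {Q : Matrix S S ℝ} (hQ : ∀ a b, 0 ≤ Q a b) {h h' : ℕ} (hh : h ≤ h') (v : S) :
    Gt Q h v ≤ Gt Q h' v :=
  sum_le_sum_of_subset_of_nonneg (range_subset_range.2 (by omega)) fun m _ _ => pow_nn hQ _ _ _

lemma window0 {Q : Matrix S S ℝ} {γ : ℝ} (hQ : Sub Q γ) (h : ℕ) (b v : S) :
    ∑ m ∈ range (h + 1), (Q ^ m) b v ≤ Gt Q h v := by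
  induction h generalizing b with
  | zero =>
    simp only [Gt, zero_add, sum_range_one, pow_zero, Matrix.one_apply]
    split_ifs <;> simp
  | succ h ih =>
    by_cases hb : b = v
    · subst hb; exact le_rfl
    · rw [sum_range_succ']
      have h2 : ∑ m ∈ range (h + 1), (Q ^ (m + 1)) b v
          = ∑ c, Q b c * ∑ m ∈ range (h + 1), (Q ^ m) c v := by
        simp only [pow_succ' Q, Matrix.mul_apply, mul_sum]
        rw [sum_comm]
      have h3 : ∑ c, Q b c * ∑ m ∈ range (h + 1), (Q ^ m) c v ≤ ∑ c, Q b c * Gt Q h v :=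
        sum_le_sum fun c _ => mul_le_mul_of_nonneg_left (ih c) (hQ.nonneg _ _)
      rw [← sum_mul] at h3
      have h4 : (∑ c, Q b c) * Gt Q h v ≤ Gt Q h v :=
        mul_le_of_le_one_left ((zero_le_one).trans (one_le_Gt hQ.nonneg _ _))
          ((hQ.row b).trans hQ.g1.le)
      have h5 : Gt Q h v ≤ Gt Q (h + 1) v := Gt_mono hQ.nonneg (by omega) v
      rw [h2]
      simp only [pow_zero, Matrix.one_apply, hb, if_false]
      linarith

lemma window {Q : Matrix S S ℝ} {γ : ℝ} (hQ : Sub Q γ) (s h : ℕ) (b v : S) :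
    ∑ m ∈ range (h + 1), (Q ^ (s + m)) b v ≤ Gt Q h v := by
  have h2 : ∑ m ∈ range (h + 1), (Q ^ (s + m)) b v
      = ∑ c, (Q ^ s) b c * ∑ m ∈ range (h + 1), (Q ^ m) c v := by
    simp only [pow_add, Matrix.mul_apply, mul_sum]
    rw [sum_comm]
  have h3 : ∑ c, (Q ^ s) b c * ∑ m ∈ range (h + 1), (Q ^ m) c v ≤ ∑ c, (Q ^ s) b c * Gt Q h v :=
    sum_le_sum fun c _ => mul_le_mul_of_nonneg_left (window0 hQ h c v) (hQ.pn _ _ _)
  rw [← sum_mul] at h3
  have h4 : (∑ c, (Q ^ s) b c) * Gt Q h v ≤ Gt Q h v :=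
    mul_le_of_le_one_left ((zero_le_one).trans (one_le_Gt hQ.nonneg _ _)) (hQ.prow1 _ _)
  linarith

lemma Gt_double {Q : Matrix S S ℝ} {γ : ℝ} (hQ : Sub Q γ) (h : ℕ) (v : S) :
    Gt Q (2 * h) v ≤ 2 * Gt Q h v := by
  have h1 : Gt Q (2 * h) v ≤ Gt Q (2 * h + 1) v := Gt_mono hQ.nonneg (by omega) v
  have h2 : Gt Q (2 * h + 1) v = Gt Q h v + ∑ m ∈ range (h + 1), (Q ^ (h + 1 + m)) v v := by
    rw [Gt, show 2 * h + 1 + 1 = (h + 1) + (h + 1) by ring, sum_range_add]; rfl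
  have h3 := window hQ (h + 1) h v v
  linarith

end Pool.Agent.Lib.MP_eadfc1_pr.Up
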