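import Pool.Agent.Lib.MP_eadfc1_pr.UpSeries

namespace Pool.Agent.Lib.MP_eadfc1_pr.Up

open Finset Matrix PowerSeries

/-- the point `exp (i θ)` -/
noncomputable def ez (θ : ℝ) : ℂ := Complex.exp (θ * Complex.I)

lemma norm_ez (θ : ℝ) : ‖ez θ‖ = 1 := Complex.norm_exp_ofReal_mul_I θ

lemma ez_pow (θ : ℝ) (m : ℕ) : ez θ ^ m = ez (m * θ) := by
  simp only [ez, ← Complex.exp_nat_mul]; congr 1; push_cast; ring

lemma ez_re (θ : ℝ) : (ez θ).re = Real.cos θ := Complex.exp_ofReal_mul_I_re θ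

lemma ez_im (θ : ℝ) : (ez θ).im = Real.sin θ := Complex.exp_ofReal_mul_I_im θ

lemma one_sub_cos_ge {x : ℝ} (h0 : 0 ≤ x) (h1 : x ≤ 1) : x ^ 2 / 8 ≤ 1 - Real.cos x := by
  have h := Real.cos_bound (x := x) (by rw [abs_of_nonneg h0]; exact h1)
  rw [abs_of_nonneg h0] at h
  have h2 := (abs_le.1 h).2
  have h3 : x ^ 4 ≤ x ^ 2 := pow_le_pow_of_le_one h0 h1 (by norm_num)
  nlinarith [sq_nonneg x]

lemma sin_ge {x : ℝ} (h0 : 0 ≤ x) (h1 : x ≤ 1) : x / 2 ≤ Real.sin x := by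
  have h := Real.sin_bound (x := x) (by rw [abs_of_nonneg h0]; exact h1)
  rw [abs_of_nonneg h0] at h
  have h2 := (abs_le.1 h).1
  have h3 : x ^ 4 ≤ x ^ 1 := pow_le_pow_of_le_one h0 h1 (by norm_num)
  have h4 : x ^ 3 ≤ x ^ 1 := pow_le_pow_of_le_one h0 h1 (by norm_num)
  nlinarith

lemma scalar_damp {c : ℕ → ℝ} (hc : ∀ m, 0 ≤ c m) {R g G θ : ℝ} {Rz gz : ℂ} {N : ℕ}
    (hR : HasSum c R) (hRz : HasSum (fun m => ez θ ^ m * (c m : ℂ)) Rz)
    (hg : g * (1 - R) = 1) (hg0 : 0 ≤ g) (hgz : gz * (1 - Rz) = 1) (hG0 : 0 ≤ G)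
    (hG : G * (1 - ∑ m ∈ range (N + 1), c m) ≤ 1) (h0 : 0 ≤ θ) (h1 : N * θ ≤ 1) :
    ‖gz‖ ^ 2 * (1 + θ ^ 2 / 4 * (G * ∑ m ∈ range (N + 1), (m : ℝ) * (m * c m)
      + G ^ 2 * (∑ m ∈ range (N + 1), (m : ℝ) * c m) ^ 2)) ≤ g ^ 2 := by
  set s := 1 - ∑ m ∈ range (N + 1), c m with hs
  set M1 := ∑ m ∈ range (N + 1), (m : ℝ) * c m with hM1
  set M2 := ∑ m ∈ range (N + 1), (m : ℝ) * (m * c m) with hM2
  have hl := (hasSum_nat_add_iff' (N + 1)).2 hR
  have hlz := (hasSum_nat_add_iff' (N + 1)).2 hRz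
  set l := R - ∑ m ∈ range (N + 1), c m with hldef
  set Sz := ∑ m ∈ range (N + 1), ez θ ^ m * (c m : ℂ) with hSz
  have hl0 : 0 ≤ l := hl.nonneg fun m => hc _
  have hln : ‖Rz - Sz‖ ≤ l := by
    refine HasSum.norm_le_of_bounded hlz hl fun m => ?_
    rw [norm_mul, norm_pow, norm_ez, one_pow, one_mul, Complex.norm_real, Real.norm_eq_abs,
      abs_of_nonneg (hc _)]
  have hsl : 1 - R = s - l := by rw [hs, hldef]; ring
  have hgp : 0 < g := by
    rcases hg0.eq_or_lt with h | h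
    · rw [← h] at hg; simp at hg
    · exact h
  have hsl0 : 0 < s - l := by
    rw [← hsl]
    by_contra hh
    push Not at hh
    have := mul_nonpos_of_nonneg_of_nonpos hg0 hh
    linarith
  have hs0 : 0 < s := by linarith
  set w := ‖1 - Sz‖ with hw
  set A := ∑ m ∈ range (N + 1), c m * (1 - Real.cos (m * θ)) with hA
  set B := ∑ m ∈ range (N + 1), c m * Real.sin (m * θ) with hB
  have hre : (1 - Sz).re = s + A := by
    rw [Complex.sub_re, hSz, Complex.re_sum, hs, hA]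
    simp only [ez_pow, Complex.mul_re, Complex.ofReal_re, Complex.ofReal_im, mul_zero, sub_zero,
      ez_re, Complex.one_re, mul_sub, sum_sub_distrib, mul_one]
    simp only [mul_comm (Real.cos _)]
    ring
  have him : (1 - Sz).im = -B := by
    rw [Complex.sub_im, hSz, Complex.im_sum, hB]
    simp only [ez_pow, Complex.mul_im, Complex.ofReal_re, Complex.ofReal_im, mul_zero,
      ez_im, Complex.one_im, zero_add, zero_sub]
    simp only [mul_comm (Real.sin _)]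
  have hw2 : w ^ 2 = (s + A) ^ 2 + B ^ 2 := by
    rw [hw, Complex.sq_norm, Complex.normSq_apply, hre, him]; ring
  have hm : ∀ m ∈ range (N + 1), 0 ≤ (m : ℝ) * θ ∧ (m : ℝ) * θ ≤ 1 := by
    intro m hm
    have : (m : ℝ) ≤ N := by exact_mod_cast Nat.lt_succ_iff.1 (mem_range.1 hm)
    exact ⟨by positivity, (mul_le_mul_of_nonneg_right this h0).trans h1⟩
  have hA1 : θ ^ 2 / 8 * M2 ≤ A := by
    rw [hM2, hA, mul_sum]
    refine sum_le_sum fun m hm' => ?_
    have := one_sub_cos_ge (hm m hm').1 (hm m hm').2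
    have h5 := mul_le_mul_of_nonneg_left this (hc m)
    linarith
  have hB1 : θ / 2 * M1 ≤ B := by
    rw [hM1, hB, mul_sum]
    refine sum_le_sum fun m hm' => ?_
    have := sin_ge (hm m hm').1 (hm m hm').2
    have h5 := mul_le_mul_of_nonneg_left this (hc m)
    linarith
  have hM10 : 0 ≤ M1 := sum_nonneg fun m _ => mul_nonneg (Nat.cast_nonneg _) (hc m)
  have hM20 : 0 ≤ M2 := sum_nonneg fun m _ =>
    mul_nonneg (Nat.cast_nonneg _) (mul_nonneg (Nat.cast_nonneg _) (hc m))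
  have hA0 : 0 ≤ A := le_trans (by positivity) hA1
  have hw0 : 0 ≤ w := norm_nonneg _
  have hsw : s ≤ w := by
    refine le_of_sq_le_sq ?_ hw0
    have := mul_nonneg hs0.le hA0
    linarith [sq_nonneg B, sq_nonneg A]
  have hn1 : w - l ≤ ‖1 - Rz‖ := by
    have : ‖1 - Sz‖ ≤ ‖1 - Rz‖ + ‖Rz - Sz‖ := by
      have := norm_add_le (1 - Rz) (Rz - Sz)
      simpa using this
    linarith
  have hn2 : ‖gz‖ * ‖1 - Rz‖ = 1 := by rw [← norm_mul, hgz, norm_one]
  have hz0 : 0 ≤ ‖gz‖ := norm_nonneg _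
  have hn3 : ‖gz‖ * (w - l) ≤ g * (s - l) := by
    rw [← hsl, hg, ← hn2]; exact mul_le_mul_of_nonneg_left hn1 hz0
  have hn4 : ‖gz‖ * w ≤ g * s := by
    have hwl : 0 < w - l := by linarith
    have : ‖gz‖ * w * (w - l) ≤ g * s * (w - l) := by
      have h6 := mul_le_mul_of_nonneg_left hn3 hw0
      have h7 : g * (l * s) ≤ g * (l * w) :=
        mul_le_mul_of_nonneg_left (mul_le_mul_of_nonneg_left hsw hl0) hg0
      linarith
    exact le_of_mul_le_mul_right this hwl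
  have hn5 : ‖gz‖ ^ 2 * w ^ 2 ≤ g ^ 2 * s ^ 2 := by
    rw [← mul_pow, ← mul_pow]
    exact pow_le_pow_left₀ (by positivity) hn4 2
  have hsG0 : 0 ≤ G * s := by positivity
  have e1 : s ^ 2 * (θ ^ 2 / 4 * (G * M2)) ≤ 2 * s * A := by
    calc s ^ 2 * (θ ^ 2 / 4 * (G * M2)) = (G * s) * (2 * s * (θ ^ 2 / 8 * M2)) := by ring
      _ ≤ 1 * (2 * s * (θ ^ 2 / 8 * M2)) := mul_le_mul_of_nonneg_right hG (by positivity)
      _ ≤ 2 * s * A := by rw [one_mul]; exact mul_le_mul_of_nonneg_left hA1 (by positivity)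
  have e2 : s ^ 2 * (θ ^ 2 / 4 * (G ^ 2 * M1 ^ 2)) ≤ B ^ 2 := by
    calc s ^ 2 * (θ ^ 2 / 4 * (G ^ 2 * M1 ^ 2)) = (G * s) ^ 2 * (θ / 2 * M1) ^ 2 := by ring
      _ ≤ 1 * (θ / 2 * M1) ^ 2 :=
        mul_le_mul_of_nonneg_right (pow_le_one₀ hsG0 hG) (by positivity)
      _ ≤ B ^ 2 := by rw [one_mul]; exact pow_le_pow_left₀ (by positivity) hB1 2
  have e3 : s ^ 2 * (1 + θ ^ 2 / 4 * (G * M2 + G ^ 2 * M1 ^ 2)) ≤ w ^ 2 := by
    rw [hw2]; linarith [sq_nonneg A]
  have e4 : ‖gz‖ ^ 2 * (1 + θ ^ 2 / 4 * (G * M2 + G ^ 2 * M1 ^ 2)) * s ^ 2 ≤ g ^ 2 * s ^ 2 := by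
    have := mul_le_mul_of_nonneg_left e3 (sq_nonneg ‖gz‖)
    linarith
  exact le_of_mul_le_mul_right e4 (by positivity)

variable {S : Type} [Fintype S] [DecidableEq S]

/-- the complex matrix `z Q` -/
noncomputable def cz (Q : Matrix S S ℝ) (z : ℂ) : Matrix S S ℂ := fun a b => z * (Q a b : ℂ)

lemma cz_pow (Q : Matrix S S ℝ) (z : ℂ) (m : ℕ) (a b : S) :
    (cz Q z ^ m) a b = z ^ m * ((Q ^ m) a b : ℝ) := by
  induction m generalizing a with
  | zero => simp only [pow_zero, Matrix.one_apply]; split_ifs <;> simp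
  | succ m ih =>
    rw [pow_succ', pow_succ' Q, Matrix.mul_apply, Matrix.mul_apply]
    simp only [ih, cz]
    push_cast
    rw [mul_sum]
    exact sum_congr rfl fun c _ => by ring

lemma norm_cz_pow {Q : Matrix S S ℝ} (h : ∀ a b, 0 ≤ Q a b) (θ : ℝ) (m : ℕ) (a b : S) :
    ‖(cz Q (ez θ) ^ m) a b‖ = (Q ^ m) a b := by
  rw [cz_pow, norm_mul, norm_pow, norm_ez, one_pow, one_mul, Complex.norm_real, Real.norm_eq_abs,
    abs_of_nonneg (pow_nn h _ _ _)]

lemma cz_summable {Q : Matrix S S ℝ} {γ : ℝ} (h : Sub Q γ) (θ : ℝ) (a b : S) :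
    Summable fun m => (cz Q (ez θ) ^ m) a b := by
  refine Summable.of_norm ?_
  simp only [norm_cz_pow h.nonneg]
  exact h.summable a b

/-- the resolvent at `exp (i θ)` -/
noncomputable def Gz (Q : Matrix S S ℝ) (θ : ℝ) : Matrix S S ℂ := res (cz Q (ez θ))

lemma Gz_inv {Q : Matrix S S ℝ} {γ : ℝ} (h : Sub Q γ) (θ : ℝ) : (1 - cz Q (ez θ)) * Gz Q θ = 1 :=
  res_mul (cz_summable h θ)

lemma res_inv {Q : Matrix S S ℝ} {γ : ℝ} (h : Sub Q γ) : (1 - Q) * res Q = 1 :=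
  res_mul h.summable

lemma norm_Gz_le {Q : Matrix S S ℝ} {γ : ℝ} (h : Sub Q γ) (θ : ℝ) (a b : S) :
    ‖Gz Q θ a b‖ ≤ res Q a b :=
  HasSum.norm_le_of_bounded (cz_summable h θ a b).hasSum (h.summable a b).hasSum
    fun m => (norm_cz_pow h.nonneg θ m a b).le

omit [Fintype S] in
lemma cz_zc (Q : Matrix S S ℝ) (z : ℂ) (a : S) : cz (zc Q a) z = zc (cz Q z) a := by
  funext u w
  simp only [cz, zc]
  split_ifs <;> simp

omit [Fintype S] in
lemma cz_mk (Q : Matrix S S ℝ) (z : ℂ) (v : S) (l : ℝ) :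
    cz (mk Q v l) z = mk (cz Q z) v (l : ℂ) := by
  funext u w
  simp only [cz, mk]
  split_ifs
  · push_cast; ring
  · rfl

lemma Gz_inv_zc {Q : Matrix S S ℝ} {γ : ℝ} (h : Sub Q γ) (θ : ℝ) (a : S) :
    (1 - zc (cz Q (ez θ)) a) * Gz (zc Q a) θ = 1 := by
  rw [← cz_zc]; exact Gz_inv (h.zc a) θ

omit [Fintype S] [DecidableEq S] in
lemma eu_xq (Q : Matrix S S ℝ) (a b : S) : eu (xq Q a b) = xq Q a b := by
  ext m
  rw [coeff_eu, xq]
  cases m with
  | zero => simp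
  | succ m =>
    rw [coeff_succ_X_mul, coeff_C]
    split_ifs with h
    · simp [h]
    · simp

lemma loops_eq (Q : Matrix S S ℝ) (a : S) :
    ∑ u, (ser Q u u - ser (zc Q a) u u) = ser Q a a * eu ((ser (zc Q a) * xq Q) a a) := by
  have h1 : ∀ u, ser Q u u - ser (zc Q a) u u
      = ser Q a a * (ser (zc Q a) a u * (ser (zc Q a) * xq Q) u a) := by
    intro u
    rw [fp (ser_inv Q) (ser_inv_zc Q a) u u, le_diag (ser_inv Q) (ser_inv_zc Q a) u]; ring
  rw [sum_congr rfl fun u _ => h1 u, ← mul_sum, ← Matrix.mul_apply, ← Matrix.mul_assoc]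
  congr 1
  rw [Matrix.mul_apply, Matrix.mul_apply, eu_sum]
  refine sum_congr rfl fun c _ => ?_
  rw [eu_mul, eu_xq, eu_ser]; ring

lemma loops_lower {Q : Matrix S S ℝ} (h : ∀ a b, 0 ≤ Q a b) (a u : S) :
    NN (eu (ser Q u u - ser (zc Q a) u u) - (ser Q u u - ser (zc Q a) u u) * ser Q u u) := by
  have hz := zc_nn h a
  have hl := zc_le h a
  rw [eu_sub, eu_ser, eu_ser, Matrix.mul_apply, Matrix.mul_apply,
    ← add_sum_erase _ _ (mem_univ u), ← add_sum_erase _ _ (mem_univ u)]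
  have h1 : NN (∑ w ∈ univ.erase u, ((ser Q u w - ser (zc Q a) u w) * ser Q w u
      + ser (zc Q a) u w * (ser Q w u - ser (zc Q a) w u))) :=
    NN.sum fun w _ => ((NN.ser_sub hz hl _ _).mul (NN.ser h _ _)).add
      ((NN.ser hz _ _).mul (NN.ser_sub hz hl _ _))
  have h2 := (NN.ser_sub hz hl u u).mul (NN.ser_sub_one hz u u)
  have h3 : ∑ w ∈ univ.erase u, ((ser Q u w - ser (zc Q a) u w) * ser Q w u
      + ser (zc Q a) u w * (ser Q w u - ser (zc Q a) w u))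
      = ∑ w ∈ univ.erase u, ser Q u w * ser Q w u
        - ∑ w ∈ univ.erase u, ser (zc Q a) u w * ser (zc Q a) w u := by
    rw [← sum_sub_distrib]
    exact sum_congr rfl fun w _ => by ring
  rw [h3] at h1
  convert h1.add h2 using 1
  rw [Matrix.one_apply_eq]; ring

lemma damp {Q : Matrix S S ℝ} {γ : ℝ} (hQ : Sub Q γ) (a : S) (H : ℕ) {θ : ℝ} (h0 : 0 ≤ θ)
    (h1 : 2 * H * θ ≤ 1) :
    ‖Gz Q θ a a‖ ^ 2 * (1 + θ ^ 2 / 4 * ∑ u, (Gt Q H u - Gt (zc Q a) H u) * Gt Q H u)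
      ≤ res Q a a ^ 2 := by
  have hz := hQ.zc a
  set r := (ser (zc Q a) * xq Q) a a with hr
  set p := ser Q a a with hp
  have hrn : NN r := NN.mmul (NN.ser hz.nonneg) (NN.xq hQ.nonneg) a a
  have hpn : NN p := NN.ser hQ.nonneg a a
  have hpr : p = 1 + r * p := by
    have := fp (ser_inv Q) (ser_inv_zc Q a) a a
    rwa [zc_col (ser_inv_zc Q a), Matrix.one_apply_eq] at this
  have hc0 : coeff 0 r = 0 := by
    rw [hr, Matrix.mul_apply, map_sum]
    refine sum_eq_zero fun c _ => ?_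
    rw [xq, mul_left_comm, coeff_zero_X_mul]
  have hcs : ∀ m, coeff (m + 1) r = ∑ c, (zc Q a ^ m) a c * Q c a := by
    intro m
    rw [hr, Matrix.mul_apply, map_sum]
    refine sum_congr rfl fun c _ => ?_
    rw [xq, mul_left_comm, coeff_succ_X_mul, coeff_mul_C, coeff_ser]
  have hR : HasSum (fun m => coeff m r) ((res (zc Q a) * Q) a a) := by
    have : HasSum (fun m => coeff (m + 1) r) ((res (zc Q a) * Q) a a) := by
      simp only [hcs, Matrix.mul_apply]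
      exact hasSum_sum fun c _ => (hz.summable a c).hasSum.mul_right _
    simpa [hc0] using (hasSum_nat_add_iff (f := fun m => coeff m r) 1).1 this
  have hRz : HasSum (fun m => ez θ ^ m * ((coeff m r : ℝ) : ℂ))
      ((Gz (zc Q a) θ * cz Q (ez θ)) a a) := by
    have : HasSum (fun m => ez θ ^ (m + 1) * ((coeff (m + 1) r : ℝ) : ℂ))
        ((Gz (zc Q a) θ * cz Q (ez θ)) a a) := by
      simp only [hcs, Matrix.mul_apply]
      have := hasSum_sum (s := univ) fun c _ =>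
        (cz_summable hz θ a c).hasSum.mul_right (cz Q (ez θ) c a)
      refine HasSum.congr_fun this fun m => ?_
      push_cast
      rw [mul_sum]
      refine sum_congr rfl fun c _ => ?_
      rw [cz_pow, cz]; ring
    simpa [hc0] using
      (hasSum_nat_add_iff (f := fun m => ez θ ^ m * ((coeff m r : ℝ) : ℂ)) 1).1 this
  have hg : res Q a a * (1 - (res (zc Q a) * Q) a a) = 1 := by
    have := fp (res_inv hQ) (res_inv hz) a a
    rw [zc_col (res_inv hz), Matrix.one_apply_eq] at this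
    linear_combination this
  have hgz : Gz Q θ a a * (1 - (Gz (zc Q a) θ * cz Q (ez θ)) a a) = 1 := by
    have := fp (Gz_inv hQ θ) (Gz_inv_zc hQ θ a) a a
    rw [zc_col (Gz_inv_zc hQ θ a), Matrix.one_apply_eq] at this
    linear_combination this
  have hG0 : 0 ≤ tr (2 * H) p := hpn.tr_nonneg _
  have hG : tr (2 * H) p * (1 - ∑ m ∈ range (2 * H + 1), coeff m r) ≤ 1 := by
    have h2 := tr_mul_le hrn hpn (2 * H)
    have h3 : tr (2 * H) p = 1 + tr (2 * H) (r * p) := by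
      nth_rewrite 1 [hpr]; rw [map_add, tr_one]
    rw [← tr_apply]
    linarith
  have key := scalar_damp hrn hR hRz hg (res_nn hQ.nonneg a a) hgz hG0 hG h0
    (by push_cast; exact h1)
  have hM1 : ∑ m ∈ range (2 * H + 1), (m : ℝ) * coeff m r = tr (2 * H) (eu r) := by
    simp only [tr_apply, coeff_eu]
  have hM2 : ∑ m ∈ range (2 * H + 1), (m : ℝ) * (m * coeff m r) = tr (2 * H) (eu (eu r)) := by
    simp only [tr_apply, coeff_eu]
  rw [hM1, hM2] at key
  have hep : eu p = p * p * eu r := by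
    have h4 : eu p = r * eu p + p * eu r := by
      nth_rewrite 1 [hpr]; rw [eu_add, eu_one, eu_mul, zero_add]
    linear_combination p * h4 - eu p * hpr
  have hY : ∑ u, (Gt Q H u - Gt (zc Q a) H u) * Gt Q H u
      ≤ tr (2 * H) p * tr (2 * H) (eu (eu r)) + tr (2 * H) p ^ 2 * tr (2 * H) (eu r) ^ 2 := by
    calc ∑ u, (Gt Q H u - Gt (zc Q a) H u) * Gt Q H u
        ≤ ∑ u, tr (2 * H) (eu (ser Q u u - ser (zc Q a) u u)) := by
          refine sum_le_sum fun u _ => ?_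
          refine le_trans ?_ (tr_le (loops_lower hQ.nonneg a u) _)
          rw [← tr_ser_diag, ← tr_ser_diag, ← map_sub, two_mul]
          exact le_tr_mul (NN.ser_sub hz.nonneg (zc_le hQ.nonneg a) u u) (NN.ser hQ.nonneg u u) H H
      _ = tr (2 * H) (p * eu (eu r) + (p * eu r) * (p * eu r)) := by
          rw [← map_sum, ← eu_sum, loops_eq, eu_mul, hep]; congr 1; ring
      _ ≤ _ := by
          rw [map_add]
          have h5 := tr_mul_le hpn hrn.eu.eu (2 * H)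
          have h6 := tr_mul_le hpn hrn.eu (2 * H)
          have h7 := tr_mul_le (hpn.mul hrn.eu) (hpn.mul hrn.eu) (2 * H)
          have h8 := (hpn.mul hrn.eu).tr_nonneg (2 * H)
          have h9 := mul_le_mul h6 h6 h8 (h8.trans h6)
          linarith
  refine le_trans ?_ key
  gcongr

end Pool.Agent.Lib.MP_eadfc1_pr.Up
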