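import Pool.Agent.Lib.MP_eadfc1_pr.UpMark

namespace Pool.Agent.Lib.MP_eadfc1_pr.Up

open Finset Matrix MeasureTheory

/-- the Fejer weight -/
noncomputable def fk (b s : ℝ) : ℝ := ∫ θ in (0 : ℝ)..b, (b - θ) * Real.cos (s * θ)

lemma int_tri (b : ℝ) : ∫ θ in (0 : ℝ)..b, (b - θ) = b ^ 2 / 2 := by
  rw [intervalIntegral.integral_sub (by simp) (by simp)]
  simp; ring

lemma fk_eq (b : ℝ) {s : ℝ} (hs : s ≠ 0) : fk b s = (1 - Real.cos (s * b)) / s ^ 2 := by
  have hd : ∀ θ ∈ Set.uIcc (0 : ℝ) b,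
      HasDerivAt (fun θ => (b - θ) * Real.sin (s * θ) / s - Real.cos (s * θ) / s ^ 2)
        ((b - θ) * Real.cos (s * θ)) θ := by
    intro θ _
    have h1 : HasDerivAt (fun θ => s * θ) s θ := by simpa using (hasDerivAt_id θ).const_mul s
    have h2 : HasDerivAt (fun θ => b - θ) (-1) θ := by simpa using (hasDerivAt_id θ).const_sub b
    have h3 := ((h2.mul h1.sin).div_const s).sub (h1.cos.div_const (s ^ 2))
    refine HasDerivAt.congr_deriv h3 ?_
    field_simp; ring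
  rw [fk, intervalIntegral.integral_eq_sub_of_hasDerivAt hd
    (Continuous.intervalIntegrable (by fun_prop) _ _)]
  simp; ring

lemma fk_nn (b s : ℝ) : 0 ≤ fk b s := by
  by_cases hs : s = 0
  · subst hs
    simp only [fk, zero_mul, Real.cos_zero, mul_one, int_tri]; positivity
  · rw [fk_eq b hs]
    exact div_nonneg (by linarith [Real.cos_le_one (s * b)]) (sq_nonneg _)

lemma fk_le {b : ℝ} (hb : 0 ≤ b) (s : ℝ) : fk b s ≤ b ^ 2 / 2 := by
  rw [← int_tri]
  refine intervalIntegral.integral_mono_on hb (Continuous.intervalIntegrable (by fun_prop) _ _)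
    (Continuous.intervalIntegrable (by fun_prop) _ _) fun θ hθ => ?_
  exact mul_le_of_le_one_right (by linarith [hθ.2]) (Real.cos_le_one _)

lemma fk_le' (b : ℝ) {s : ℝ} (hs : s ≠ 0) : fk b s ≤ 2 / s ^ 2 := by
  rw [fk_eq b hs]
  exact div_le_div_of_nonneg_right (by linarith [Real.neg_one_le_cos (s * b)]) (sq_nonneg _)

lemma fk_ge {b s : ℝ} (hb : 0 ≤ b) (h : |s| * b ≤ 1) : b ^ 2 / 4 ≤ fk b s := by
  have : b ^ 2 / 4 = ∫ θ in (0 : ℝ)..b, (b - θ) * (1 / 2) := by
    rw [intervalIntegral.integral_mul_const, int_tri]; ring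
  rw [this]
  refine intervalIntegral.integral_mono_on hb (Continuous.intervalIntegrable (by fun_prop) _ _)
    (Continuous.intervalIntegrable (by fun_prop) _ _) fun θ hθ => ?_
  refine mul_le_mul_of_nonneg_left ?_ (by linarith [hθ.2])
  have h1 : |s * θ| ≤ 1 := by
    rw [abs_mul, abs_of_nonneg hθ.1]
    exact (mul_le_mul_of_nonneg_left hθ.2 (abs_nonneg s)).trans h
  have h2 := Real.one_sub_sq_div_two_le_cos (x := s * θ)
  have h3 : (s * θ) ^ 2 ≤ 1 := by rwa [sq_le_one_iff_abs_le_one]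
  linarith

lemma fk_hasSum {c s : ℕ → ℝ} (hc0 : ∀ m, 0 ≤ c m) (hc : Summable c) {b : ℝ} (hb : 0 ≤ b)
    {F : ℝ → ℝ} (hF : ∀ θ, HasSum (fun m => c m * Real.cos (s m * θ)) (F θ)) :
    HasSum (fun m => c m * fk b (s m)) (∫ θ in (0 : ℝ)..b, (b - θ) * F θ) := by
  have := intervalIntegral.hasSum_integral_of_dominated_convergence (μ := volume) (a := 0) (b := b)
    (F := fun m θ => (b - θ) * (c m * Real.cos (s m * θ))) (f := fun θ => (b - θ) * F θ)
    (fun m _ => b * c m)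
    (fun m => Continuous.aestronglyMeasurable (by fun_prop))
    (fun m => Filter.Eventually.of_forall fun θ hθ => by
      rw [Set.uIoc_of_le hb] at hθ
      rw [norm_mul, norm_mul, Real.norm_eq_abs, Real.norm_eq_abs, Real.norm_eq_abs,
        abs_of_nonneg (by linarith [hθ.2]), abs_of_nonneg (hc0 m)]
      exact mul_le_mul (by linarith [hθ.1]) (mul_le_of_le_one_right (hc0 m) (Real.abs_cos_le_one _))
        (mul_nonneg (hc0 m) (abs_nonneg _)) hb)
    (Filter.Eventually.of_forall fun θ _ => hc.mul_left b)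
    (by simp)
    (Filter.Eventually.of_forall fun θ _ => (hF θ).mul_left _)
  refine HasSum.congr_fun this fun m => ?_
  rw [fk, ← intervalIntegral.integral_const_mul]
  exact intervalIntegral.integral_congr fun θ _ => by ring

lemma block_sum {x w : ℕ → ℝ} {G A : ℝ} {h : ℕ} (hh : 1 ≤ h) (hx : ∀ m, 0 ≤ x m)
    (hG : ∀ s, ∑ m ∈ range h, x (s + m) ≤ G) (hA0 : 0 ≤ A) (hA : ∀ m, w m ≤ A)
    (hw : ∀ m, 1 ≤ m → w m ≤ 2 / (m : ℝ) ^ 2) (i : ℕ) :
    ∑ m ∈ range (h * (i + 1)), x m * w m ≤ G * (A + 2 / (h : ℝ) ^ 2 * (2 - 2 / (i + 1))) := by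
  have hhr : (0 : ℝ) < h := by exact_mod_cast hh
  have hG0 : 0 ≤ G := le_trans (sum_nonneg fun m _ => hx _) (hG 0)
  induction i with
  | zero =>
    have h1 : ∑ m ∈ range h, x m * w m ≤ ∑ m ∈ range h, x (0 + m) * A :=
      sum_le_sum fun m _ => by rw [zero_add]; exact mul_le_mul_of_nonneg_left (hA m) (hx m)
    rw [← sum_mul] at h1
    have := mul_le_mul_of_nonneg_right (hG 0) hA0
    simp only [zero_add, mul_one, Nat.cast_zero, div_one, sub_self, mul_zero, add_zero]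
    linarith
  | succ i ih =>
    rw [mul_add h (i + 1) 1, mul_one, sum_range_add]
    have h1 : ∑ m ∈ range h, x (h * (i + 1) + m) * w (h * (i + 1) + m)
        ≤ ∑ m ∈ range h, x (h * (i + 1) + m) * (2 / (h : ℝ) ^ 2 * (1 / ((i : ℝ) + 1) ^ 2)) := by
      refine sum_le_sum fun m _ => mul_le_mul_of_nonneg_left ?_ (hx _)
      refine (hw _ (by nlinarith)).trans ?_
      rw [div_mul_div_comm, mul_one, ← mul_pow]
      refine div_le_div_of_nonneg_left (by norm_num) (by positivity) ?_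
      refine pow_le_pow_left₀ (by positivity) ?_ 2
      push_cast
      linarith [(Nat.cast_nonneg m : (0 : ℝ) ≤ m)]
    rw [← sum_mul] at h1
    have h2 := mul_le_mul_of_nonneg_right (hG (h * (i + 1)))
      (show 0 ≤ 2 / (h : ℝ) ^ 2 * (1 / ((i : ℝ) + 1) ^ 2) by positivity)
    have h3 : 1 / ((i : ℝ) + 1) ^ 2 ≤ 2 / (i + 1) - 2 / (i + 1 + 1) := by
      rw [div_sub_div _ _ (by positivity) (by positivity), div_le_div_iff₀ (by positivity)
        (by positivity)]
      nlinarith [(Nat.cast_nonneg i : (0 : ℝ) ≤ i)]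
    have h4 := mul_le_mul_of_nonneg_left h3 (show 0 ≤ G * (2 / (h : ℝ) ^ 2) by positivity)
    push_cast
    linarith

variable {S : Type} [Fintype S] [DecidableEq S]

lemma Gz_hasSum {Q : Matrix S S ℝ} {γ : ℝ} (hQ : Sub Q γ) (θ : ℝ) (a b : S) :
    HasSum (fun m => ez θ ^ m * ((Q ^ m) a b : ℝ)) (Gz Q θ a b) := by
  exact HasSum.congr_fun (cz_summable hQ θ a b).hasSum fun m => (cz_pow _ _ _ _ _).symm

lemma ez_cont : Continuous ez := by unfold ez; fun_prop

lemma Gz_cont {Q : Matrix S S ℝ} {γ : ℝ} (hQ : Sub Q γ) (a b : S) :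
    Continuous fun θ => Gz Q θ a b := by
  refine continuous_tsum (f := fun m θ => (cz Q (ez θ) ^ m) a b) (fun m => ?_) (hQ.summable a b)
    fun m θ => (norm_cz_pow hQ.nonneg θ m a b).le
  simp only [cz_pow]
  exact (ez_cont.pow m).mul continuous_const

lemma psi_int {Q : Matrix S S ℝ} {γ : ℝ} (hQ : Sub Q γ) {h : ℕ} (hh : 1 ≤ h) (v : S) {a l : ℝ}
    (ha : a * (14 * h) = 1) (hl0 : 0 ≤ l) (hl : l * Gt Q h v ≤ 1 / 2) :
    ∫ θ in (0 : ℝ)..a, (1 - l + 2 * l * (Gz Q θ v v).re) ≤ 788 * a := by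
  have hhr : (0 : ℝ) < h := by exact_mod_cast hh
  have ha0 : 0 < a := by
    by_contra hc
    push Not at hc
    have := mul_nonpos_of_nonpos_of_nonneg hc (show (0 : ℝ) ≤ 14 * h by positivity)
    linarith
  have hl1 : l ≤ 1 / 2 := by
    have := mul_le_mul_of_nonneg_left (one_le_Gt hQ.nonneg h v) hl0
    linarith
  have hc : Continuous fun θ => (Gz Q θ v v).re := Complex.continuous_re.comp (Gz_cont hQ v v)
  have hp : ∀ θ, 0 ≤ 1 - l + 2 * l * (Gz Q θ v v).re := fun θ => psi_nn hQ θ v hl0 (by linarith)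
  have e1 : a * ∫ θ in (0 : ℝ)..a, (1 - l + 2 * l * (Gz Q θ v v).re)
      ≤ ∫ θ in (0 : ℝ)..a, (2 * a - θ) * (1 - l + 2 * l * (Gz Q θ v v).re) := by
    rw [← intervalIntegral.integral_const_mul]
    refine intervalIntegral.integral_mono_on ha0.le
      (Continuous.intervalIntegrable (by fun_prop) _ _)
      (Continuous.intervalIntegrable (by fun_prop) _ _) fun θ hθ => ?_
    exact mul_le_mul_of_nonneg_right (by linarith [hθ.2]) (hp θ)
  have e2 : ∫ θ in (0 : ℝ)..a, (2 * a - θ) * (1 - l + 2 * l * (Gz Q θ v v).re)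
      ≤ ∫ θ in (0 : ℝ)..(2 * a), (2 * a - θ) * (1 - l + 2 * l * (Gz Q θ v v).re) := by
    refine intervalIntegral.integral_mono_interval le_rfl ha0.le (by linarith) ?_
      (Continuous.intervalIntegrable (by fun_prop) _ _)
    rw [Filter.EventuallyLE, ae_restrict_iff' measurableSet_Ioc]
    exact Filter.Eventually.of_forall fun θ hθ => mul_nonneg (by linarith [hθ.2]) (hp θ)
  have e3 : ∫ θ in (0 : ℝ)..(2 * a), (2 * a - θ) * (1 - l + 2 * l * (Gz Q θ v v).re)
      = (1 - l) * (2 * a ^ 2) + 2 * l * ∫ θ in (0 : ℝ)..(2 * a), (2 * a - θ) * (Gz Q θ v v).re := by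
    have : (2 * a ^ 2) = ∫ θ in (0 : ℝ)..(2 * a), (2 * a - θ) := by rw [int_tri]; ring
    rw [this, ← intervalIntegral.integral_const_mul, ← intervalIntegral.integral_const_mul,
      ← intervalIntegral.integral_add (Continuous.intervalIntegrable (by fun_prop) _ _)
        (Continuous.intervalIntegrable (by fun_prop) _ _)]
    exact intervalIntegral.integral_congr fun θ _ => by ring
  have e4 := fk_hasSum (c := fun m => (Q ^ m) v v) (s := fun m => m) (fun m => hQ.pn m v v)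
    (hQ.summable v v) (b := 2 * a) (by linarith) (F := fun θ => (Gz Q θ v v).re) (fun θ => by
      refine HasSum.congr_fun (Complex.hasSum_re (Gz_hasSum hQ θ v v)) fun m => ?_
      rw [ez_pow, Complex.mul_re, ez_re]; simp [mul_comm])
  have hG0 : 0 ≤ Gt Q h v := zero_le_one.trans (one_le_Gt hQ.nonneg h v)
  have e5 : ∫ θ in (0 : ℝ)..(2 * a), (2 * a - θ) * (Gz Q θ v v).re ≤ Gt Q h v * (786 * a ^ 2) := by
    refine le_of_tendsto' e4.tendsto_sum_nat fun M => ?_
    have b1 := block_sum (x := fun m => (Q ^ m) v v) (w := fun m => fk (2 * a) m) (G := Gt Q h v)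
      (A := (2 * a) ^ 2 / 2) hh (fun m => hQ.pn m v v) (fun s => le_trans
        (sum_le_sum_of_subset_of_nonneg (range_subset_range.2 (Nat.le_succ h))
          fun m _ _ => hQ.pn _ v v) (window hQ s h v v)) (by positivity)
      (fun m => fk_le (by linarith) _)
      (fun m hm => fk_le' _ (by exact_mod_cast Nat.one_le_iff_ne_zero.1 hm)) M
    have b2 : ∑ m ∈ range M, (Q ^ m) v v * fk (2 * a) m
        ≤ ∑ m ∈ range (h * (M + 1)), (Q ^ m) v v * fk (2 * a) m :=
      sum_le_sum_of_subset_of_nonneg (range_subset_range.2 (by nlinarith))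
        fun m _ _ => mul_nonneg (hQ.pn _ v v) (fk_nn _ _)
    refine b2.trans (b1.trans (mul_le_mul_of_nonneg_left ?_ hG0))
    have b3 : 2 / (h : ℝ) ^ 2 = 392 * a ^ 2 := by
      rw [div_eq_iff (by positivity)]
      linear_combination (-2) * (a * (14 * h) + 1) * ha
    have b4 : 0 ≤ a ^ 2 * (2 / ((M : ℝ) + 1)) := by positivity
    rw [b3]
    linarith
  have e6 := mul_le_mul_of_nonneg_left e5 (show 0 ≤ 2 * l by linarith)
  have e7 := mul_le_mul_of_nonneg_right hl (show 0 ≤ 2 * (786 * a ^ 2) by positivity)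
  have e8 : 0 ≤ l * a ^ 2 := by positivity
  refine le_of_mul_le_mul_left ?_ ha0
  linarith

lemma res_sq {M : Matrix S S ℂ} (h1 : ∀ a b, Summable fun m => (M ^ m) a b)
    (h2 : ∀ a b, Summable fun m : ℕ => ((m : ℂ) + 1) * (M ^ m) a b) (a b : S) :
    HasSum (fun m : ℕ => ((m : ℂ) + 1) * (M ^ m) a b) ((res M * res M) a b) := by
  set H : Matrix S S ℂ := fun a b => ∑' m : ℕ, ((m : ℂ) + 1) * (M ^ m) a b with hH
  have e1 : H = res M + M * H := by
    ext a b
    have s1 : HasSum (fun m : ℕ => ((m : ℂ) + 1) * (M ^ (m + 1)) a b) ((M * H) a b) := by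
      rw [Matrix.mul_apply]
      refine HasSum.congr_fun (hasSum_sum fun c _ => (h2 c b).hasSum.mul_left (M a c)) fun m => ?_
      rw [pow_succ', Matrix.mul_apply, mul_sum]
      exact sum_congr rfl fun c _ => by ring
    have s2 : HasSum (fun m : ℕ => (m : ℂ) * (M ^ m) a b) ((M * H) a b) := by
      have := (hasSum_nat_add_iff (f := fun m : ℕ => (m : ℂ) * (M ^ m) a b) 1).1
        (by simpa using s1)
      simpa using this
    have s3 := (h1 a b).hasSum.add s2
    rw [Matrix.add_apply]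
    exact (HasSum.congr_fun s3 fun m => by ring).tsum_eq
  have e2 : (1 - M) * H = res M := by
    rw [Matrix.sub_mul, Matrix.one_mul]
    nth_rewrite 1 [e1]
    simp
  have e3 : res M * res M = H := by
    nth_rewrite 2 [← e2]
    rw [← Matrix.mul_assoc, inv_comm (res_mul h1), Matrix.one_mul]
  rw [e3]
  exact (h2 a b).hasSum

lemma Sub.summable' {Q : Matrix S S ℝ} {γ : ℝ} (hQ : Sub Q γ) (a b : S) :
    Summable fun m : ℕ => ((m : ℝ) + 1) * (Q ^ m) a b := by
  have h1 := summable_pow_mul_geometric_of_norm_lt_one (R := ℝ) 1 (r := γ)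
    (by rw [Real.norm_eq_abs, abs_of_nonneg hQ.g0]; exact hQ.g1)
  have h2 := h1.add (summable_geometric_of_lt_one hQ.g0 hQ.g1)
  refine Summable.of_nonneg_of_le (fun m => mul_nonneg (by positivity) (hQ.pn _ _ _))
    (fun m => ?_) h2
  have := mul_le_mul_of_nonneg_left (hQ.ple m a b) (show (0 : ℝ) ≤ m + 1 by positivity)
  linarith

/-- the majorant of the size-biased characteristic function -/
noncomputable def Ph (Q : Matrix S S ℝ) (e : S → ℝ) (x : S) (θ : ℝ) : ℝ :=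
  ∑ v, ‖Gz Q θ x v * (Gz Q θ *ᵥ fun c => (e c : ℂ)) v‖

lemma Ph_term_cont {Q : Matrix S S ℝ} {γ : ℝ} (hQ : Sub Q γ) (e : S → ℝ) (x v : S) :
    Continuous fun θ => ‖Gz Q θ x v * (Gz Q θ *ᵥ fun c => (e c : ℂ)) v‖ := by
  refine ((Gz_cont hQ x v).mul ?_).norm
  simp only [mv_apply]
  exact continuous_finsetSum _ fun c _ => (Gz_cont hQ v c).mul continuous_const

lemma Ph_cont {Q : Matrix S S ℝ} {γ : ℝ} (hQ : Sub Q γ) (e : S → ℝ) (x : S) :
    Continuous (Ph Q e x) := continuous_finsetSum _ fun v _ => Ph_term_cont hQ e x v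

lemma Ph_bdd {Q : Matrix S S ℝ} {γ : ℝ} (hQ : Sub Q γ) (e : S → ℝ) (x : S) :
    ∃ B, ∀ θ, Ph Q e x θ ≤ B := by
  refine ⟨∑ v, res Q x v * ∑ c, res Q v c * |e c|, fun θ => sum_le_sum fun v _ => ?_⟩
  rw [norm_mul]
  refine mul_le_mul (norm_Gz_le hQ θ x v) ?_ (norm_nonneg _) (res_nn hQ.nonneg _ _)
  rw [mv_apply]
  refine (norm_sum_le _ _).trans (sum_le_sum fun c _ => ?_)
  rw [norm_mul, Complex.norm_real, Real.norm_eq_abs]
  exact mul_le_mul_of_nonneg_right (norm_Gz_le hQ θ v c) (abs_nonneg _)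

lemma fejer_main {Q : Matrix S S ℝ} {γ : ℝ} (hQ : Sub Q γ) {e : S → ℝ} (he : ∀ c, 0 ≤ e c) (x : S)
    {t n : ℕ} {a : ℝ} (ha0 : 0 < a) (ha : n * a ≤ 1) (W : Finset ℕ)
    (hW : ∀ m ∈ W, t ≤ m + 1 ∧ m + 1 ≤ t + n) :
    t * a / 4 * ∑ m ∈ W, ((Q ^ m) *ᵥ e) x ≤ ∫ θ in (0 : ℝ)..a, Ph Q e x θ := by
  have hf0 : ∀ m, 0 ≤ ((Q ^ m) *ᵥ e) x := fun m => mv_nn (hQ.pn m) he x
  have hs : Summable fun m : ℕ => ((m : ℝ) + 1) * ((Q ^ m) *ᵥ e) x := by
    simp only [mv_apply, mul_sum]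
    exact summable_sum fun c _ => ((hQ.summable' x c).mul_right (e c)).congr fun m => by ring
  set Φ : ℝ → ℂ := fun θ => ((Gz Q θ * Gz Q θ) *ᵥ fun c => (e c : ℂ)) x * ez ((1 - t) * θ) with hΦ
  have hΦ1 : ∀ θ, ‖Φ θ‖ ≤ Ph Q e x θ := by
    intro θ
    rw [hΦ]
    simp only
    rw [norm_mul, norm_ez, mul_one, ← Matrix.mulVec_mulVec, mv_apply]
    exact norm_sum_le _ _
  have hΦ2 : ∀ θ, HasSum (fun m : ℕ => ((m : ℝ) + 1) * ((Q ^ m) *ᵥ e) x
      * Real.cos ((m + 1 - t) * θ)) (Φ θ).re := by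
    intro θ
    have s1 : ∀ a b, Summable fun m : ℕ => ((m : ℂ) + 1) * (cz Q (ez θ) ^ m) a b := by
      intro a b
      refine Summable.of_norm ((hQ.summable' a b).congr fun m => ?_)
      rw [norm_mul, norm_cz_pow hQ.nonneg]
      congr 1
      rw [show ((m : ℂ) + 1) = ((m + 1 : ℝ) : ℂ) by push_cast; ring, Complex.norm_real,
        Real.norm_eq_abs, abs_of_nonneg (by positivity)]
    have s2 := (hasSum_sum (s := univ) fun c _ =>
      (res_sq (cz_summable hQ θ) s1 x c).mul_right (e c : ℂ)).mul_right (ez ((1 - t) * θ))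
    refine HasSum.congr_fun (Complex.hasSum_re s2) fun m => ?_
    have s3 : (∑ c, ((m : ℂ) + 1) * (cz Q (ez θ) ^ m) x c * (e c : ℂ)) * ez ((1 - t) * θ)
        = ((((m : ℝ) + 1) * ((Q ^ m) *ᵥ e) x : ℝ) : ℂ) * ez ((m + 1 - t) * θ) := by
      have s4 : ez ((m + 1 - t) * θ) = ez θ ^ m * ez ((1 - t) * θ) := by
        rw [ez_pow, ez, ez, ez, ← Complex.exp_add]; congr 1; push_cast; ring
      rw [s4, mv_apply]
      push_cast
      rw [mul_sum, sum_mul, sum_mul]
      exact sum_congr rfl fun c _ => by rw [cz_pow]; ring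
    rw [s3, Complex.re_ofReal_mul, ez_re]
  have e1 := fk_hasSum (fun m => mul_nonneg (by positivity) (hf0 m)) hs ha0.le hΦ2
  have e2 := sum_le_hasSum W (fun m _ => mul_nonneg (mul_nonneg (by positivity) (hf0 m))
    (fk_nn _ _)) e1
  have e3 : a * (t * a / 4 * ∑ m ∈ W, ((Q ^ m) *ᵥ e) x)
      ≤ ∑ m ∈ W, ((m : ℝ) + 1) * ((Q ^ m) *ᵥ e) x * fk a (m + 1 - t) := by
    rw [mul_sum, mul_sum]
    refine sum_le_sum fun m hm => ?_
    have w1 : (t : ℝ) ≤ m + 1 := by exact_mod_cast (hW m hm).1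
    have w2 : (m : ℝ) + 1 ≤ t + n := by exact_mod_cast (hW m hm).2
    have w3 : a ^ 2 / 4 ≤ fk a (m + 1 - t) := by
      refine fk_ge ha0.le ?_
      rw [abs_of_nonneg (by linarith)]
      exact (mul_le_mul_of_nonneg_right (by linarith) ha0.le).trans ha
    have := mul_le_mul (mul_le_mul_of_nonneg_right w1 (hf0 m)) w3 (by positivity)
      (mul_nonneg (by positivity) (hf0 m))
    linarith
  have hΦc : Continuous Φ := by
    rw [hΦ]
    refine Continuous.mul ?_ (ez_cont.comp (by fun_prop))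
    simp only [mv_apply, Matrix.mul_apply]
    exact continuous_finsetSum _ fun c _ => (continuous_finsetSum _ fun d _ =>
      (Gz_cont hQ _ _).mul (Gz_cont hQ _ _)).mul continuous_const
  have hPc := Ph_cont hQ e x
  have e4 : ∫ θ in (0 : ℝ)..a, (a - θ) * (Φ θ).re ≤ a * ∫ θ in (0 : ℝ)..a, Ph Q e x θ := by
    rw [← intervalIntegral.integral_const_mul]
    refine intervalIntegral.integral_mono_on ha0.le
      (Continuous.intervalIntegrable (by fun_prop) _ _)
      (Continuous.intervalIntegrable (by fun_prop) _ _) fun θ hθ => ?_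
    have i1 : (Φ θ).re ≤ Ph Q e x θ := (Complex.re_le_norm _).trans (hΦ1 θ)
    have i2 : 0 ≤ Ph Q e x θ := (norm_nonneg _).trans (hΦ1 θ)
    exact (mul_le_mul_of_nonneg_left i1 (by linarith [hθ.2])).trans
      (mul_le_mul_of_nonneg_right (by linarith [hθ.1]) i2)
  exact le_of_mul_le_mul_left (e3.trans (e2.trans e4)) ha0

end Pool.Agent.Lib.MP_eadfc1_pr.Up
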