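import Pool.Agent.Lib.MP_eadfc1_pr.UpShort

namespace Pool.Agent.Lib.MP_eadfc1_pr.Up

open Finset Matrix PowerSeries

variable {S : Type} [Fintype S] [DecidableEq S]

/-- rows of `Q` scaled by `d` -/
def rs (d : S → ℝ) (Q : Matrix S S ℝ) : Matrix S S ℝ := fun a b => d a * Q a b

lemma Sub.rs {Q : Matrix S S ℝ} {γ : ℝ} (h : Sub Q γ) {d : S → ℝ} (h0 : ∀ a, 0 ≤ d a)
    (h1 : ∀ a, d a ≤ 1) : Sub (rs d Q) γ :=
  h.mono (fun a b => mul_nonneg (h0 a) (h.nonneg a b))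
    fun a b => mul_le_of_le_one_left (h.nonneg a b) (h1 a)

lemma Sub.smul {Q : Matrix S S ℝ} {γ : ℝ} (h : Sub Q γ) {c : ℝ} (h0 : 0 ≤ c) (h1 : c ≤ 1) :
    Sub (c • Q) γ :=
  h.mono (fun a b => mul_nonneg h0 (h.nonneg a b))
    fun a b => mul_le_of_le_one_left (h.nonneg a b) h1

omit [DecidableEq S] in
lemma mv_apply {K : Type} [CommRing K] (M : Matrix S S K) (v : S → K) (a : S) :
    (M *ᵥ v) a = ∑ c, M a c * v c := rfl

omit [DecidableEq S] in
lemma mv_mono {M : Matrix S S ℝ} (hM : ∀ a b, 0 ≤ M a b) {v w : S → ℝ} (h : ∀ c, v c ≤ w c)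
    (a : S) : (M *ᵥ v) a ≤ (M *ᵥ w) a :=
  sum_le_sum fun c _ => mul_le_mul_of_nonneg_left (h c) (hM a c)

omit [DecidableEq S] in
lemma mv_nn {M : Matrix S S ℝ} (hM : ∀ a b, 0 ≤ M a b) {v : S → ℝ} (h : ∀ c, 0 ≤ v c)
    (a : S) : 0 ≤ (M *ᵥ v) a :=
  sum_nonneg fun c _ => mul_nonneg (hM a c) (h c)

lemma res_mv_hasSum {M : Matrix S S ℝ} {γ : ℝ} (h : Sub M γ) (v : S → ℝ) (a : S) :
    HasSum (fun m => ((M ^ m) *ᵥ v) a) ((res M *ᵥ v) a) :=
  hasSum_sum fun c _ => (h.summable a c).hasSum.mul_right (v c)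

lemma res_mv_eq {M : Matrix S S ℝ} {γ : ℝ} (h : Sub M γ) (v : S → ℝ) :
    res M *ᵥ v = v + M *ᵥ (res M *ᵥ v) := by
  nth_rewrite 1 [inv_left (res_inv h)]
  rw [Matrix.add_mulVec, Matrix.one_mulVec, Matrix.mulVec_mulVec]

lemma res_mv_cancel {M : Matrix S S ℝ} {γ : ℝ} (h : Sub M γ) (v : S → ℝ) :
    res M *ᵥ (v - M *ᵥ v) = v := by
  have : v - M *ᵥ v = (1 - M) *ᵥ v := by rw [Matrix.sub_mulVec, Matrix.one_mulVec]
  rw [this, Matrix.mulVec_mulVec, inv_comm (res_inv h), Matrix.one_mulVec]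

lemma iter_le {Q : Matrix S S ℝ} (hQ : ∀ a b, 0 ≤ Q a b) {u f : S → ℝ}
    (hu : ∀ a, u a ≤ f a + (Q *ᵥ u) a) (i : ℕ) (a : S) :
    u a ≤ ∑ j ∈ range i, ((Q ^ j) *ᵥ f) a + ((Q ^ i) *ᵥ u) a := by
  induction i with
  | zero => simp
  | succ i ih =>
    rw [sum_range_succ, pow_succ, ← Matrix.mulVec_mulVec]
    have := mv_mono (pow_nn hQ i) (w := f + Q *ᵥ u) hu a
    rw [Matrix.mulVec_add, Pi.add_apply] at this
    linarith

lemma avg_le {Q : Matrix S S ℝ} (hQ : ∀ a b, 0 ≤ Q a b) {u f : S → ℝ} (hf : ∀ a, 0 ≤ f a)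
    (hu : ∀ a, u a ≤ f a + (Q *ᵥ u) a) (h : ℕ) (a : S) :
    h * u a ≤ h * ∑ j ∈ range h, ((Q ^ j) *ᵥ f) a + ∑ j ∈ range h, ((Q ^ j) *ᵥ (Q *ᵥ u)) a := by
  have h1 : ∀ i ∈ range h, u a ≤ ∑ j ∈ range h, ((Q ^ j) *ᵥ f) a + ((Q ^ i) *ᵥ (Q *ᵥ u)) a := by
    intro i hi
    have := iter_le hQ hu (i + 1) a
    rw [pow_succ, ← Matrix.mulVec_mulVec] at this
    have h2 : ∑ j ∈ range (i + 1), ((Q ^ j) *ᵥ f) a ≤ ∑ j ∈ range h, ((Q ^ j) *ᵥ f) a :=
      sum_le_sum_of_subset_of_nonneg (range_subset_range.2 (mem_range.1 hi))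
        fun j _ _ => mv_nn (pow_nn hQ j) hf a
    linarith
  have := sum_le_sum h1
  simpa [sum_add_distrib] using this

lemma res_row {M : Matrix S S ℝ} {γ β : ℝ} (h : Sub M γ) (hr : ∀ a, ∑ b, M a b ≤ β) (a : S) :
    (∑ b, res M a b) * (1 - β) ≤ 1 := by
  have h1 : ∑ b, res M a b = 1 + ∑ c, res M a c * ∑ b, M c b := by
    have : ∀ b, res M a b = (1 : Matrix S S ℝ) a b + ∑ c, res M a c * M c b := fun b =>
      congrFun (congrFun (inv_right (res_inv h)) a) b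
    rw [sum_congr rfl fun b _ => this b, sum_add_distrib, sum_comm]
    simp [Matrix.one_apply, mul_sum]
  have h2 : ∑ c, res M a c * ∑ b, M c b ≤ ∑ c, res M a c * β :=
    sum_le_sum fun c _ => mul_le_mul_of_nonneg_left (hr c) (res_nn h.nonneg a c)
  rw [← sum_mul] at h2
  linarith

lemma kill {Q : Matrix S S ℝ} {γ : ℝ} (hQ : Sub Q γ) {h : ℕ} (hh : 1 ≤ h) {θ : ℝ} (h0 : 0 ≤ θ)
    (h1 : 14 * h * θ ≤ 1) {κ : S → ℝ} (hκ0 : ∀ u, 0 ≤ κ u)
    (hκ : ∀ u, κ u ≤ θ ^ 2 / 10240 * (Gt Q h u - 1)) (a b : S) :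
    ‖Gz Q θ a b‖ ≤ res (rs (fun u => 1 - κ u) Q) a b := by
  have hhr : (1 : ℝ) ≤ h := by exact_mod_cast hh
  obtain ⟨q, hq⟩ : ∃ q : ℝ, q = 1 / (2 * h) := ⟨_, rfl⟩
  have hqh : q * h = 1 / 2 := by rw [hq]; field_simp
  have hq0 : 0 < q := by rw [hq]; positivity
  have hq1 : q ≤ 1 / 2 := by nlinarith
  obtain ⟨ρ, hρ⟩ : ∃ ρ : ℝ, ρ = 1 - q := ⟨_, rfl⟩
  obtain ⟨σ, hσ⟩ : ∃ σ : ℝ, σ = ρ + q / 4 := ⟨_, rfl⟩
  have hρ0 : 0 ≤ ρ := by linarith
  have hρh : ∀ j ≤ h, 1 / 2 ≤ ρ ^ j := by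
    intro j hj
    have := one_add_mul_le_pow (a := -q) (by linarith) j
    have hj' : (j : ℝ) ≤ h := by exact_mod_cast hj
    have h3 := mul_le_mul_of_nonneg_left hj' hq0.le
    rw [hρ, sub_eq_add_neg]; linarith
  have hσρ : ∀ i, 6 * h < i → 5 * ρ ^ i ≤ 3 * σ ^ i := by
    intro i hi
    have h2 : ρ * (1 + q / 4) ≤ σ := by nlinarith
    have h3 := pow_le_pow_left₀ (by positivity) h2 i
    have h4 := one_add_mul_le_pow (a := q / 4) (by linarith) i
    have hi' : (6 * h : ℝ) ≤ i := by exact_mod_cast hi.le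
    have h5 := mul_le_mul_of_nonneg_left hi' hq0.le
    have h6 : 5 / 3 ≤ (1 + q / 4) ^ i := by linarith
    rw [mul_pow] at h3
    have := mul_le_mul_of_nonneg_left h6 (pow_nonneg hρ0 i)
    linarith
  have hθh : (θ * h) ^ 2 ≤ 1 := pow_le_one₀ (by positivity) (by nlinarith)
  have hκq : ∀ u, κ u ≤ q / 4 := by
    intro u
    have h2 : θ ^ 2 / 10240 * (Gt Q h u - 1) ≤ θ ^ 2 / 10240 * h :=
      mul_le_mul_of_nonneg_left (by linarith [Gt_le hQ h u]) (by positivity)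
    have h3 : θ ^ 2 / 10240 * h * h ≤ q / 4 * h := by nlinarith
    have h4 := le_of_mul_le_mul_right h3 (by linarith)
    linarith [hκ u]
  have hK := hQ.rs (d := fun u => 1 - κ u) (fun u => by linarith [hκq u])
    (fun u => by linarith [hκ0 u])
  have hR := hQ.smul hρ0 (by linarith)
  have hS := hQ.smul (c := σ) (by linarith) (by linarith)
  obtain ⟨u, hudef⟩ : ∃ u : S → ℝ, u = fun c => res (rs (fun u => 1 - κ u) Q) c b := ⟨_, rfl⟩
  obtain ⟨f, hf⟩ : ∃ f : S → ℝ, f = fun c => (1 : Matrix S S ℝ) c b := ⟨_, rfl⟩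
  have hf0 : ∀ c, 0 ≤ f c := fun c => by
    simp only [hf, Matrix.one_apply]; split_ifs <;> norm_num
  have hu0 : ∀ c, 0 ≤ u c := fun c => by rw [hudef]; exact res_nn hK.nonneg c b
  have hQu : ∀ c, 0 ≤ (Q *ᵥ u) c := mv_nn hQ.nonneg hu0
  have hu : ∀ c, u c = f c + (1 - κ c) * (Q *ᵥ u) c := by
    intro c
    have := congrFun (congrFun (inv_left (res_inv hK)) c) b
    rw [Matrix.add_apply, Matrix.mul_apply] at this
    rw [mv_apply, mul_sum, hf, hudef]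
    simp only
    rw [this]
    simp only [rs, mul_assoc]
  obtain ⟨g, hg⟩ : ∃ g : S → ℝ, g = fun c => κ c * (Q *ᵥ u) c := ⟨_, rfl⟩
  have hg0 : ∀ c, 0 ≤ g c := fun c => by rw [hg]; exact mul_nonneg (hκ0 c) (hQu c)
  have hg2 : ∀ c, g c ≤ 2 * κ c * u c := by
    intro c
    have h2 : (Q *ᵥ u) c ≤ 2 * u c := by
      have := mul_le_mul_of_nonneg_right (show 1 / 2 ≤ 1 - κ c by linarith [hκq c]) (hQu c)
      linarith [hu c, hf0 c]
    have := mul_le_mul_of_nonneg_left h2 (hκ0 c)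
    rw [hg]; simp only; linarith
  obtain ⟨U, hUdef⟩ : ∃ U : S → ℝ, U = res (σ • Q) *ᵥ g := ⟨_, rfl⟩
  have hU0 : ∀ c, 0 ≤ U c := fun c => by rw [hUdef]; exact mv_nn (res_nn hS.nonneg) hg0 c
  have hU : ∀ c, U c = g c + σ * (Q *ᵥ U) c := by
    intro c
    have := congrFun (res_mv_eq hS g) c
    rw [← hUdef, Matrix.smul_mulVec] at this
    exact this
  have hUu : ∀ c, U c ≤ u c / 2 := by
    intro c
    have := max_principle hS.nonneg hS.row hS.g1 (D := fun c => U c - u c / 2) (fun c => ?_) c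
    · linarith
    · have e1 : ((σ • Q) *ᵥ (U - (1 / 2 : ℝ) • u)) c
          ≤ ((σ • Q) *ᵥ fun c => max (U c - u c / 2) 0) c :=
        mv_mono hS.nonneg (fun d => le_max_of_le_left (by simp; linarith)) c
      rw [Matrix.smul_mulVec, Matrix.mulVec_sub, Matrix.mulVec_smul] at e1
      simp only [Pi.smul_apply, Pi.sub_apply, smul_eq_mul] at e1
      have e2 := mul_le_mul_of_nonneg_right (hκq c) (hQu c)
      have e3 : g c = κ c * (Q *ᵥ u) c := by rw [hg]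
      have e4 := hU c
      have e5 := hu c
      have e6 := hf0 c
      refine le_trans ?_ e1
      rw [hσ, hρ] at *
      linarith
  obtain ⟨w, hw⟩ : ∃ w : S → ℝ, w = f + q • (Q *ᵥ (u - U)) := ⟨_, rfl⟩
  have hwl : ∀ c, f c + q / 2 * (Q *ᵥ u) c ≤ w c := by
    intro c
    have e1 : (Q *ᵥ ((1 / 2 : ℝ) • u)) c ≤ (Q *ᵥ (u - U)) c :=
      mv_mono hQ.nonneg (fun d => by simp; linarith [hUu d]) c
    rw [Matrix.mulVec_smul] at e1
    simp only [Pi.smul_apply, smul_eq_mul] at e1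
    have := mul_le_mul_of_nonneg_left e1 hq0.le
    rw [hw]
    simp only [Pi.add_apply, Pi.smul_apply, smul_eq_mul]
    linarith
  have hw0 : ∀ c, 0 ≤ w c := fun c =>
    le_trans (add_nonneg (hf0 c) (mul_nonneg (by positivity) (hQu c))) (hwl c)
  have hRw : ∀ c, (res (ρ • Q) *ᵥ w) c = u c + 5 * (res (ρ • Q) *ᵥ g) c - 4 * U c := by
    intro c
    have e1 : w = (u - (ρ • Q) *ᵥ u) + (5 : ℝ) • g - (4 : ℝ) • (U - (ρ • Q) *ᵥ U) := by
      funext d
      rw [hw, Matrix.smul_mulVec, Matrix.smul_mulVec, Matrix.mulVec_sub]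
      simp only [Pi.add_apply, Pi.smul_apply, Pi.sub_apply, smul_eq_mul]
      have e3 : g d = κ d * (Q *ᵥ u) d := by rw [hg]
      have e4 := hU d
      have e5 := hu d
      rw [hσ, hρ] at *
      linarith
    rw [e1, Matrix.mulVec_sub, Matrix.mulVec_add, Matrix.mulVec_smul, Matrix.mulVec_smul,
      res_mv_cancel hR, res_mv_cancel hR]
    simp
  have hRg : ∀ c, 5 * (res (ρ • Q) *ᵥ g) c - 3 * U c
      ≤ 5 * ∑ i ∈ range (6 * h + 1), (((ρ • Q) ^ i) *ᵥ g) c := by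
    intro c
    have s1 := ((res_mv_hasSum hR g c).mul_left 5).sub ((res_mv_hasSum hS g c).mul_left 3)
    rw [← hUdef] at s1
    have s2 : HasSum (fun i => if i ∈ range (6 * h + 1) then 5 * (((ρ • Q) ^ i) *ᵥ g) c else 0)
        (∑ i ∈ range (6 * h + 1),
          if i ∈ range (6 * h + 1) then 5 * (((ρ • Q) ^ i) *ᵥ g) c else 0) :=
      hasSum_sum_of_ne_finset_zero fun i hi => if_neg hi
    rw [sum_congr rfl fun i hi => if_pos hi, ← mul_sum] at s2
    refine hasSum_le (fun i => ?_) s1 s2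
    have hx : 0 ≤ ((Q ^ i) *ᵥ g) c := mv_nn (hQ.pn i) hg0 c
    simp only [smul_pow, Matrix.smul_mulVec, Pi.smul_apply, smul_eq_mul]
    split_ifs with hi
    · have : 0 ≤ σ ^ i * ((Q ^ i) *ᵥ g) c := mul_nonneg (pow_nonneg (by linarith) i) hx
      linarith
    · have := mul_le_mul_of_nonneg_right (hσρ i (by simp at hi; omega)) hx
      linarith
  have hlong : ∀ c, u c / 8 ≤ ∑ d, tr h (ser (ρ • Q) c d) * w d := by
    intro c
    have e1 := avg_le hQ.nonneg hf0 (u := u) (fun d => by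
      have := mul_nonneg (hκ0 d) (hQu d)
      linarith [hu d]) h c
    have e2 : ∑ d, tr h (ser (ρ • Q) c d) * w d = ∑ j ∈ range (h + 1), ρ ^ j * ((Q ^ j) *ᵥ w) c := by
      simp only [tr_ser, sum_mul, smul_pow, mv_apply, mul_sum, Matrix.smul_apply, smul_eq_mul,
        mul_assoc]
      rw [sum_comm]
    have e3 : ∑ j ∈ range h, (1 / 2 * ((Q ^ j) *ᵥ f) c + q / 4 * ((Q ^ j) *ᵥ (Q *ᵥ u)) c)
        ≤ ∑ j ∈ range (h + 1), ρ ^ j * ((Q ^ j) *ᵥ w) c := by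
      rw [sum_range_succ]
      have e4 : 0 ≤ ρ ^ h * ((Q ^ h) *ᵥ w) c :=
        mul_nonneg (pow_nonneg hρ0 _) (mv_nn (hQ.pn h) hw0 c)
      refine le_trans (sum_le_sum fun j hj => ?_) (le_add_of_nonneg_right e4)
      have e5 : ((Q ^ j) *ᵥ (f + (q / 2) • (Q *ᵥ u))) c ≤ ((Q ^ j) *ᵥ w) c :=
        mv_mono (hQ.pn j) hwl c
      rw [Matrix.mulVec_add, Matrix.mulVec_smul] at e5
      simp only [Pi.add_apply, Pi.smul_apply, smul_eq_mul] at e5
      have e6 := mul_le_mul_of_nonneg_right (hρh j (mem_range.1 hj).le) (mv_nn (hQ.pn j) hw0 c)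
      linarith
    rw [sum_add_distrib, ← mul_sum, ← mul_sum] at e3
    rw [e2]
    refine le_trans ?_ e3
    have e7 : 0 ≤ ∑ j ∈ range h, ((Q ^ j) *ᵥ f) c := sum_nonneg fun j _ => mv_nn (hQ.pn j) hf0 c
    have e8 := mul_le_mul_of_nonneg_left e1 hq0.le
    have e9 : q * (h * u c) = u c / 2 := by rw [← mul_assoc, hqh]; ring
    have e10 : q * (h * ∑ j ∈ range h, ((Q ^ j) *ᵥ f) c)
        = (∑ j ∈ range h, ((Q ^ j) *ᵥ f) c) / 2 := by rw [← mul_assoc, hqh]; ring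
    linarith
  have hk : ∀ c, 80 * κ c ≤ kk (ρ • Q) (6 * h + h) θ c := by
    intro c
    have e1 : (Gt Q h c - 1) / 2 ≤ Gt (ρ • Q) (6 * h + h) c - 1 := by
      have e2 := Gt_mono hR.nonneg (show h ≤ 6 * h + h by omega) c
      have e3 : (Gt Q h c - 1) / 2 ≤ Gt (ρ • Q) h c - 1 := by
        rw [Gt_eq, Gt_eq, add_sub_cancel_left, add_sub_cancel_left, sum_div]
        refine sum_le_sum fun m hm => ?_
        rw [smul_pow, Matrix.smul_apply, smul_eq_mul]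
        have := mul_le_mul_of_nonneg_right (hρh (m + 1) (mem_range.1 hm)) (hQ.pn (m + 1) c c)
        linarith
      linarith
    have := mul_le_mul_of_nonneg_left e1 (show 0 ≤ θ ^ 2 / 64 by positivity)
    rw [kk]
    linarith [hκ c]
  have hTw : ∀ c, 5 * ∑ i ∈ range (6 * h + 1), (((ρ • Q) ^ i) *ᵥ g) c
      ≤ ∑ d, TT (ρ • Q) (6 * h + h) θ c d * w d := by
    intro c
    have e1 : 5 * ∑ i ∈ range (6 * h + 1), (((ρ • Q) ^ i) *ᵥ g) c
        = ∑ v, tr (6 * h) (ser (ρ • Q) c v) * (5 * g v) := by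
      simp only [tr_ser, sum_mul, mv_apply, mul_sum]
      rw [sum_comm]
      exact sum_congr rfl fun _ _ => sum_congr rfl fun _ _ => by ring
    rw [e1]
    simp only [TT, sum_mul]
    rw [sum_comm]
    refine sum_le_sum fun v _ => ?_
    have e2 := (NN.ser hR.nonneg c v).tr_nonneg (6 * h)
    have e3 := kk_nn hR.nonneg (6 * h + h) θ v
    have e4 : 5 * g v ≤ kk (ρ • Q) (6 * h + h) θ v * ∑ d, tr h (ser (ρ • Q) v d) * w d := by
      have := mul_le_mul (hk v) (hlong v) (by linarith [hu0 v]) e3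
      linarith [hg2 v]
    refine (mul_le_mul_of_nonneg_left e4 e2).trans ?_
    rw [mul_sum, mul_sum]
    refine sum_le_sum fun d _ => ?_
    have e5 := le_tr_mul (NN.ser hR.nonneg c v) (NN.ser hR.nonneg v d) (6 * h) h
    have := mul_le_mul_of_nonneg_left e5 (mul_nonneg e3 (hw0 d))
    linarith
  have hsh := fun c d => short (H := 6 * h + h) hR h0 (by push_cast; linarith)
    (by push_cast; nlinarith) c d
  obtain ⟨Rs, hRs⟩ : ∃ Rs : Matrix S S ℝ,
    Rs = fun c d => res (ρ • Q) c d - TT (ρ • Q) (6 * h + h) θ c d := ⟨_, rfl⟩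
  have hsh' : ∀ c d, ‖Gz (ρ • Q) θ c d‖ ≤ Rs c d := fun c d => by rw [hRs]; exact hsh c d
  have hRs0 : ∀ c d, 0 ≤ Rs c d := fun c d => (norm_nonneg _).trans (hsh' c d)
  have hRs1 : ∀ c d, Rs c d ≤ res (ρ • Q) c d := fun c d => by
    rw [hRs]; linarith [TT_nn hR.nonneg (6 * h + h) θ c d]
  have hsup : ∀ c, (Rs *ᵥ w) c ≤ u c - U c := by
    intro c
    have e1 : (Rs *ᵥ w) c = (res (ρ • Q) *ᵥ w) c - ∑ d, TT (ρ • Q) (6 * h + h) θ c d * w d := by
      simp only [hRs, mv_apply, sub_mul, sum_sub_distrib]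
    linarith [hRw c, hRg c, hTw c]
  have hsub : ∀ c, ‖Gz Q θ c b‖ ≤ (Rs *ᵥ (f + q • (Q *ᵥ fun d => ‖Gz Q θ d b‖))) c := by
    intro c
    have e1 := congrFun (congrFun (resolvent1 (Gz_inv hQ θ) (Gz_inv hR θ)) c) b
    rw [Matrix.add_apply, Matrix.mul_assoc, Matrix.mul_apply] at e1
    rw [Matrix.mulVec_add, Pi.add_apply, e1]
    refine (norm_add_le _ _).trans (add_le_add ?_ ?_)
    · simp only [mv_apply, hf, Matrix.one_apply, mul_ite, mul_one, mul_zero, sum_ite_eq', mem_univ,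
        if_true]
      exact hsh' c b
    · rw [mv_apply]
      refine (norm_sum_le _ _).trans (sum_le_sum fun d _ => ?_)
      rw [norm_mul]
      refine mul_le_mul (hsh' c d) ?_ (norm_nonneg _) (hRs0 c d)
      rw [Matrix.mul_apply, Pi.smul_apply, mv_apply, smul_eq_mul, mul_sum]
      refine (norm_sum_le _ _).trans (sum_le_sum fun e _ => le_of_eq ?_)
      have e2 : (cz Q (ez θ) - cz (ρ • Q) (ez θ)) d e = ez θ * ((q * Q d e : ℝ) : ℂ) := by
        simp only [Matrix.sub_apply, cz, Matrix.smul_apply, smul_eq_mul, hρ]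
        push_cast; ring
      rw [e2, norm_mul, norm_mul, norm_ez, one_mul, Complex.norm_real, Real.norm_eq_abs,
        abs_of_nonneg (mul_nonneg hq0.le (hQ.nonneg _ _)), mul_assoc]
  have hγ0 := hQ.g0
  have hγ1 := hQ.g1
  have hden : 0 < 1 - ρ * γ := by nlinarith
  have hfin := max_principle (B := Rs * (q • Q)) (β := q * γ / (1 - ρ * γ))
    (fun c d => sum_nonneg fun e _ => mul_nonneg (hRs0 _ _) (mul_nonneg hq0.le (hQ.nonneg _ _)))
    (fun c => by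
      have e1 := res_row (β := ρ * γ) hR (fun c => by
        simp only [Matrix.smul_apply, smul_eq_mul, ← mul_sum]
        exact mul_le_mul_of_nonneg_left (hQ.row c) hρ0) c
      have e2 : ∑ d, (Rs * (q • Q)) c d ≤ ∑ e, res (ρ • Q) c e * (q * γ) := by
        simp only [Matrix.mul_apply, Matrix.smul_apply, smul_eq_mul]
        rw [sum_comm]
        refine sum_le_sum fun e _ => ?_
        rw [← mul_sum, ← mul_sum]
        exact mul_le_mul (hRs1 c e) (mul_le_mul_of_nonneg_left (hQ.row e) hq0.le)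
          (mul_nonneg hq0.le (sum_nonneg fun d _ => hQ.nonneg _ _)) (res_nn hR.nonneg _ _)
      rw [← sum_mul] at e2
      rw [le_div_iff₀ hden]
      have e3 := mul_le_mul_of_nonneg_right e2 hden.le
      have e4 := mul_le_mul_of_nonneg_right e1 (mul_nonneg hq0.le hγ0)
      linarith)
    (by rw [div_lt_one hden]; nlinarith)
    (D := fun c => ‖Gz Q θ c b‖ - (u c - U c)) (fun c => by
      have e1 : ((Rs * (q • Q)) *ᵥ ((fun d => ‖Gz Q θ d b‖) - (u - U))) c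
          ≤ ((Rs * (q • Q)) *ᵥ fun d => max (‖Gz Q θ d b‖ - (u d - U d)) 0) c :=
        mv_mono (fun c d => sum_nonneg fun e _ =>
          mul_nonneg (hRs0 _ _) (mul_nonneg hq0.le (hQ.nonneg _ _)))
          (fun d => le_max_left _ _) c
      refine le_trans ?_ e1
      have e2 := hsub c
      have e3 := hsup c
      rw [hw] at e3
      rw [← Matrix.mulVec_mulVec, Matrix.smul_mulVec, Matrix.mulVec_sub Q, smul_sub,
        Matrix.mulVec_sub]
      rw [Matrix.mulVec_add] at e2 e3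
      simp only [Pi.add_apply, Pi.sub_apply] at e2 e3 ⊢
      linarith) a
  have := hU0 a
  have e : u a = res (rs (fun u => 1 - κ u) Q) a b := by rw [hudef]
  linarith

end Pool.Agent.Lib.MP_eadfc1_pr.Up
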