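import Mathlib

namespace Pool.Agent.Lib.MP_eadfc1_pr.Up

open Finset

lemma geo_sum {y t : ℕ → ℝ} {K : ℝ} (hy : ∀ j, 0 ≤ y j) (hd : ∀ j, y (j + 1) ≤ y j / 2)
    (ht : ∀ j, 0 ≤ t j) (hK : 0 ≤ K) (h : ∀ j, t j ^ 4 * (1 + y j) ^ 2 ≤ K ^ 4 * y j) (J : ℕ) :
    ∑ j ∈ range J, t j ≤ 24 * K := by
  set r : ℕ → ℝ := fun j => √(√(y j)) with hr
  have hr0 : ∀ j, 0 ≤ r j := fun j => Real.sqrt_nonneg _
  have hr4 : ∀ j, r j ^ 4 = y j := fun j => by
    rw [show r j ^ 4 = (r j ^ 2) ^ 2 by ring, hr]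
    simp only
    rw [Real.sq_sqrt (Real.sqrt_nonneg _), Real.sq_sqrt (hy j)]
  have hrd : ∀ j, r (j + 1) ≤ 7 / 8 * r j := fun j => by
    refine le_of_pow_le_pow_left₀ (n := 4) (by norm_num) (by linarith [hr0 j]) ?_
    rw [mul_pow, hr4, hr4]
    linarith [hd j, hy j]
  have h1 : ∀ j, t j * (1 + r j) ^ 2 ≤ 3 * K * r j := fun j => by
    refine le_of_pow_le_pow_left₀ (n := 4) (by norm_num) (by have := hr0 j; positivity) ?_
    have e1 : (1 + r j) ^ 4 ≤ 8 * (1 + y j) := by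
      rw [← hr4]
      nlinarith [sq_nonneg (r j - 1), sq_nonneg (r j ^ 2 - 1), sq_nonneg ((r j - 1) ^ 2), hr0 j,
        mul_nonneg (hr0 j) (sq_nonneg (r j - 1))]
    have e2 := pow_le_pow_left₀ (by have := hr0 j; positivity) e1 2
    have e3 := mul_le_mul_of_nonneg_left e2 (pow_nonneg (ht j) 4)
    have e4 := h j
    have e5 : 0 ≤ K ^ 4 * y j := mul_nonneg (by positivity) (hy j)
    calc (t j * (1 + r j) ^ 2) ^ 4 = t j ^ 4 * ((1 + r j) ^ 4) ^ 2 := by ring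
      _ ≤ 81 * (K ^ 4 * y j) := by linarith
      _ = (3 * K * r j) ^ 4 := by rw [← hr4]; ring
  have h2 : ∀ j, t j ≤ 24 * K * (1 / (1 + r (j + 1)) - 1 / (1 + r j)) := fun j => by
    have a0 := hr0 j
    have a1 := hr0 (j + 1)
    have a2 := hrd j
    rw [div_sub_div _ _ (by positivity) (by positivity), ← mul_div_assoc,
      le_div_iff₀ (by positivity)]
    have e1 : t j * ((1 + r (j + 1)) * (1 + r j)) ≤ t j * (1 + r j) ^ 2 :=
      mul_le_mul_of_nonneg_left (by nlinarith) (ht j)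
    have e2 := mul_le_mul_of_nonneg_left a2 hK
    linarith [h1 j]
  refine (sum_le_sum fun j _ => h2 j).trans ?_
  rw [← mul_sum, sum_range_sub (fun j => 1 / (1 + r j))]
  refine mul_le_of_le_one_right (by positivity) ?_
  have a0 := hr0 0
  have a1 := hr0 J
  have : 1 / (1 + r J) ≤ 1 := by rw [div_le_one (by positivity)]; linarith
  have : 0 ≤ 1 / (1 + r 0) := by positivity
  linarith

lemma prod_kill {ι : Type} (s : Finset ι) {κ : ι → ℝ} (h0 : ∀ i, 0 ≤ κ i) (h1 : ∀ i, κ i ≤ 1) :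
    (∏ i ∈ s, (1 - κ i)) * (1 + ∑ i ∈ s, κ i) ≤ 1 := by
  classical
  induction s using Finset.induction_on with
  | empty => simp
  | insert a s ha ih =>
    rw [prod_insert ha, sum_insert ha]
    have e1 : 0 ≤ ∏ i ∈ s, (1 - κ i) := prod_nonneg fun i _ => sub_nonneg.2 (h1 i)
    have e2 : 0 ≤ ∑ i ∈ s, κ i := sum_nonneg fun i _ => h0 i
    have e3 : (1 - κ a) * (1 + (κ a + ∑ i ∈ s, κ i)) ≤ 1 + ∑ i ∈ s, κ i := by
      nlinarith [h0 a, mul_nonneg (h0 a) e2]
    have := mul_le_mul_of_nonneg_left e3 e1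
    linarith

lemma pathwise {S : Type} [Fintype S] [DecidableEq S] {n : ℕ} (hn : Fintype.card S = n)
    (hn1 : 1 ≤ n) {G : ℕ → S → ℝ} (hG1 : ∀ j v, 1 ≤ G j v) (hGm : ∀ j v, G j v ≤ G (j + 1) v)
    (hGd : ∀ j v, G (j + 1) v ≤ 2 * G j v) {N : S → ℝ} (hN : ∀ v, 0 ≤ N v) {β : ℝ} (hβ0 : 0 < β)
    (hβ1 : β ≤ 1) {W : ℕ → ℝ} (hW0 : ∀ j, 0 ≤ W j)
    (hW : ∀ j, W j * (1 + ∑ v, N v * (β * (G j v - 1) / (2 ^ j * n : ℝ) ^ 2)) ≤ 1)
    {s : ℕ → S → ℝ} (hs0 : ∀ j v, 0 ≤ s j v) (hs1 : ∀ j v, s j v ≤ 2 * G j v)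
    (hs2 : ∀ j v, s j v ≤ N v) (J : ℕ) :
    ∑ j ∈ range J, ∑ v, W j * s j v / (2 ^ j * n) ≤ 128 / β * √n := by
  have hnr : (1 : ℝ) ≤ n := by exact_mod_cast hn1
  have hsq : 1 ≤ √(n : ℝ) := Real.one_le_sqrt.2 hnr
  have hsq2 : √(n : ℝ) ^ 2 = n := Real.sq_sqrt (by positivity)
  have hG0 : ∀ j v, G 0 v ≤ G j v := fun j v => by
    induction j with
    | zero => exact le_rfl
    | succ j ih => exact ih.trans (hGm j v)
  have hG2 : ∀ j v, G j v ≤ 2 ^ j * G 0 v := fun j v => by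
    induction j with
    | zero => simp
    | succ j ih => rw [pow_succ]; linarith [hGd j v]
  have hterm : ∀ j v, 0 ≤ N v * (β * (G j v - 1) / (2 ^ j * n : ℝ) ^ 2) := fun j v =>
    mul_nonneg (hN v) (div_nonneg (mul_nonneg hβ0.le (sub_nonneg.2 (hG1 j v))) (by positivity))
  have hW1 : ∀ j, W j ≤ 1 := fun j => by
    have := mul_nonneg (hW0 j) (sum_nonneg fun v (_ : v ∈ univ) => hterm j v)
    linarith [hW j]
  set y : ℕ → S → ℝ := fun j v => β / 2 * (N v * G j v / (2 ^ j * n : ℝ) ^ 2) with hy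
  have hy0 : ∀ j v, 0 ≤ y j v := fun j v => by
    have := hN v; have := hG1 j v
    rw [hy]; positivity
  have hyd : ∀ j v, y (j + 1) v ≤ y j v / 2 := fun j v => by
    have e1 : y j v / 2 = β / 2 * (N v * (2 * G j v) / (2 ^ (j + 1) * n : ℝ) ^ 2) := by
      rw [hy]; simp only; field_simp; ring
    rw [e1, hy]
    have := hN v
    have := hGd j v
    simp only
    gcongr
  have hy1 : ∀ j v, 2 ≤ G j v → y j v ≤ N v * (β * (G j v - 1) / (2 ^ j * n : ℝ) ^ 2) := by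
    intro j v h2
    have e1 : y j v = N v * (β * (G j v / 2) / (2 ^ j * n : ℝ) ^ 2) := by
      rw [hy]; simp only; ring
    rw [e1]
    have := hN v
    gcongr
    linarith
  have hsy : ∀ j v, (s j v / (2 ^ j * n)) ^ 2 ≤ 4 / β * y j v := fun j v => by
    have e1 : 4 / β * y j v = (2 * G j v * N v) / (2 ^ j * n : ℝ) ^ 2 := by
      rw [hy]; simp only; field_simp; ring
    rw [e1, div_pow]
    refine div_le_div_of_nonneg_right ?_ (by positivity)
    rw [sq]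
    exact mul_le_mul (hs1 j v) (hs2 j v) (hs0 j v) (by linarith [hG1 j v])
  have ht0 : ∀ j v, 0 ≤ W j * s j v / (2 ^ j * n) := fun j v =>
    div_nonneg (mul_nonneg (hW0 j) (hs0 j v)) (by positivity)
  set U := univ.filter fun v => 2 ≤ G 0 v with hU
  have split : ∀ j v, W j * s j v / (2 ^ j * n) ≤ 4 / (2 ^ j * n)
      + (if 2 ≤ G 0 v then W j * s j v / (2 ^ j * n) else 0)
      + (if G 0 v < 2 ∧ 2 ≤ G j v then W j * s j v / (2 ^ j * n) else 0) := by
    intro j v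
    have p4 : (0 : ℝ) ≤ 4 / (2 ^ j * n) := by positivity
    have := ht0 j v
    by_cases c1 : 2 ≤ G 0 v
    · rw [if_pos c1, if_neg (fun h => absurd h.1 (not_lt.2 c1))]; linarith
    · by_cases c2 : 2 ≤ G j v
      · rw [if_neg c1, if_pos ⟨not_le.1 c1, c2⟩]; linarith
      · rw [if_neg c1, if_neg (fun h => c2 h.2)]
        have : W j * s j v / (2 ^ j * n) ≤ 4 / (2 ^ j * n) := by
          refine div_le_div_of_nonneg_right ?_ (by positivity)
          have := mul_le_of_le_one_left (hs0 j v) (hW1 j)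
          linarith [hs1 j v]
        linarith
  have pA : ∑ j ∈ range J, ∑ _v : S, (4 : ℝ) / (2 ^ j * n) ≤ 8 := by
    have : ∀ j ∈ range J, ∑ _v : S, (4 : ℝ) / (2 ^ j * n) = 4 * (1 / 2) ^ j := fun j _ => by
      rw [sum_const, card_univ, hn, nsmul_eq_mul, one_div, inv_pow]; field_simp
    rw [sum_congr rfl this, ← mul_sum]
    linarith [sum_geometric_two_le J]
  have pB : ∑ j ∈ range J, ∑ v, (if 2 ≤ G 0 v then W j * s j v / (2 ^ j * n) else 0)
      ≤ 24 * (2 * √n / β) := by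
    simp only [← sum_filter]
    rw [← hU]
    refine geo_sum (y := fun j => ∑ v ∈ U, y j v) (fun j => sum_nonneg fun v _ => hy0 j v)
      (fun j => by rw [sum_div]; exact sum_le_sum fun v _ => hyd j v)
      (fun j => sum_nonneg fun v _ => ht0 j v) (by positivity) (fun j => ?_) J
    set Y := ∑ v ∈ U, y j v with hY
    have hY0 : 0 ≤ Y := sum_nonneg fun v _ => hy0 j v
    have e1 : W j * (1 + Y) ≤ 1 := by
      refine le_trans (mul_le_mul_of_nonneg_left ?_ (hW0 j)) (hW j)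
      have : Y ≤ ∑ v ∈ U, N v * (β * (G j v - 1) / (2 ^ j * n : ℝ) ^ 2) :=
        sum_le_sum fun v hv => hy1 j v ((mem_filter.1 hv).2.trans (hG0 j v))
      have := sum_le_sum_of_subset_of_nonneg (subset_univ U) fun v _ _ => hterm j v
      linarith
    have e2 : (∑ v ∈ U, s j v / (2 ^ j * n)) ^ 2 ≤ n * (4 / β * Y) := by
      refine (sq_sum_le_card_mul_sum_sq).trans ?_
      refine mul_le_mul ?_ ?_ (sum_nonneg fun v _ => sq_nonneg _) (by positivity)
      · rw [← hn]; exact_mod_cast card_le_univ U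
      · rw [hY, mul_sum]; exact sum_le_sum fun v _ => hsy j v
    have e3 : ∑ v ∈ U, W j * s j v / (2 ^ j * n) = W j * ∑ v ∈ U, s j v / (2 ^ j * n) := by
      rw [mul_sum]; exact sum_congr rfl fun v _ => by ring
    have e4 := pow_le_pow_left₀ (sq_nonneg _) e2 2
    have w0 := hW0 j
    have e5 : (W j * (1 + Y)) ^ 2 ≤ 1 := pow_le_one₀ (by positivity) e1
    have e6 : W j * Y ≤ 1 := by linarith
    have e7 : W j ^ 2 * Y ≤ 1 := by
      have := mul_le_mul (hW1 j) e6 (by positivity) zero_le_one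
      linarith
    have e8 : (1 / β) ^ 2 ≤ (1 / β) ^ 4 :=
      pow_le_pow_right₀ (by rw [le_div_iff₀ hβ0]; linarith) (by norm_num)
    rw [e3]
    calc (W j * ∑ v ∈ U, s j v / (2 ^ j * n)) ^ 4 * (1 + Y) ^ 2
        = (W j * (1 + Y)) ^ 2 * (W j ^ 2 * ((∑ v ∈ U, s j v / (2 ^ j * n)) ^ 2) ^ 2) := by ring
      _ ≤ 1 * (W j ^ 2 * (n * (4 / β * Y)) ^ 2) := by gcongr
      _ = (W j ^ 2 * Y) * (16 * n ^ 2 * Y * (1 / β) ^ 2) := by ring
      _ ≤ 1 * (16 * n ^ 2 * Y * (1 / β) ^ 4) := by gcongr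
      _ = (2 * √n / β) ^ 4 * Y := by
        rw [show (2 * √(n : ℝ) / β) ^ 4 = 16 * (√(n : ℝ) ^ 2) ^ 2 * (1 / β) ^ 4 by ring, hsq2]; ring
  have pC : ∑ j ∈ range J, ∑ v, (if G 0 v < 2 ∧ 2 ≤ G j v then W j * s j v / (2 ^ j * n) else 0)
      ≤ n * (24 * (3 / (β * √n))) := by
    rw [sum_comm]
    refine (sum_le_card_nsmul _ _ (24 * (3 / (β * √n))) fun v _ => ?_).trans
      (by rw [card_univ, hn, nsmul_eq_mul])
    refine geo_sum (y := fun j => y j v) (fun j => hy0 j v) (fun j => hyd j v)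
      (fun j => by split_ifs; exacts [ht0 j v, le_rfl]) (by positivity) (fun j => ?_) J
    have y0 := hy0 j v
    split_ifs with hc
    · have e1 : W j * (1 + y j v) ≤ 1 := by
        refine le_trans (mul_le_mul_of_nonneg_left ?_ (hW0 j)) (hW j)
        have := single_le_sum (fun v (_ : v ∈ univ) => hterm j v) (mem_univ v)
        linarith [hy1 j v hc.2]
      have w0 := hW0 j
      have e5 : (W j * (1 + y j v)) ^ 2 ≤ 1 := pow_le_one₀ (by positivity) e1
      have e2 : s j v / (2 ^ j * n) ≤ 4 / n := by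
        rw [div_le_div_iff₀ (by positivity) (by positivity)]
        have e3 : s j v ≤ 4 * 2 ^ j := by
          have := mul_le_mul_of_nonneg_left hc.1.le (show (0 : ℝ) ≤ 2 ^ j by positivity)
          linarith [hs1 j v, hG2 j v]
        have := mul_le_mul_of_nonneg_right e3 (show (0 : ℝ) ≤ n by positivity)
        linarith
      have s0 : 0 ≤ s j v / (2 ^ j * n) := div_nonneg (hs0 j v) (by positivity)
      have e6 : W j ^ 2 ≤ 1 := pow_le_one₀ w0 (hW1 j)
      have e7 := hsy j v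
      have e8 : (1 / β) ^ 1 ≤ (1 / β) ^ 4 :=
        pow_le_pow_right₀ (by rw [le_div_iff₀ hβ0]; linarith) (by norm_num)
      calc (W j * s j v / (2 ^ j * n)) ^ 4 * (1 + y j v) ^ 2
          = (W j * (1 + y j v)) ^ 2 * (W j ^ 2 * ((s j v / (2 ^ j * n)) ^ 2
            * (s j v / (2 ^ j * n)) ^ 2)) := by ring
        _ ≤ 1 * (1 * ((4 / n) ^ 2 * (4 / β * y j v))) := by gcongr
        _ = 64 * (y j v / n ^ 2) * (1 / β) ^ 1 := by ring
        _ ≤ 81 * (y j v / n ^ 2) * (1 / β) ^ 4 := by gcongr; norm_num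
        _ = (3 / (β * √n)) ^ 4 * y j v := by
          rw [show (3 / (β * √(n : ℝ))) ^ 4 = 81 / (√(n : ℝ) ^ 2) ^ 2 * (1 / β) ^ 4 by
            field_simp; ring, hsq2]; ring
    · have : 0 ≤ (3 / (β * √(n : ℝ))) ^ 4 * y j v := by positivity
      simpa using this
  have tot := sum_le_sum fun j (_ : j ∈ range J) => sum_le_sum fun v (_ : v ∈ univ) => split j v
  simp only [sum_add_distrib] at tot
  have f1 : (n : ℝ) * (24 * (3 / (β * √n))) = 72 * (√n / β) := by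
    nth_rewrite 1 [← hsq2]; field_simp; ring
  have f2 : 1 ≤ √(n : ℝ) / β := by rw [le_div_iff₀ hβ0]; linarith
  have f3 : 128 / β * √(n : ℝ) = 128 * (√n / β) := by ring
  have f4 : 24 * (2 * √(n : ℝ) / β) = 48 * (√n / β) := by ring
  linarith

end Pool.Agent.Lib.MP_eadfc1_pr.Up
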