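import Pool.Agent.Lib.MP_eadfc1_pr.UpFejer
import Pool.Agent.Lib.MP_eadfc1_pr.UpScales

namespace Pool.Agent.Lib.MP_eadfc1_pr.Up

open Finset Matrix MeasureTheory

variable {S : Type} [Fintype S] [DecidableEq S]

/-- weight of a path followed by an exit -/
def pw (Q : Matrix S S ℝ) (e : S → ℝ) (m : ℕ) (p : Fin (m + 1) → S) : ℝ :=
  (∏ i : Fin m, Q (p i.castSucc) (p i.succ)) * e (p (Fin.last m))

omit [Fintype S] [DecidableEq S] in
lemma pw_nn {Q : Matrix S S ℝ} {e : S → ℝ} (hQ : ∀ a b, 0 ≤ Q a b) (he : ∀ c, 0 ≤ e c) (m : ℕ)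
    (p : Fin (m + 1) → S) : 0 ≤ pw Q e m p :=
  mul_nonneg (prod_nonneg fun _ _ => hQ _ _) (he _)

lemma path_sum (M : Matrix S S ℝ) (e : S → ℝ) (m : ℕ) (a : S) :
    ∑ p : Fin (m + 1) → S, (if p 0 = a then pw M e m p else 0) = ((M ^ m) *ᵥ e) a := by
  induction m generalizing a with
  | zero =>
    rw [← (Equiv.funUnique (Fin 1) S).symm.sum_comp]
    simp [pw]
  | succ m ih =>
    rw [← (Fin.consEquiv fun _ : Fin (m + 2) => S).sum_comp, Fintype.sum_prod_type]
    have h1 : ∀ (c : S) (q : Fin (m + 1) → S),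
        pw M e (m + 1) (Fin.cons c q : Fin (m + 2) → S) = M c (q 0) * pw M e m q := by
      intro c q
      rw [pw, pw, Fin.prod_univ_succ, ← Fin.succ_last]
      simp only [Fin.castSucc_zero, Fin.cons_zero, Fin.cons_succ, ← Fin.succ_castSucc]
      ring
    have h2 : ∀ (c : S) (q : Fin (m + 1) → S),
        (Fin.consEquiv fun _ : Fin (m + 2) => S) (c, q) = Fin.cons c q := fun _ _ => rfl
    simp only [h2]
    rw [sum_eq_single a]
    · simp only [Fin.cons_zero, if_true, h1]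
      rw [pow_succ', ← Matrix.mulVec_mulVec, mv_apply]
      simp only [← ih, mul_sum]
      rw [sum_comm]
      refine sum_congr rfl fun q _ => ?_
      rw [sum_eq_single (q 0)]
      · simp
      · intro b _ hb
        simp [Ne.symm hb]
      · simp
    · intro c _ hc
      simp [hc]
    · simp

omit [Fintype S] [DecidableEq S] in
lemma pw_rs (Q : Matrix S S ℝ) (e d : S → ℝ) (m : ℕ) (p : Fin (m + 1) → S) :
    pw (rs d Q) (fun c => d c * e c) m p = pw Q e m p * ∏ i, d (p i) := by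
  rw [pw, pw, Fin.prod_univ_castSucc]
  simp only [rs, prod_mul_distrib]
  ring

lemma wt_hasSum {Q : Matrix S S ℝ} {γ : ℝ} (hQ : Sub Q γ) (e : S → ℝ) {d : S → ℝ}
    (h0 : ∀ a, 0 ≤ d a) (h1 : ∀ a, d a ≤ 1) (x : S) :
    HasSum (fun m => ∑ p : Fin (m + 1) → S, (if p 0 = x then pw Q e m p else 0) * ∏ i, d (p i))
      (wt Q e d x) := by
  refine HasSum.congr_fun (res_mv_hasSum (hQ.rs h0 h1) _ x) fun m => ?_
  rw [← path_sum]
  refine sum_congr rfl fun p _ => ?_
  rw [pw_rs]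
  split_ifs <;> simp

/-- the killing constant -/
noncomputable def bt : ℝ := 1 / 16056320

/-- killing rate at scale `h` -/
noncomputable def kap (Q : Matrix S S ℝ) (h : ℕ) (u : S) : ℝ := bt * (Gt Q h u - 1) / (h : ℝ) ^ 2

/-- marking rate at scale `h` -/
noncomputable def lam (Q : Matrix S S ℝ) (h : ℕ) (v : S) : ℝ := 1 / (2 * Gt Q h v)

/-- loss of weight caused by marking at `v` -/
noncomputable def dw (Q : Matrix S S ℝ) (e : S → ℝ) (x : S) (h : ℕ) (v : S) : ℝ :=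
  wt Q e (fun u => 1 - kap Q h u) x
    - wt Q e (fun u => (if u = v then 1 - lam Q h v else 1) * (1 - kap Q h u)) x

lemma kap_nn {Q : Matrix S S ℝ} (hQ : ∀ a b, 0 ≤ Q a b) (h : ℕ) (u : S) : 0 ≤ kap Q h u :=
  div_nonneg (mul_nonneg (by rw [bt]; norm_num) (sub_nonneg.2 (one_le_Gt hQ h u))) (sq_nonneg _)

lemma kap_le {Q : Matrix S S ℝ} {γ : ℝ} (hQ : Sub Q γ) {h : ℕ} (hh : 1 ≤ h) (u : S) :
    kap Q h u ≤ 1 := by
  have hr : (1 : ℝ) ≤ h := by exact_mod_cast hh
  rw [kap, div_le_one (by positivity), bt]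
  nlinarith [Gt_le hQ h u, one_le_Gt hQ.nonneg h u]

lemma lam_pos {Q : Matrix S S ℝ} (hQ : ∀ a b, 0 ≤ Q a b) (h : ℕ) (v : S) : 0 < lam Q h v := by
  have := one_le_Gt hQ h v
  rw [lam]; positivity

lemma lam_mul {Q : Matrix S S ℝ} (hQ : ∀ a b, 0 ≤ Q a b) (h : ℕ) (v : S) :
    lam Q h v * Gt Q h v = 1 / 2 := by
  have := one_le_Gt hQ h v
  rw [lam]; field_simp

lemma lam_le {Q : Matrix S S ℝ} (hQ : ∀ a b, 0 ≤ Q a b) (h : ℕ) (v : S) : lam Q h v ≤ 1 / 2 := by
  have := mul_le_mul_of_nonneg_left (one_le_Gt hQ h v) (lam_pos hQ h v).le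
  linarith [lam_mul hQ h v]

lemma dw_hasSum {Q : Matrix S S ℝ} {γ : ℝ} (hQ : Sub Q γ) (e : S → ℝ) (x : S) {h : ℕ} (hh : 1 ≤ h)
    (v : S) :
    HasSum (fun m => ∑ p : Fin (m + 1) → S, (if p 0 = x then pw Q e m p else 0)
      * ((∏ i, (1 - kap Q h (p i))) * (1 - (1 - lam Q h v) ^ (univ.filter fun i => p i = v).card)))
      (dw Q e x h v) := by
  have k0 := kap_nn hQ.nonneg h
  have k1 := kap_le hQ hh
  have l0 := lam_pos hQ.nonneg h v
  have l1 := lam_le hQ.nonneg h v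
  have s1 := wt_hasSum hQ e (d := fun u => 1 - kap Q h u) (fun u => sub_nonneg.2 (k1 u))
    (fun u => by linarith [k0 u]) x
  have s2 := wt_hasSum hQ e (d := fun u => (if u = v then 1 - lam Q h v else 1) * (1 - kap Q h u))
    (fun u => mul_nonneg (by split_ifs <;> linarith) (sub_nonneg.2 (k1 u)))
    (fun u => mul_le_one₀ (by split_ifs <;> linarith) (sub_nonneg.2 (k1 u)) (by linarith [k0 u])) x
  refine HasSum.congr_fun (s1.sub s2) fun m => ?_
  rw [← sum_sub_distrib]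
  refine sum_congr rfl fun p _ => ?_
  rw [prod_mul_distrib, prod_ite, prod_const, prod_const_one]
  ring

lemma dw_nn {Q : Matrix S S ℝ} {γ : ℝ} (hQ : Sub Q γ) {e : S → ℝ} (he : ∀ c, 0 ≤ e c) (x : S)
    {h : ℕ} (hh : 1 ≤ h) (v : S) : 0 ≤ dw Q e x h v := by
  refine (dw_hasSum hQ e x hh v).nonneg fun m => sum_nonneg fun p _ => mul_nonneg ?_
    (mul_nonneg (prod_nonneg fun i _ => sub_nonneg.2 (kap_le hQ hh _)) (sub_nonneg.2 ?_))
  · split_ifs
    · exact pw_nn hQ.nonneg he m p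
    · exact le_rfl
  · exact pow_le_one₀ (by linarith [lam_le hQ.nonneg h v]) (by linarith [lam_pos hQ.nonneg h v])

lemma total {Q : Matrix S S ℝ} {γ : ℝ} (hQ : Sub Q γ) {e : S → ℝ} (he : ∀ c, 0 ≤ e c)
    (hr : ∀ a, ∑ b, Q a b + e a ≤ 1) {n : ℕ} (hn : Fintype.card S = n) (hn1 : 1 ≤ n) (x : S)
    (J : ℕ) : ∑ j ∈ range J, ∑ v, dw Q e x (2 ^ j * n) v / (lam Q (2 ^ j * n) v * (2 ^ j * n))
      ≤ 128 / bt * √n := by
  have hh : ∀ j, 1 ≤ 2 ^ j * n := fun j => Nat.mul_pos (by positivity) hn1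
  have hb0 : 0 < bt := by rw [bt]; norm_num
  have s1 := hasSum_sum (s := range J) fun j _ => hasSum_sum (s := univ) fun v _ =>
    (dw_hasSum hQ e x (hh j) v).div_const (lam Q (2 ^ j * n) v * (2 ^ j * n))
  refine le_of_tendsto' s1.tendsto_sum_nat fun M => ?_
  have s2 := exit_le_one hQ.nonneg hr M x
  refine le_trans ?_ (mul_le_of_le_one_left (by positivity) s2)
  rw [sum_mul]
  refine sum_le_sum fun m _ => ?_
  rw [← mv_apply, ← path_sum, sum_mul]
  simp only [sum_div]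
  rw [sum_congr rfl fun j _ => sum_comm, sum_comm]
  refine sum_le_sum fun p _ => ?_
  simp only [mul_div_assoc (if p 0 = x then pw Q e m p else 0), ← mul_sum]
  refine mul_le_mul_of_nonneg_left ?_ (by
    split_ifs
    · exact pw_nn hQ.nonneg he m p
    · exact le_rfl)
  have key := pathwise hn hn1 (G := fun j v => Gt Q (2 ^ j * n) v)
    (fun j v => one_le_Gt hQ.nonneg _ _)
    (fun j v => Gt_mono hQ.nonneg (by rw [pow_succ]; nlinarith [hh j]) v)
    (fun j v => by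
      rw [show 2 ^ (j + 1) * n = 2 * (2 ^ j * n) by ring]; exact Gt_double hQ _ v)
    (N := fun v => ((univ.filter fun i => p i = v).card : ℝ)) (fun v => Nat.cast_nonneg _)
    hb0 (by rw [bt]; norm_num) (W := fun j => ∏ i, (1 - kap Q (2 ^ j * n) (p i)))
    (fun j => prod_nonneg fun i _ => sub_nonneg.2 (kap_le hQ (hh j) _))
    (fun j => by
      have e1 := prod_kill univ (κ := fun i => kap Q (2 ^ j * n) (p i))
        (fun i => kap_nn hQ.nonneg _ _) fun i => kap_le hQ (hh j) _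
      rw [← sum_fiberwise' univ p (fun u => kap Q (2 ^ j * n) u)] at e1
      simp only [sum_const, nsmul_eq_mul] at e1
      simpa only [kap, Nat.cast_mul, Nat.cast_pow, Nat.cast_ofNat] using e1)
    (s := fun j v => (1 - (1 - lam Q (2 ^ j * n) v) ^ (univ.filter fun i => p i = v).card)
      / lam Q (2 ^ j * n) v)
    (fun j v => div_nonneg (sub_nonneg.2 (pow_le_one₀ (by linarith [lam_le hQ.nonneg (2 ^ j * n) v])
      (by linarith [lam_pos hQ.nonneg (2 ^ j * n) v]))) (lam_pos hQ.nonneg _ _).le)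
    (fun j v => by
      rw [div_le_iff₀ (lam_pos hQ.nonneg _ _)]
      have : 0 ≤ (1 - lam Q (2 ^ j * n) v) ^ (univ.filter fun i => p i = v).card :=
        pow_nonneg (by linarith [lam_le hQ.nonneg (2 ^ j * n) v]) _
      linarith [lam_mul hQ.nonneg (2 ^ j * n) v])
    (fun j v => by
      rw [div_le_iff₀ (lam_pos hQ.nonneg _ _)]
      have := one_add_mul_le_pow (a := -lam Q (2 ^ j * n) v)
        (by linarith [lam_le hQ.nonneg (2 ^ j * n) v]) (univ.filter fun i => p i = v).card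
      rw [← sub_eq_add_neg] at this
      linarith) J
  refine le_trans (le_of_eq ?_) key
  refine sum_congr rfl fun j _ => sum_congr rfl fun v _ => ?_
  ring

lemma shell {Q : Matrix S S ℝ} {γ : ℝ} (hQ : Sub Q γ) {e : S → ℝ} (he : ∀ c, 0 ≤ e c) (x : S)
    {h : ℕ} (hh : 1 ≤ h) {a : ℝ} (ha : a * (14 * h) = 1) :
    ∫ θ in (a / 2)..a, Ph Q e x θ ≤ 113 * ∑ v, dw Q e x h v / (lam Q h v * h) := by
  have hhr : (0 : ℝ) < h := by exact_mod_cast hh
  have ha0 : 0 < a := by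
    by_contra hc
    push Not at hc
    have := mul_nonpos_of_nonpos_of_nonneg hc (show (0 : ℝ) ≤ 14 * h by positivity)
    linarith
  simp only [Ph]
  rw [intervalIntegral.integral_finsetSum
    fun v _ => (Ph_term_cont hQ e x v).intervalIntegrable _ _, mul_sum]
  refine sum_le_sum fun v _ => ?_
  have l0 := lam_pos hQ.nonneg h v
  have l1 := lam_le hQ.nonneg h v
  have d0 := dw_nn hQ he x hh v
  have hc : Continuous fun θ => (Gz Q θ v v).re := Complex.continuous_re.comp (Gz_cont hQ v v)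
  have e1 : ∫ θ in (a / 2)..a, ‖Gz Q θ x v * (Gz Q θ *ᵥ fun c => (e c : ℂ)) v‖
      ≤ ∫ θ in (a / 2)..a, 2 * dw Q e x h v / lam Q h v
        * (1 - lam Q h v + 2 * lam Q h v * (Gz Q θ v v).re) := by
    refine intervalIntegral.integral_mono_on (by linarith)
      ((Ph_term_cont hQ e x v).intervalIntegrable _ _)
      (Continuous.intervalIntegrable (by fun_prop) _ _) fun θ hθ => ?_
    have t0 : 0 ≤ θ := by linarith [hθ.1]
    have t1 : 14 * h * θ ≤ 1 := by
      have := mul_le_mul_of_nonneg_left hθ.2 (show (0 : ℝ) ≤ 14 * h by positivity)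
      linarith
    have := marked hQ hh t0 t1 (κ := kap Q h) (kap_nn hQ.nonneg h) (fun u => by
      have e2 : kap Q h u = (a / 2) ^ 2 / 20480 * (Gt Q h u - 1) := by
        rw [kap, bt, div_eq_iff (by positivity)]
        linear_combination (-(Gt Q h u - 1) / 16056320) * (a * (14 * h) + 1) * ha
      rw [e2]
      have := one_le_Gt hQ.nonneg h u
      have := hθ.1
      gcongr) he x v l0.le (lam_mul hQ.nonneg h v).le
    rw [div_mul_eq_mul_div, le_div_iff₀ l0, mul_comm]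
    exact this
  rw [intervalIntegral.integral_const_mul] at e1
  have e2 : ∫ θ in (a / 2)..a, (1 - lam Q h v + 2 * lam Q h v * (Gz Q θ v v).re)
      ≤ ∫ θ in (0 : ℝ)..a, (1 - lam Q h v + 2 * lam Q h v * (Gz Q θ v v).re) :=
    intervalIntegral.integral_mono_interval (by linarith) (by linarith) le_rfl
      (Filter.Eventually.of_forall fun θ => psi_nn hQ θ v l0.le (by linarith))
      (Continuous.intervalIntegrable (by fun_prop) _ _)
  have e3 := psi_int hQ hh v ha l0.le (lam_mul hQ.nonneg h v).le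
  refine e1.trans ((mul_le_mul_of_nonneg_left (e2.trans e3) (by positivity)).trans ?_)
  have e4 : a = 1 / (14 * h) := by rw [eq_div_iff (by positivity)]; exact ha
  have e5 : 2 * dw Q e x h v / lam Q h v * (788 * a)
      = 788 / 7 * (dw Q e x h v / (lam Q h v * h)) := by
    rw [e4]; field_simp; ring
  rw [e5]
  exact mul_le_mul_of_nonneg_right (by norm_num) (by positivity)

lemma int_bound {Q : Matrix S S ℝ} {γ : ℝ} (hQ : Sub Q γ) {e : S → ℝ} (he : ∀ c, 0 ≤ e c)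
    (hr : ∀ a, ∑ b, Q a b + e a ≤ 1) {n : ℕ} (hn : Fintype.card S = n) (hn1 : 1 ≤ n) (x : S) :
    ∫ θ in (0 : ℝ)..(1 / (14 * n)), Ph Q e x θ ≤ 113 * (128 / bt * √n) := by
  have hnr : (1 : ℝ) ≤ n := by exact_mod_cast hn1
  have hh : ∀ j, 1 ≤ 2 ^ j * n := fun j => Nat.mul_pos (by positivity) hn1
  have hc := Ph_cont hQ e x
  obtain ⟨B, hB⟩ := Ph_bdd hQ e x
  set a : ℕ → ℝ := fun j => 1 / (14 * n) * (1 / 2) ^ j with ha
  have h1 : ∀ J, ∫ θ in (0 : ℝ)..(1 / (14 * n)), Ph Q e x θ ≤ (∫ θ in (0 : ℝ)..a J, Ph Q e x θ)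
      + 113 * ∑ j ∈ range J, ∑ v, dw Q e x (2 ^ j * n) v / (lam Q (2 ^ j * n) v * (2 ^ j * n)) := by
    intro J
    induction J with
    | zero => simp [ha]
    | succ J ih =>
      have e1 := shell hQ he x (hh J) (a := a J) (by
        rw [ha]; push_cast; simp only [one_div, inv_pow]; field_simp)
      have e2 : a (J + 1) = a J / 2 := by rw [ha]; simp only; ring
      have e3 := intervalIntegral.integral_add_adjacent_intervals (μ := volume)
        (hc.intervalIntegrable 0 (a J / 2)) (hc.intervalIntegrable (a J / 2) (a J))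
      rw [sum_range_succ, e2]
      push_cast at e1
      linarith
  have h2 : ∀ J, ∫ θ in (0 : ℝ)..a J, Ph Q e x θ ≤ a J * B := by
    intro J
    have := intervalIntegral.integral_mono_on (μ := volume) (a := 0) (b := a J)
      (by rw [ha]; positivity) (hc.intervalIntegrable _ _)
      (continuous_const.intervalIntegrable _ _) fun θ _ => hB θ
    simpa using this
  have h3 : Filter.Tendsto (fun J => a J * B + 113 * (128 / bt * √n)) Filter.atTop
      (nhds (1 / (14 * n) * 0 * B + 113 * (128 / bt * √n))) :=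
    (((tendsto_pow_atTop_nhds_zero_of_lt_one (by norm_num) (by norm_num)).const_mul _).mul_const
      _).add_const _
  rw [mul_zero, zero_mul, zero_add] at h3
  refine ge_of_tendsto' h3 fun J => ?_
  linarith [h1 J, h2 J, total hQ he hr hn hn1 x J]

lemma damped_bound {Q : Matrix S S ℝ} {γ : ℝ} (hQ : Sub Q γ) {e : S → ℝ} (he : ∀ c, 0 ≤ e c)
    (hr : ∀ a, ∑ b, Q a b + e a ≤ 1) {n : ℕ} (hn : Fintype.card S = n) (hn1 : 1 ≤ n) (x : S)
    {t : ℕ} (W : Finset ℕ) (hW : ∀ m ∈ W, t ≤ m + 1 ∧ m + 1 ≤ t + n) :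
    t * ∑ m ∈ W, ((Q ^ m) *ᵥ e) x ≤ 56 * (113 * (128 / bt)) * n * √n := by
  have hnr : (1 : ℝ) ≤ n := by exact_mod_cast hn1
  have e1 := fejer_main hQ he x (a := 1 / (14 * n)) (by positivity) (by
    rw [mul_one_div, div_le_one (by positivity)]; linarith) W hW
  have e2 := mul_le_mul_of_nonneg_left (e1.trans (int_bound hQ he hr hn hn1 x))
    (show (0 : ℝ) ≤ 56 * n by positivity)
  have e3 : 56 * n * (t * (1 / (14 * n)) / 4 * ∑ m ∈ W, ((Q ^ m) *ᵥ e) x)
      = t * ∑ m ∈ W, ((Q ^ m) *ᵥ e) x := by field_simp; ring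
  linarith

lemma window_bound {Q : Matrix S S ℝ} (hQ : ∀ a b, 0 ≤ Q a b) {e : S → ℝ} (he : ∀ c, 0 ≤ e c)
    (hr : ∀ a, ∑ b, Q a b + e a ≤ 1) {n : ℕ} (hn : Fintype.card S = n) (hn1 : 1 ≤ n) (x : S)
    {t : ℕ} (ht : n < t) (W : Finset ℕ) (hW : ∀ m ∈ W, t ≤ m + 1 ∧ m + 1 ≤ t + n) :
    t * ∑ m ∈ W, ((Q ^ m) *ᵥ e) x ≤ 112 * (113 * (128 / bt)) * n * √n := by
  have htr : (1 : ℝ) ≤ t := by exact_mod_cast (by omega : 1 ≤ t)
  obtain ⟨δ, hδ⟩ : ∃ δ : ℝ, δ = 1 / (4 * t) := ⟨_, rfl⟩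
  have hδ0 : 0 < δ := by rw [hδ]; positivity
  have hδt : δ * t = 1 / 4 := by rw [hδ]; field_simp
  have hδ1 : δ ≤ 1 / 4 := by nlinarith
  have hS : Sub ((1 - δ) • Q) (1 - δ) := by
    refine ⟨fun a b => mul_nonneg (by linarith) (hQ a b), fun a => ?_, by linarith, by linarith⟩
    simp only [Matrix.smul_apply, smul_eq_mul, ← mul_sum]
    exact mul_le_of_le_one_right (by linarith) (by linarith [hr a, he a])
  have e1 := damped_bound hS he (fun a => by
    have : ∑ b, ((1 - δ) • Q) a b ≤ ∑ b, Q a b :=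
      sum_le_sum fun b _ => mul_le_of_le_one_left (hQ a b) (by linarith)
    linarith [hr a]) hn hn1 x W hW
  have e2 : ∑ m ∈ W, ((Q ^ m) *ᵥ e) x ≤ 2 * ∑ m ∈ W, ((((1 - δ) • Q) ^ m) *ᵥ e) x := by
    rw [mul_sum]
    refine sum_le_sum fun m hm => ?_
    rw [smul_pow, Matrix.smul_mulVec, Pi.smul_apply, smul_eq_mul]
    have b1 := one_add_mul_le_pow (a := -δ) (by linarith) m
    have b2 : (m : ℝ) ≤ 2 * t := by exact_mod_cast (by have := (hW m hm).2; omega : m ≤ 2 * t)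
    have b3 := mul_le_mul_of_nonneg_left b2 hδ0.le
    have b4 : 1 / 2 ≤ (1 - δ) ^ m := by rw [sub_eq_add_neg]; linarith
    have := mul_le_mul_of_nonneg_right b4 (mv_nn (pow_nn hQ m) he x)
    linarith
  have := mul_le_mul_of_nonneg_left e2 (show (0 : ℝ) ≤ t by positivity)
  linarith

end Pool.Agent.Lib.MP_eadfc1_pr.Up
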