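import Pool.Agent.Lib.MP_eadfc1_pr.UpKill

namespace Pool.Agent.Lib.MP_eadfc1_pr.Up

open Finset Matrix PowerSeries

variable {S : Type} [Fintype S] [DecidableEq S]

section ring

variable {R : Type} [CommRing R]

lemma mark_N {M G G' : Matrix S S R} {v : S} {l : R} (h : (1 - M) * G = 1)
    (h' : (1 - mk M v l) * G' = 1) (x : S) : G x v = G' x v * (1 - l + l * G v v) := by
  rw [mark h h' x v, Matrix.one_apply_eq]; ring

lemma mark_N' {M G G' : Matrix S S R} {v : S} {l : R} (h : (1 - M) * G = 1)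
    (h' : (1 - mk M v l) * G' = 1) : (1 - l + l * G v v) * (1 - l * G' v v) = 1 - l := by
  linear_combination l * mark_N h h' v

lemma mark_u {M G G' : Matrix S S R} {v : S} {l : R} (h : (1 - M) * G = 1)
    (h' : (1 - mk M v l) * G' = 1) (e : S → R) (x : S) :
    (G *ᵥ e) x - (G' *ᵥ fun c => (if c = v then 1 - l else 1) * e c) x
      = l * G' x v * (G *ᵥ e) v := by
  have e1 : (G *ᵥ e) x = (G' *ᵥ e) x + l * G' x v * ((G *ᵥ e) v - e v) := by
    have : e v = ∑ c, (1 : Matrix S S R) v c * e c := by simp [Matrix.one_apply]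
    rw [this]
    simp only [mv_apply]
    rw [← sum_sub_distrib, mul_sum, ← sum_add_distrib]
    exact sum_congr rfl fun c _ => by rw [mark h h' x c]; ring
  have e2 : (G' *ᵥ fun c => (if c = v then 1 - l else 1) * e c) x
      = (G' *ᵥ e) x - l * G' x v * e v := by
    simp only [mv_apply]
    rw [← add_sum_erase _ _ (mem_univ v), ← add_sum_erase _ _ (mem_univ v)]
    have : ∑ c ∈ univ.erase v, G' x c * ((if c = v then 1 - l else 1) * e c)
        = ∑ c ∈ univ.erase v, G' x c * e c :=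
      sum_congr rfl fun c hc => by simp [ne_of_mem_erase hc]
    rw [this]; simp; ring
  rw [e2]
  linear_combination e1

end ring

lemma Sub.mk' {Q : Matrix S S ℝ} {γ : ℝ} (h : Sub Q γ) (v : S) {l : ℝ} (h0 : 0 ≤ l) (h1 : l ≤ 1) :
    Sub (Up.mk Q v l) γ := by
  refine h.mono (fun a b => ?_) fun a b => ?_
  · simp only [Up.mk]; split_ifs
    · exact mul_nonneg (by linarith) (h.nonneg _ _)
    · exact h.nonneg _ _
  · simp only [Up.mk]; split_ifs
    · exact mul_le_of_le_one_left (h.nonneg _ _) (by linarith)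
    · exact le_rfl

lemma Gt_mk {Q : Matrix S S ℝ} {γ : ℝ} (hQ : Sub Q γ) (h : ℕ) (v u : S) {l : ℝ} (h0 : 0 ≤ l)
    (h1 : l * Gt Q h v ≤ 1 / 2) : (Gt Q h u - 1) / 2 ≤ Gt (mk Q v l) h u - 1 := by
  have hl1 : l ≤ 1 := by
    have := mul_le_mul_of_nonneg_left (one_le_Gt hQ.nonneg h v) h0
    linarith
  have hM := hQ.mk' v h0 hl1
  have hle : ∀ a b, mk Q v l a b ≤ Q a b := by
    intro a b
    simp only [Up.mk]; split_ifs
    · exact mul_le_of_le_one_left (hQ.nonneg _ _) (by linarith)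
    · exact le_rfl
  have e1 := mark (ser_inv Q) (by rw [← xq_mk]; exact ser_inv (mk Q v l)) u u
  have e2 : Gt Q h u = Gt (mk Q v l) h u
      + l * tr h (ser (mk Q v l) u v * (ser Q v u - (1 : Matrix S S ℝ⟦X⟧) v u)) := by
    rw [← tr_ser_diag, ← tr_ser_diag, e1, map_add, mul_assoc, tr_C_mul]
  have e3 : tr h (ser (mk Q v l) u v * (ser Q v u - (1 : Matrix S S ℝ⟦X⟧) v u))
      ≤ tr h (ser Q u v * (ser Q v u - (1 : Matrix S S ℝ⟦X⟧) v u)) := by
    refine tr_le ?_ h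
    rw [← sub_mul]
    exact (NN.ser_sub hM.nonneg hle u v).mul (NN.ser_sub_one hQ.nonneg v u)
  have e4 := tr_le (i2' hQ.nonneg u v u) h
  have e5 := tr_mul_le (NN.ser hQ.nonneg v v) (NN.ser_sub_one hQ.nonneg u u) h
  rw [map_sub, Matrix.one_apply_eq, tr_one, tr_ser_diag, tr_ser_diag] at e5
  rw [Matrix.one_apply_eq] at e4
  have e6 := mul_le_mul_of_nonneg_left (e3.trans (e4.trans e5)) h0
  have e7 := mul_le_mul_of_nonneg_right h1 (sub_nonneg.2 (one_le_Gt hQ.nonneg h u))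
  linarith

lemma scalar_mark {N ρ : ℂ} {l τ : ℝ} (h : N * (1 - ρ) = 1 - l) (h1 : ‖ρ‖ ≤ τ) (h2 : τ ≤ 1) :
    ‖N‖ ^ 2 * (1 - τ) ≤ (1 - l) * (2 * N.re - (1 - l)) := by
  have e1 : N * ρ = N - (1 - l) := by linear_combination -h
  have e2 : ‖N‖ ^ 2 * ‖ρ‖ ^ 2 = ‖N‖ ^ 2 - (1 - l) * (2 * N.re - (1 - l)) := by
    rw [← mul_pow, ← norm_mul, e1, Complex.sq_norm, Complex.sq_norm, Complex.normSq_apply,
      Complex.normSq_apply]
    simp; ring
  have e3 : ‖ρ‖ ^ 2 ≤ τ := by nlinarith [norm_nonneg ρ]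
  have := mul_le_mul_of_nonneg_left e3 (sq_nonneg ‖N‖)
  linarith

lemma rho_lt {Q : Matrix S S ℝ} {γ : ℝ} (hQ : Sub Q γ) (v : S) {l : ℝ} (h0 : 0 ≤ l) (h1 : l < 1) :
    l * res (mk Q v l) v v < 1 := by
  have e1 := mark_N' (res_inv hQ) (res_inv (hQ.mk' v h0 h1.le))
  have e2 := mul_nonneg h0 (res_nn hQ.nonneg v v)
  by_contra hc
  push Not at hc
  have := mul_nonpos_of_nonneg_of_nonpos (show 0 ≤ 1 - l + l * res Q v v by linarith)
    (sub_nonpos.2 hc)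
  linarith

lemma Gz_inv_mk {Q : Matrix S S ℝ} {γ : ℝ} (hQ : Sub Q γ) (θ : ℝ) (v : S) {l : ℝ} (h0 : 0 ≤ l)
    (h1 : l ≤ 1) : (1 - mk (cz Q (ez θ)) v (l : ℂ)) * Gz (mk Q v l) θ = 1 := by
  rw [← cz_mk]; exact Gz_inv (hQ.mk' v h0 h1) θ

lemma psi_aux {Q : Matrix S S ℝ} {γ : ℝ} (hQ : Sub Q γ) (θ : ℝ) (v : S) {l τ : ℝ} (h0 : 0 ≤ l)
    (h1 : l ≤ 1) (h2 : l * ‖Gz (mk Q v l) θ v v‖ ≤ τ) (h3 : τ ≤ 1) :
    ‖1 - l + l * Gz Q θ v v‖ ^ 2 * (1 - τ) ≤ (1 - l) * (1 - l + 2 * l * (Gz Q θ v v).re) := by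
  have e1 := scalar_mark (τ := τ) (mark_N' (Gz_inv hQ θ) (Gz_inv_mk hQ θ v h0 h1))
    (by rw [norm_mul, Complex.norm_real, Real.norm_eq_abs, abs_of_nonneg h0]; exact h2) h3
  refine e1.trans (le_of_eq ?_)
  congr 1
  simp; ring

lemma psi_nn {Q : Matrix S S ℝ} {γ : ℝ} (hQ : Sub Q γ) (θ : ℝ) (v : S) {l : ℝ} (h0 : 0 ≤ l)
    (h1 : l < 1) : 0 ≤ 1 - l + 2 * l * (Gz Q θ v v).re := by
  have e0 := rho_lt hQ v h0 h1
  have e1 := psi_aux hQ θ v h0 h1.le
    (mul_le_mul_of_nonneg_left (norm_Gz_le (hQ.mk' v h0 h1.le) θ v v) h0) e0.le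
  have e2 : 0 ≤ ‖1 - l + l * Gz Q θ v v‖ ^ 2 * (1 - l * res (mk Q v l) v v) :=
    mul_nonneg (sq_nonneg _) (by linarith)
  exact nonneg_of_mul_nonneg_right (e2.trans e1) (by linarith)

/-- the weight of the chain killed at rate `κ` -/
noncomputable def wt (Q : Matrix S S ℝ) (e d : S → ℝ) (x : S) : ℝ :=
  (res (rs d Q) *ᵥ fun c => d c * e c) x

lemma marked {Q : Matrix S S ℝ} {γ : ℝ} (hQ : Sub Q γ) {h : ℕ} (hh : 1 ≤ h) {θ : ℝ} (h0 : 0 ≤ θ)
    (h1 : 14 * h * θ ≤ 1) {κ : S → ℝ} (hκ0 : ∀ u, 0 ≤ κ u)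
    (hκ : ∀ u, κ u ≤ θ ^ 2 / 20480 * (Gt Q h u - 1)) {e : S → ℝ} (he : ∀ c, 0 ≤ e c) (x v : S)
    {l : ℝ} (hl0 : 0 ≤ l) (hl : l * Gt Q h v ≤ 1 / 2) :
    l * ‖Gz Q θ x v * (Gz Q θ *ᵥ fun c => (e c : ℂ)) v‖
      ≤ 2 * (wt Q e (fun u => 1 - κ u) x
        - wt Q e (fun u => (if u = v then 1 - l else 1) * (1 - κ u)) x)
        * (1 - l + 2 * l * (Gz Q θ v v).re) := by
  have hl1 : l ≤ 1 / 2 := by
    have := mul_le_mul_of_nonneg_left (one_le_Gt hQ.nonneg h v) hl0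
    linarith
  have hhr : (1 : ℝ) ≤ h := by exact_mod_cast hh
  have hκ1 : ∀ u, κ u ≤ 1 / 2 := by
    intro u
    have h2 : θ ^ 2 / 20480 * (Gt Q h u - 1) ≤ θ ^ 2 / 20480 * h :=
      mul_le_mul_of_nonneg_left (by linarith [Gt_le hQ h u]) (by positivity)
    have h3 : θ * h ≤ 1 := by nlinarith
    have h4 : θ ≤ 1 := by nlinarith
    have h5 : θ * (θ * h) ≤ 1 := mul_le_one₀ h4 (by positivity) h3
    linarith [hκ u]
  have hM := hQ.mk' v hl0 (by linarith)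
  have hK := hQ.rs (d := fun u => 1 - κ u) (fun u => by linarith [hκ1 u])
    (fun u => by linarith [hκ0 u])
  have hKM := hK.mk' v hl0 (by linarith)
  have eq1 : rs (fun u => 1 - κ u) (mk Q v l) = mk (rs (fun u => 1 - κ u) Q) v l := by
    funext a b; simp only [rs, mk]; split_ifs <;> ring
  have eq2 : rs (fun u => (if u = v then 1 - l else 1) * (1 - κ u)) Q
      = mk (rs (fun u => 1 - κ u) Q) v l := by
    funext a b; simp only [rs, mk]; split_ifs <;> ring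
  have dom : ∀ a b, ‖Gz (mk Q v l) θ a b‖ ≤ res (mk (rs (fun u => 1 - κ u) Q) v l) a b := by
    intro a b
    rw [← eq1]
    refine kill hM hh h0 h1 hκ0 (fun u => (hκ u).trans ?_) a b
    have := mul_le_mul_of_nonneg_left (Gt_mk hQ h v u hl0 hl) (show 0 ≤ θ ^ 2 / 10240 by positivity)
    linarith
  set G' := res (mk (rs (fun u => 1 - κ u) Q) v l) with hG'
  have hG0 : ∀ a b, 0 ≤ G' a b := res_nn hKM.nonneg
  have hτ : l * G' v v < 1 := rho_lt hK v hl0 (by linarith)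
  have m1 := fun x => mark_u (res_inv hK) (res_inv hKM) (fun c => (1 - κ c) * e c) x
  rw [← hG'] at m1
  have w1 : ∀ x, wt Q e (fun u => (if u = v then 1 - l else 1) * (1 - κ u)) x
      = (G' *ᵥ fun c => (if c = v then 1 - l else 1) * ((1 - κ c) * e c)) x := by
    intro x
    rw [wt, eq2]; simp only [mul_assoc, hG']
  set U := wt Q e (fun u => 1 - κ u) with hU
  set U' := wt Q e (fun u => (if u = v then 1 - l else 1) * (1 - κ u)) with hU'
  have m2 : ∀ x, U x - U' x = l * G' x v * U v := fun x => by rw [w1]; exact m1 x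
  have hU0 : 0 ≤ U v := mv_nn (res_nn hK.nonneg) (fun c => mul_nonneg (by linarith [hκ1 c]) (he c)) v
  have c1 := mark_N (Gz_inv hQ θ) (Gz_inv_mk hQ θ v hl0 (by linarith)) x
  have c2 := mark_N' (Gz_inv hQ θ) (Gz_inv_mk hQ θ v hl0 (by linarith))
  have c3 := mark_u (Gz_inv hQ θ) (Gz_inv_mk hQ θ v hl0 (by linarith)) (fun c => (e c : ℂ)) v
  set N := 1 - (l : ℂ) + l * Gz Q θ v v with hN
  set uz := (Gz Q θ *ᵥ fun c => (e c : ℂ)) v with huz
  set uz' := (Gz (mk Q v l) θ *ᵥ fun c => (if c = v then 1 - (l : ℂ) else 1) * (e c : ℂ)) v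
    with huz'
  have c4 : ((1 - l : ℝ) : ℂ) * (Gz Q θ x v * uz) = Gz (mk Q v l) θ x v * N ^ 2 * uz' := by
    rw [c1]
    push_cast
    linear_combination Gz (mk Q v l) θ x v * N ^ 2 * c3 - Gz (mk Q v l) θ x v * N * uz * c2
  have c5 : ‖uz'‖ ≤ 2 * U' v := by
    rw [w1, huz', mv_apply, mv_apply, mul_sum]
    refine (norm_sum_le _ _).trans (sum_le_sum fun c _ => ?_)
    rw [norm_mul]
    have e1 : ‖(if c = v then 1 - (l : ℂ) else 1) * (e c : ℂ)‖
        = (if c = v then 1 - l else 1) * e c := by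
      rw [norm_mul, Complex.norm_real, Real.norm_eq_abs, abs_of_nonneg (he c)]
      split_ifs
      · rw [show 1 - (l : ℂ) = ((1 - l : ℝ) : ℂ) by push_cast; ring, Complex.norm_real,
          Real.norm_eq_abs, abs_of_nonneg (by linarith)]
      · simp
    rw [e1]
    have e2 : 0 ≤ (if c = v then 1 - l else 1) * e c :=
      mul_nonneg (by split_ifs <;> linarith) (he c)
    refine (mul_le_mul_of_nonneg_right (dom v c) e2).trans ?_
    have e3 := mul_le_mul_of_nonneg_left (show 1 ≤ 2 * (1 - κ c) by linarith [hκ1 c])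
      (mul_nonneg (hG0 v c) e2)
    linarith
  have c6 := psi_aux hQ θ v hl0 (by linarith) (mul_le_mul_of_nonneg_left (dom v v) hl0) hτ.le
  rw [← hN] at c6
  set Ψ := 1 - l + 2 * l * (Gz Q θ v v).re with hΨ
  have c7 : (1 - l) * ‖Gz Q θ x v * uz‖ ≤ G' x v * ‖N‖ ^ 2 * (2 * U' v) := by
    have := congrArg norm c4
    rw [norm_mul, Complex.norm_real, Real.norm_eq_abs, abs_of_nonneg (by linarith), norm_mul,
      norm_mul (Gz (mk Q v l) θ x v * N ^ 2), norm_mul (Gz (mk Q v l) θ x v), norm_pow] at this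
    rw [norm_mul, this]
    exact mul_le_mul (mul_le_mul_of_nonneg_right (dom x v) (sq_nonneg _)) c5 (norm_nonneg _)
      (mul_nonneg (hG0 _ _) (sq_nonneg _))
  have c8 : U' v = U v * (1 - l * G' v v) := by linarith [m2 v]
  have c9 : (1 - l) * ‖Gz Q θ x v * uz‖ ≤ (1 - l) * (2 * G' x v * U v * Ψ) := by
    have := mul_le_mul_of_nonneg_left c6 (mul_nonneg (hG0 x v) hU0)
    rw [c8] at c7
    linarith
  have c10 := le_of_mul_le_mul_left c9 (by linarith)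
  have := mul_le_mul_of_nonneg_left c10 hl0
  rw [m2 x]
  linarith

end Pool.Agent.Lib.MP_eadfc1_pr.Up
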