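import Pool.Agent.Lib.MP_eadfc1_pr.UpBasic

namespace Pool.Agent.Lib.MP_eadfc1_pr.Up

open Finset Matrix PowerSeries

/-- power series with nonnegative coefficients -/
def NN (f : ℝ⟦X⟧) : Prop := ∀ m, 0 ≤ coeff m f

lemma NN.add {f g : ℝ⟦X⟧} (hf : NN f) (hg : NN g) : NN (f + g) := fun m => by
  rw [map_add]; exact add_nonneg (hf m) (hg m)

lemma NN.mul {f g : ℝ⟦X⟧} (hf : NN f) (hg : NN g) : NN (f * g) := fun m => by
  rw [coeff_mul]; exact sum_nonneg fun p _ => mul_nonneg (hf _) (hg _)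

lemma NN.zero : NN 0 := fun m => by simp

lemma NN.sum {ι : Type} {s : Finset ι} {f : ι → ℝ⟦X⟧} (hf : ∀ i ∈ s, NN (f i)) :
    NN (∑ i ∈ s, f i) := fun m => by
  rw [map_sum]; exact sum_nonneg fun i hi => hf i hi m

lemma NN.C {c : ℝ} (hc : 0 ≤ c) : NN (PowerSeries.C c) := fun m => by
  rw [coeff_C]; split_ifs <;> simp [hc]

lemma NN.one : NN 1 := by simpa using NN.C (c := 1) zero_le_one

lemma NN.X : NN X := fun m => by
  rw [coeff_X]; split_ifs <;> simp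

/-- sum of the coefficients up to degree `H` -/
noncomputable def tr (H : ℕ) : ℝ⟦X⟧ →ₗ[ℝ] ℝ := ∑ m ∈ range (H + 1), coeff m

lemma tr_apply (H : ℕ) (f : ℝ⟦X⟧) : tr H f = ∑ m ∈ range (H + 1), coeff m f := by
  simp [tr, LinearMap.sum_apply]

lemma NN.tr_nonneg {f : ℝ⟦X⟧} (hf : NN f) (H : ℕ) : 0 ≤ tr H f := by
  rw [tr_apply]; exact sum_nonneg fun m _ => hf m

lemma tr_le {f g : ℝ⟦X⟧} (h : NN (g - f)) (H : ℕ) : tr H f ≤ tr H g := by
  have := h.tr_nonneg H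
  rw [map_sub] at this
  linarith

lemma tr_mono {f : ℝ⟦X⟧} (hf : NN f) {H H' : ℕ} (h : H ≤ H') : tr H f ≤ tr H' f := by
  rw [tr_apply, tr_apply]
  exact sum_le_sum_of_subset_of_nonneg (range_subset_range.2 (by omega)) fun m _ _ => hf m

lemma tr_one (H : ℕ) : tr H 1 = 1 := by
  rw [tr_apply, sum_range_succ']
  simp [coeff_one]

lemma tr_C_mul (H : ℕ) (c : ℝ) (f : ℝ⟦X⟧) : tr H (PowerSeries.C c * f) = c * tr H f := by
  rw [tr_apply, tr_apply, mul_sum]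
  simp

lemma tr_mul_eq (H : ℕ) (f g : ℝ⟦X⟧) : tr H (f * g) =
    ∑ p ∈ (range (H + 1) ×ˢ range (H + 1)).filter (fun p => p.1 + p.2 ≤ H),
      coeff p.1 f * coeff p.2 g := by
  rw [tr_apply, ← sum_fiberwise_of_maps_to (t := range (H + 1)) (g := fun p : ℕ × ℕ => p.1 + p.2)]
  · refine sum_congr rfl fun m hm => ?_
    rw [coeff_mul]
    refine sum_congr ?_ fun _ _ => rfl
    ext p
    simp only [mem_range] at hm
    simp only [HasAntidiagonal.mem_antidiagonal, mem_filter, mem_product, mem_range]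
    omega
  · intro p hp
    simp only [mem_filter, mem_product, mem_range] at hp ⊢
    omega

lemma tr_mul_le {f g : ℝ⟦X⟧} (hf : NN f) (hg : NN g) (H : ℕ) :
    tr H (f * g) ≤ tr H f * tr H g := by
  rw [tr_mul_eq, tr_apply, tr_apply, sum_mul_sum, ← sum_product']
  exact sum_le_sum_of_subset_of_nonneg (filter_subset _ _) fun p _ _ => mul_nonneg (hf _) (hg _)

lemma le_tr_mul {f g : ℝ⟦X⟧} (hf : NN f) (hg : NN g) (J L : ℕ) :
    tr J f * tr L g ≤ tr (J + L) (f * g) := by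
  rw [tr_mul_eq, tr_apply, tr_apply, sum_mul_sum, ← sum_product']
  refine sum_le_sum_of_subset_of_nonneg ?_ fun p _ _ => mul_nonneg (hf _) (hg _)
  intro p hp
  simp only [mem_filter, mem_product, mem_range] at hp ⊢
  omega

lemma tr_X_mul_eq (f : ℝ⟦X⟧) (H : ℕ) : tr H (X * f) = ∑ m ∈ range H, coeff m f := by
  rw [tr_apply, sum_range_succ']
  simp [coeff_succ_X_mul, coeff_zero_X_mul]

lemma tr_X_mul {f : ℝ⟦X⟧} (hf : NN f) (H : ℕ) : tr H (X * f) ≤ tr H f := by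
  rw [tr_X_mul_eq, tr_apply]
  exact sum_le_sum_of_subset_of_nonneg (range_subset_range.2 (by omega)) fun m _ _ => hf m

/-- the Euler operator -/
noncomputable def eu (f : ℝ⟦X⟧) : ℝ⟦X⟧ := X * d⁄dX ℝ f

lemma coeff_eu (f : ℝ⟦X⟧) (m : ℕ) : coeff m (eu f) = m * coeff m f := by
  cases m with
  | zero => simp [eu, coeff_zero_X_mul]
  | succ m => rw [eu, coeff_succ_X_mul, coeff_derivative]; push_cast; ring

lemma eu_mul (f g : ℝ⟦X⟧) : eu (f * g) = f * eu g + g * eu f := by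
  simp only [eu, Derivation.leibniz, smul_eq_mul]; ring

lemma eu_sub (f g : ℝ⟦X⟧) : eu (f - g) = eu f - eu g := by
  simp only [eu, map_sub]; ring

lemma eu_add (f g : ℝ⟦X⟧) : eu (f + g) = eu f + eu g := by
  simp only [eu, map_add]; ring

lemma eu_one : eu 1 = 0 := by simp [eu]

lemma eu_sum {ι : Type} (s : Finset ι) (f : ι → ℝ⟦X⟧) :
    eu (∑ i ∈ s, f i) = ∑ i ∈ s, eu (f i) := by
  simp only [eu, map_sum, mul_sum]

lemma NN.eu {f : ℝ⟦X⟧} (hf : NN f) : NN (eu f) := fun m => by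
  rw [coeff_eu]; exact mul_nonneg (Nat.cast_nonneg _) (hf m)

variable {S : Type} [Fintype S] [DecidableEq S]

/-- generating series of the powers of `Q` -/
noncomputable def ser (Q : Matrix S S ℝ) : Matrix S S ℝ⟦X⟧ :=
  fun a b => PowerSeries.mk fun m => (Q ^ m) a b

/-- the matrix `X Q` -/
noncomputable def xq (Q : Matrix S S ℝ) : Matrix S S ℝ⟦X⟧ := fun a b => X * PowerSeries.C (Q a b)

@[simp] lemma coeff_ser (Q : Matrix S S ℝ) (a b : S) (m : ℕ) :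
    coeff m (ser Q a b) = (Q ^ m) a b := by simp [ser]

lemma ser_inv (Q : Matrix S S ℝ) : (1 - xq Q) * ser Q = 1 := by
  rw [Matrix.sub_mul, Matrix.one_mul, sub_eq_iff_eq_add]
  ext a b m
  simp only [Matrix.add_apply, Matrix.mul_apply, xq, map_add, map_sum, coeff_ser, mul_assoc]
  cases m with
  | zero =>
    simp only [coeff_zero_X_mul, pow_zero, Matrix.one_apply]
    split_ifs <;> simp
  | succ m =>
    simp only [coeff_succ_X_mul, coeff_C_mul, coeff_ser, pow_succ' Q, Matrix.mul_apply,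
      Matrix.one_apply]
    split_ifs <;> simp [coeff_one]

omit [Fintype S] in
lemma xq_zc (Q : Matrix S S ℝ) (a : S) : xq (zc Q a) = zc (xq Q) a := by
  funext u w
  simp only [xq, zc]
  split_ifs <;> simp

omit [Fintype S] in
lemma xq_mk (Q : Matrix S S ℝ) (v : S) (l : ℝ) :
    xq (mk Q v l) = mk (xq Q) v (PowerSeries.C l) := by
  funext u w
  simp only [xq, mk]
  split_ifs
  · simp; ring
  · rfl

lemma ser_inv_zc (Q : Matrix S S ℝ) (a : S) : (1 - zc (xq Q) a) * ser (zc Q a) = 1 := by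
  rw [← xq_zc]; exact ser_inv _

lemma NN.ser {Q : Matrix S S ℝ} (h : ∀ a b, 0 ≤ Q a b) (a b : S) : NN (ser Q a b) := fun m => by
  rw [coeff_ser]; exact pow_nn h _ _ _

omit [Fintype S] [DecidableEq S] in
lemma NN.xq {Q : Matrix S S ℝ} (h : ∀ a b, 0 ≤ Q a b) (a b : S) : NN (xq Q a b) :=
  NN.X.mul (NN.C (h a b))

omit [Fintype S] in
lemma NN.mone (a b : S) : NN ((1 : Matrix S S ℝ⟦X⟧) a b) := by
  rw [Matrix.one_apply]; split_ifs
  · exact NN.one
  · exact NN.zero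

omit [DecidableEq S] in
lemma NN.mmul {A B : Matrix S S ℝ⟦X⟧} (hA : ∀ a b, NN (A a b)) (hB : ∀ a b, NN (B a b)) (a b : S) :
    NN ((A * B) a b) := by
  rw [Matrix.mul_apply]; exact NN.sum fun c _ => (hA _ _).mul (hB _ _)

lemma NN.ser_sub_one {Q : Matrix S S ℝ} (h : ∀ a b, 0 ≤ Q a b) (a b : S) :
    NN (Up.ser Q a b - (1 : Matrix S S ℝ⟦X⟧) a b) := by
  have h3 := congrFun (congrFun (inv_left (ser_inv Q)) a) b
  rw [Matrix.add_apply] at h3
  have : Up.ser Q a b - (1 : Matrix S S ℝ⟦X⟧) a b = (Up.xq Q * Up.ser Q) a b := by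
    rw [h3]; ring
  rw [this]
  exact NN.mmul (NN.xq h) (NN.ser h) a b

omit [Fintype S] in
lemma zc_nn {Q : Matrix S S ℝ} (h : ∀ a b, 0 ≤ Q a b) (a u w : S) : 0 ≤ zc Q a u w := by
  simp only [zc]; split_ifs
  · exact le_rfl
  · exact h _ _

omit [Fintype S] in
lemma zc_le {Q : Matrix S S ℝ} (h : ∀ a b, 0 ≤ Q a b) (a u w : S) : zc Q a u w ≤ Q u w := by
  simp only [zc]; split_ifs
  · exact h _ _
  · exact le_rfl

lemma Sub.zc {Q : Matrix S S ℝ} {γ : ℝ} (h : Sub Q γ) (a : S) : Sub (zc Q a) γ :=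
  h.mono (zc_nn h.nonneg a) (zc_le h.nonneg a)

lemma NN.ser_sub {Q Q' : Matrix S S ℝ} (h0 : ∀ a b, 0 ≤ Q' a b) (h1 : ∀ a b, Q' a b ≤ Q a b)
    (a b : S) : NN (Up.ser Q a b - Up.ser Q' a b) := fun m => by
  rw [map_sub, coeff_ser, coeff_ser]; exact sub_nonneg.2 (pow_mono h0 h1 _ _ _)

lemma tr_ser (Q : Matrix S S ℝ) (H : ℕ) (a b : S) :
    tr H (ser Q a b) = ∑ m ∈ range (H + 1), (Q ^ m) a b := by
  simp [tr_apply]

lemma tr_ser_diag (Q : Matrix S S ℝ) (H : ℕ) (a : S) : tr H (ser Q a a) = Gt Q H a := tr_ser _ _ _ _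

lemma res_nn {Q : Matrix S S ℝ} (h : ∀ a b, 0 ≤ Q a b) (a b : S) : 0 ≤ res Q a b :=
  tsum_nonneg fun m => pow_nn h m a b

lemma sum_le_res {Q : Matrix S S ℝ} {γ : ℝ} (h : Sub Q γ) (H : ℕ) (a b : S) :
    ∑ m ∈ range H, (Q ^ m) a b ≤ res Q a b :=
  (h.summable a b).sum_le_tsum _ fun m _ => h.pn m a b

lemma tr_ser_le {Q : Matrix S S ℝ} {γ : ℝ} (h : Sub Q γ) (H : ℕ) (a b : S) :
    tr H (ser Q a b) ≤ res Q a b := by
  rw [tr_ser]; exact sum_le_res h _ a b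

lemma coeff_ser_sq (Q : Matrix S S ℝ) (a b : S) (m : ℕ) :
    coeff m ((ser Q * ser Q) a b) = (m + 1) * (Q ^ m) a b := by
  rw [Matrix.mul_apply, map_sum]
  simp only [coeff_mul, coeff_ser]
  rw [sum_comm]
  have : ∀ p ∈ antidiagonal m, ∑ c, (Q ^ p.1) a c * (Q ^ p.2) c b = (Q ^ m) a b := by
    intro p hp
    rw [← Matrix.mul_apply, ← pow_add, mem_antidiagonal.1 hp]
  rw [sum_congr rfl this]
  simp

lemma eu_ser (Q : Matrix S S ℝ) (a b : S) : eu (ser Q a b) = (ser Q * ser Q) a b - ser Q a b := by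
  ext m
  rw [coeff_eu, map_sub, coeff_ser_sq, coeff_ser]; ring

lemma i2 {Q : Matrix S S ℝ} (h : ∀ a b, 0 ≤ Q a b) (c u b : S) :
    NN (ser Q u u * ser Q c b - ser Q c u * ser Q u b) := by
  by_cases hc : c = u
  · subst hc; simpa using NN.zero
  have h1 := fp (ser_inv Q) (ser_inv_zc Q u) c b
  have h2 := fp (ser_inv Q) (ser_inv_zc Q u) c u
  rw [zc_col (ser_inv_zc Q u), Matrix.one_apply_ne hc, zero_add] at h2
  have : ser Q u u * ser Q c b - ser Q c u * ser Q u b = ser Q u u * ser (zc Q u) c b := by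
    rw [h1, h2]; ring
  rw [this]
  exact (NN.ser h _ _).mul (NN.ser (zc_nn h u) _ _)

lemma i2' {Q : Matrix S S ℝ} (h : ∀ a b, 0 ≤ Q a b) (c u b : S) :
    NN (ser Q u u * (ser Q c b - (1 : Matrix S S ℝ⟦X⟧) c b)
      - ser Q c u * (ser Q u b - (1 : Matrix S S ℝ⟦X⟧) u b)) := by
  by_cases hc : c = u
  · subst hc; simpa using NN.zero
  have h1 := fp (ser_inv Q) (ser_inv_zc Q u) c b
  have h2 := fp (ser_inv Q) (ser_inv_zc Q u) c u
  rw [zc_col (ser_inv_zc Q u), Matrix.one_apply_ne hc, zero_add] at h2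
  have : ser Q u u * (ser Q c b - (1 : Matrix S S ℝ⟦X⟧) c b)
      - ser Q c u * (ser Q u b - (1 : Matrix S S ℝ⟦X⟧) u b)
      = ser Q u u * (ser (zc Q u) c b - (1 : Matrix S S ℝ⟦X⟧) c b)
        + ser Q c u * (1 : Matrix S S ℝ⟦X⟧) u b := by
    rw [h1, h2]; ring
  rw [this]
  exact ((NN.ser h _ _).mul (NN.ser_sub_one (zc_nn h u) _ _)).add
    ((NN.ser h _ _).mul (NN.mone _ _))

end Pool.Agent.Lib.MP_eadfc1_pr.Up
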