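import Pool.Agent.Lib.MP_eadfc1_pr.UpDamp

namespace Pool.Agent.Lib.MP_eadfc1_pr.Up

open Finset Matrix PowerSeries

variable {S : Type} [Fintype S] [DecidableEq S]

/-- killing rates -/
noncomputable def kk (Q : Matrix S S ℝ) (H : ℕ) (θ : ℝ) (u : S) : ℝ := θ ^ 2 / 64 * (Gt Q H u - 1)

/-- mass of short paths killed once -/
noncomputable def TT (Q : Matrix S S ℝ) (H : ℕ) (θ : ℝ) (a b : S) : ℝ :=
  ∑ u, kk Q H θ u * tr H (ser Q a u * ser Q u b)

lemma kk_nn {Q : Matrix S S ℝ} (h : ∀ a b, 0 ≤ Q a b) (H : ℕ) (θ : ℝ) (u : S) :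
    0 ≤ kk Q H θ u := mul_nonneg (by positivity) (sub_nonneg.2 (one_le_Gt h H u))

lemma TT_nn {Q : Matrix S S ℝ} (h : ∀ a b, 0 ≤ Q a b) (H : ℕ) (θ : ℝ) (a b : S) :
    0 ≤ TT Q H θ a b :=
  sum_nonneg fun u _ => mul_nonneg (kk_nn h H θ u) (((NN.ser h _ _).mul (NN.ser h _ _)).tr_nonneg _)

lemma TT_le_half {Q : Matrix S S ℝ} {γ : ℝ} (hQ : Sub Q γ) (H : ℕ) {θ : ℝ} (h0 : 0 ≤ θ)
    (h2 : (H + 1) * θ ≤ 1) (a b : S) : TT Q H θ a b ≤ res Q a b / 2 := by
  have h3 : TT Q H θ a b ≤ ∑ u, θ ^ 2 / 64 * (H + 1) * tr H (ser Q a u * ser Q u b) := by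
    refine sum_le_sum fun u _ => mul_le_mul_of_nonneg_right ?_
      (((NN.ser hQ.nonneg _ _).mul (NN.ser hQ.nonneg _ _)).tr_nonneg _)
    refine mul_le_mul_of_nonneg_left ?_ (by positivity)
    linarith [Gt_le hQ H u]
  rw [← mul_sum, ← map_sum, ← Matrix.mul_apply] at h3
  have h4 : tr H ((ser Q * ser Q) a b) ≤ (H + 1) * res Q a b := by
    refine le_trans ?_ (mul_le_mul_of_nonneg_left (sum_le_res hQ (H + 1) a b) (by positivity))
    rw [tr_apply, mul_sum]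
    refine sum_le_sum fun m hm => ?_
    rw [coeff_ser_sq]
    refine mul_le_mul_of_nonneg_right ?_ (hQ.pn _ _ _)
    have : (m : ℝ) ≤ H := by exact_mod_cast Nat.lt_succ_iff.1 (mem_range.1 hm)
    linarith
  have h5 : ((H + 1) * θ) ^ 2 ≤ 1 := pow_le_one₀ (by positivity) h2
  have h6 := res_nn hQ.nonneg a b
  calc TT Q H θ a b ≤ θ ^ 2 / 64 * (H + 1) * ((H + 1) * res Q a b) :=
        h3.trans (mul_le_mul_of_nonneg_left h4 (by positivity))
    _ = ((H + 1) * θ) ^ 2 * (res Q a b / 64) := by ring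
    _ ≤ 1 * (res Q a b / 64) := mul_le_mul_of_nonneg_right h5 (by positivity)
    _ ≤ _ := by linarith

lemma tr_fp_le {Q : Matrix S S ℝ} {γ : ℝ} (hQ : Sub Q γ) (H : ℕ) (a u : S) :
    tr H ((ser (zc Q a) * xq Q) u a) ≤ 1 := by
  have h1 : (ser (zc Q a) * xq Q) u a = X * ∑ c, ser (zc Q a) u c * PowerSeries.C (Q c a) := by
    rw [Matrix.mul_apply, mul_sum]
    exact sum_congr rfl fun c _ => by rw [xq]; ring
  rw [h1, tr_X_mul_eq]
  simp only [map_sum, coeff_mul_C, coeff_ser]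
  refine exit_le_one (zc_nn hQ.nonneg a) (fun c => ?_) H u
  have h2 : ∑ b, zc Q a c b + Q c a = ∑ b, Q c b := by
    rw [← add_sum_erase _ _ (mem_univ a), ← add_sum_erase _ (Q c) (mem_univ a)]
    have : ∑ b ∈ univ.erase a, zc Q a c b = ∑ b ∈ univ.erase a, Q c b :=
      sum_congr rfl fun b hb => by simp [zc, ne_of_mem_erase hb]
    rw [this]; simp [zc, add_comm]
  rw [h2]
  exact (hQ.row c).trans hQ.g1.le

lemma dGt_nn {Q : Matrix S S ℝ} (h : ∀ a b, 0 ≤ Q a b) (H : ℕ) (a u : S) :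
    0 ≤ Gt Q H u - Gt (zc Q a) H u := by
  rw [← tr_ser_diag, ← tr_ser_diag, ← map_sub]
  exact (NN.ser_sub (zc_nn h a) (zc_le h a) u u).tr_nonneg H

lemma sum_dGt {Q : Matrix S S ℝ} {γ : ℝ} (hQ : Sub Q γ) (H : ℕ) (a : S) :
    ∑ u, (Gt Q H u - Gt (zc Q a) H u) ≤ H + 1 := by
  have h1 : ∀ u, Gt Q H u - Gt (zc Q a) H u ≤ tr H (ser Q a u) := by
    intro u
    rw [← tr_ser_diag, ← tr_ser_diag, ← map_sub]
    have h2 : ser Q u u - ser (zc Q a) u u = (ser (zc Q a) * xq Q) u a * ser Q a u := by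
      rw [fp (ser_inv Q) (ser_inv_zc Q a) u u]; ring
    rw [h2]
    refine (tr_mul_le (NN.mmul (NN.ser (zc_nn hQ.nonneg a)) (NN.xq hQ.nonneg) u a)
      (NN.ser hQ.nonneg a u) H).trans ?_
    exact mul_le_of_le_one_left ((NN.ser hQ.nonneg a u).tr_nonneg H) (tr_fp_le hQ H a u)
  refine (sum_le_sum fun u _ => h1 u).trans ?_
  simp only [tr_ser]
  rw [sum_comm]
  refine (sum_le_sum fun m _ => hQ.prow1 m a).trans ?_
  simp

lemma TT_step {Q : Matrix S S ℝ} {γ : ℝ} (hQ : Sub Q γ) (H : ℕ) (θ : ℝ) (a b : S) :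
    TT Q H θ a b ≤ res Q a a * ((θ ^ 2 / 32 * ∑ u, (Gt Q H u - Gt (zc Q a) H u) * Gt Q H u)
      * res (zc Q a) a b + TT (zc Q a) H θ a b) := by
  have hz := hQ.zc a
  have hp : NN (ser Q a a) := NN.ser hQ.nonneg a a
  have hg := tr_ser_le hQ H a a
  have hg0 := res_nn hQ.nonneg a a
  have hr := tr_ser_le hz H a b
  have hr0 := res_nn hz.nonneg a b
  rw [TT, TT, mul_sum, sum_mul, ← sum_add_distrib, mul_sum]
  refine sum_le_sum fun u _ => ?_
  have hd : NN (ser Q u u - ser (zc Q a) u u) := NN.ser_sub hz.nonneg (zc_le hQ.nonneg a) u u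
  have hn : NN (ser (zc Q a) a u * ser (zc Q a) u b) :=
    (NN.ser hz.nonneg _ _).mul (NN.ser hz.nonneg _ _)
  have e1 : ser Q a u * ser Q u b = ser Q a a * (ser (zc Q a) a u * ser (zc Q a) u b)
      + ser Q a a * ((ser Q u u - ser (zc Q a) u u) * ser (zc Q a) a b) := by
    have l1 := le' (ser_inv Q) (ser_inv_zc Q a) u b
    have l2 := le' (ser_inv Q) (ser_inv_zc Q a) u u
    have l3 := le_diag (ser_inv Q) (ser_inv_zc Q a) u
    linear_combination ser Q a u * l1 - ser Q a a * ser (zc Q a) a b * l2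
      + (ser (zc Q a) u b + (ser Q u a - (1 : Matrix S S ℝ⟦X⟧) u a) * ser (zc Q a) a b) * l3
  set τ := tr H (ser (zc Q a) a u * ser (zc Q a) u b) with hτ
  have hτ0 : 0 ≤ τ := hn.tr_nonneg H
  set d := Gt Q H u - Gt (zc Q a) H u with hdd
  have hd0 : 0 ≤ d := dGt_nn hQ.nonneg H a u
  have e2 : tr H (ser Q a a * (ser (zc Q a) a u * ser (zc Q a) u b)) ≤ res Q a a * τ :=
    (tr_mul_le hp hn H).trans (mul_le_mul_of_nonneg_right hg hτ0)
  have e3 : tr H ((ser Q u u - ser (zc Q a) u u) * ser (zc Q a) a b) ≤ d * res (zc Q a) a b := by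
    refine (tr_mul_le hd (NN.ser hz.nonneg _ _) H).trans ?_
    rw [map_sub, tr_ser_diag, tr_ser_diag]
    exact mul_le_mul_of_nonneg_left hr hd0
  have e4 : tr H (ser Q a a * ((ser Q u u - ser (zc Q a) u u) * ser (zc Q a) a b))
      ≤ res Q a a * (d * res (zc Q a) a b) :=
    (tr_mul_le hp (hd.mul (NN.ser hz.nonneg _ _)) H).trans
      (mul_le_mul hg e3 ((hd.mul (NN.ser hz.nonneg _ _)).tr_nonneg H) hg0)
  have e5 : τ ≤ Gt (zc Q a) H u * res (zc Q a) a b := by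
    refine (tr_le (i2 hz.nonneg a u b) H).trans ?_
    refine (tr_mul_le (NN.ser hz.nonneg _ _) (NN.ser hz.nonneg _ _) H).trans ?_
    rw [tr_ser_diag]
    exact mul_le_mul_of_nonneg_left hr (zero_le_one.trans (one_le_Gt hz.nonneg H u))
  have e6 : kk Q H θ u = kk (zc Q a) H θ u + θ ^ 2 / 64 * d := by
    rw [kk, kk, hdd]; ring
  have hk := kk_nn hQ.nonneg H θ u
  have e7 : kk Q H θ u * tr H (ser Q a u * ser Q u b)
      ≤ res Q a a * (kk Q H θ u * (τ + d * res (zc Q a) a b)) := by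
    rw [e1, map_add]
    have := mul_le_mul_of_nonneg_left (add_le_add e2 e4) hk
    linarith
  refine e7.trans (mul_le_mul_of_nonneg_left ?_ hg0)
  have e8 : θ ^ 2 / 64 * d * τ ≤ θ ^ 2 / 64 * d * (Gt Q H u * res (zc Q a) a b) := by
    refine mul_le_mul_of_nonneg_left (e5.trans ?_) (by positivity)
    exact mul_le_mul_of_nonneg_right (by linarith) hr0
  have e9 : kk Q H θ u * (d * res (zc Q a) a b)
      ≤ θ ^ 2 / 64 * Gt Q H u * (d * res (zc Q a) a b) := by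
    refine mul_le_mul_of_nonneg_right ?_ (by positivity)
    rw [kk]
    exact mul_le_mul_of_nonneg_left (by linarith) (by positivity)
  rw [mul_add, e6] at *
  linarith

lemma TT_inactive {Q : Matrix S S ℝ} (h : ∀ a b, 0 ≤ Q a b) (H : ℕ) (θ : ℝ) {a : S}
    (ha : ∀ u, Q u a = 0) (b : S) : TT Q H θ a b ≤ ∑ c, Q a c * TT Q H θ c b := by
  simp only [TT, mul_sum]
  rw [sum_comm]
  refine sum_le_sum fun u _ => ?_
  by_cases hu : u = a
  · subst hu
    have : kk Q H θ u = 0 := by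
      rw [kk, Gt_eq]
      have : ∑ m ∈ range H, (Q ^ (m + 1)) u u = 0 :=
        sum_eq_zero fun m _ => by simp [pow_succ, Matrix.mul_apply, ha]
      rw [this]; ring
    simp [this]
  · have h1 : ser Q a u * ser Q u b
        = X * ∑ c, PowerSeries.C (Q a c) * (ser Q c u * ser Q u b) := by
      have h3 := congrFun (congrFun (inv_left (ser_inv Q)) a) u
      rw [Matrix.add_apply, Matrix.one_apply_ne (Ne.symm hu), zero_add, Matrix.mul_apply] at h3
      rw [h3, sum_mul, mul_sum]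
      exact sum_congr rfl fun c _ => by rw [xq]; ring
    have h2 : tr H (ser Q a u * ser Q u b) ≤ ∑ c, Q a c * tr H (ser Q c u * ser Q u b) := by
      rw [h1]
      refine (tr_X_mul (NN.sum fun c _ => (NN.C (h _ _)).mul
        ((NN.ser h _ _).mul (NN.ser h _ _))) H).trans (le_of_eq ?_)
      rw [map_sum]
      exact sum_congr rfl fun c _ => tr_C_mul _ _ _
    refine (mul_le_mul_of_nonneg_left h2 (kk_nn h H θ u)).trans (le_of_eq ?_)
    rw [mul_sum]
    exact sum_congr rfl fun c _ => by ring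

lemma short_aux {γ θ : ℝ} {H : ℕ} (h0 : 0 ≤ θ) (h1 : 2 * H * θ ≤ 1) (h2 : (H + 1) * θ ≤ 1)
    (k : ℕ) : ∀ (A : Finset S) (Q : Matrix S S ℝ), A.card = k → Sub Q γ →
      (∀ u w, w ∉ A → Q u w = 0) → ∀ a b, ‖Gz Q θ a b‖ ≤ res Q a b - TT Q H θ a b := by
  have fin : ∀ (A : Finset S) (Q : Matrix S S ℝ), Sub Q γ → (∀ u w, w ∉ A → Q u w = 0) →
      (∀ a ∈ A, ∀ b, ‖Gz Q θ a b‖ ≤ res Q a b - TT Q H θ a b) →
      ∀ a b, ‖Gz Q θ a b‖ ≤ res Q a b - TT Q H θ a b := by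
    intro A Q hQ hA hin a b
    by_cases ha : a ∈ A
    · exact hin a ha b
    have e1 := congrFun (congrFun (inv_left (Gz_inv hQ θ)) a) b
    have e2 := congrFun (congrFun (inv_left (res_inv hQ)) a) b
    rw [Matrix.add_apply, Matrix.mul_apply] at e1 e2
    have e3 := TT_inactive hQ.nonneg H θ (fun u => hA u a ha) b
    have e4 : ‖(1 : Matrix S S ℂ) a b‖ = (1 : Matrix S S ℝ) a b := by
      simp only [Matrix.one_apply]; split_ifs <;> simp
    have e5 : ‖∑ c, cz Q (ez θ) a c * Gz Q θ c b‖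
        ≤ ∑ c, Q a c * (res Q c b - TT Q H θ c b) := by
      refine (norm_sum_le _ _).trans (sum_le_sum fun c _ => ?_)
      rw [norm_mul, cz, norm_mul, norm_ez, one_mul, Complex.norm_real, Real.norm_eq_abs,
        abs_of_nonneg (hQ.nonneg _ _)]
      by_cases hc : c ∈ A
      · exact mul_le_mul_of_nonneg_left (hin c hc b) (hQ.nonneg _ _)
      · simp [hA a c hc]
    simp only [mul_sub, sum_sub_distrib] at e5
    rw [e1, e2]
    refine (norm_add_le _ _).trans ?_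
    linarith
  induction k with
  | zero =>
    intro A Q hA hQ hz
    refine fin A Q hQ hz fun a ha => ?_
    rw [card_eq_zero.1 hA] at ha
    simp at ha
  | succ k ih =>
    intro A Q hA hQ hz
    refine fin A Q hQ hz fun a ha b => ?_
    have hzc := hQ.zc a
    have i1 := ih (A.erase a) (zc Q a) (by rw [card_erase_of_mem ha, hA]; rfl) hzc (by
      intro u w hw
      simp only [zc]
      split_ifs with h
      · rfl
      · exact hz u w fun h' => hw (mem_erase.2 ⟨h, h'⟩)) a b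
    have d1 := damp hQ a H h0 h1
    have t1 := TT_step hQ H θ a b
    have t2 := TT_le_half hzc H h0 h2 a b
    have t3 := TT_nn hzc.nonneg H θ a b
    set W := ∑ u, (Gt Q H u - Gt (zc Q a) H u) * Gt Q H u with hW
    have hW0 : 0 ≤ W := sum_nonneg fun u _ => mul_nonneg (dGt_nn hQ.nonneg H a u)
      (zero_le_one.trans (one_le_Gt hQ.nonneg H u))
    have hW1 : W ≤ (H + 1) * (H + 1) := by
      calc W ≤ ∑ u, (Gt Q H u - Gt (zc Q a) H u) * (H + 1) := sum_le_sum fun u _ =>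
            mul_le_mul_of_nonneg_left (by linarith [Gt_le hQ H u]) (dGt_nn hQ.nonneg H a u)
        _ = (∑ u, (Gt Q H u - Gt (zc Q a) H u)) * (H + 1) := by rw [sum_mul]
        _ ≤ _ := mul_le_mul_of_nonneg_right (sum_dGt hQ H a) (by positivity)
    set y := θ ^ 2 / 32 * W with hy
    have hy0 : 0 ≤ y := by positivity
    have hy1 : y ≤ 1 / 32 := by
      have h5 : ((H + 1) * θ) ^ 2 ≤ 1 := pow_le_one₀ (by positivity) h2
      have := mul_le_mul_of_nonneg_left hW1 (show 0 ≤ θ ^ 2 / 32 by positivity)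
      linarith
    have hg0 := res_nn hQ.nonneg a a
    have d2 : ‖Gz Q θ a a‖ ≤ res Q a a * (1 - 2 * y) := by
      refine le_of_sq_le_sq ?_ (mul_nonneg hg0 (by linarith))
      have d3 : ‖Gz Q θ a a‖ ^ 2 * (1 + 8 * y) ≤ res Q a a ^ 2 := by
        convert d1 using 3; rw [hy]; ring
      have d4 : 1 ≤ (1 - 2 * y) ^ 2 * (1 + 8 * y) := by
        have : 0 ≤ y * (4 - 28 * y + 32 * y ^ 2) := mul_nonneg hy0 (by nlinarith)
        linarith
      have d5 : ‖Gz Q θ a a‖ ^ 2 * (1 + 8 * y) ≤ (res Q a a * (1 - 2 * y)) ^ 2 * (1 + 8 * y) := by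
        have := mul_le_mul_of_nonneg_left d4 (sq_nonneg (res Q a a))
        linarith
      exact le_of_mul_le_mul_right d5 (by linarith)
    rw [le_diag (Gz_inv hQ θ) (Gz_inv_zc hQ θ a) b, le_diag (res_inv hQ) (res_inv hzc) b, norm_mul]
    refine (mul_le_mul d2 i1 (norm_nonneg _) (mul_nonneg hg0 (by linarith))).trans ?_
    have : 0 ≤ res Q a a * y * (res (zc Q a) a b - 2 * TT (zc Q a) H θ a b) :=
      mul_nonneg (mul_nonneg hg0 hy0) (by linarith)
    linarith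

lemma short {Q : Matrix S S ℝ} {γ θ : ℝ} {H : ℕ} (hQ : Sub Q γ) (h0 : 0 ≤ θ) (h1 : 2 * H * θ ≤ 1)
    (h2 : (H + 1) * θ ≤ 1) (a b : S) : ‖Gz Q θ a b‖ ≤ res Q a b - TT Q H θ a b :=
  short_aux h0 h1 h2 _ univ Q rfl hQ (by simp) a b

end Pool.Agent.Lib.MP_eadfc1_pr.Up
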